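import Mathlib

/-!
# Bounded advice

`F (i, x, N)`, `i < k`, are candidates for the answer to the question `T x`, and for each index `N`
one of the `k` candidates is right for all `x` with `adm x N`.  Which one is right may depend on `N`
in an arbitrary way.  It is shown that `T` is decided by an algorithm.
-/

set_option autoImplicit false

namespace Pool.Agent.Q287.BA

open Filter

variable {X : Type} [Primcodable X]

theorem all_comp {α ι : Type} [Primcodable α] {f : ι → α → Bool} (hf : ∀ i, Computable (f i))
    (l : List ι) : Computable (fun a => l.all fun i => f i a) := by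
  induction l with
  | nil => exact Computable.const true
  | cons i l ih =>
    simp only [List.all_cons]
    exact Primrec.and.to_comp.comp (hf i) ih

theorem beq_comp {α : Type} [Primcodable α] {f : α → Bool} (hf : Computable f) (b : Bool) :
    Computable (fun a => f a == b) := by
  cases b
  · exact (Primrec.not.to_comp.comp hf).of_eq fun a => by cases f a <;> rfl
  · exact hf.of_eq fun a => by cases f a <;> rfl

/-- All candidates which are right on the list `Y` give the answer `b` for `x`. -/
def una (F : ℕ × X × ℕ → Bool) (k : ℕ) (Y : List (X × Bool)) (b : Bool) (z : X × ℕ) : Bool :=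
  (List.range k).all fun i => (!(Y.all fun y => F (i, y.1, z.2) == y.2)) || (F (i, z.1, z.2) == b)

omit [Primcodable X] in
theorem una_iff (F : ℕ × X × ℕ → Bool) (k : ℕ) (Y : List (X × Bool)) (b : Bool) (z : X × ℕ) :
    una F k Y b z = true ↔
      ∀ i < k, (∀ y ∈ Y, F (i, y.1, z.2) = y.2) → F (i, z.1, z.2) = b := by
  unfold una
  rw [List.all_eq_true]
  simp only [List.mem_range, Bool.or_eq_true, Bool.not_eq_true', beq_iff_eq]
  refine forall_congr' fun i => forall_congr' fun _ => ?_
  constructor
  · rintro (h | h) hy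
    · exfalso
      have : (Y.all fun y => F (i, y.1, z.2) == y.2) = true := by
        rw [List.all_eq_true]
        intro y hyY
        rw [beq_iff_eq]
        exact hy y hyY
      rw [h] at this
      exact absurd this (by decide)
    · exact h
  · intro h
    by_cases hy : ∀ y ∈ Y, F (i, y.1, z.2) = y.2
    · exact Or.inr (h hy)
    · left
      rw [← Bool.not_eq_true, List.all_eq_true]
      intro h2
      exact hy fun y hyY => by simpa using h2 y hyY

theorem una_comp {F : ℕ × X × ℕ → Bool} (hF : Computable F) (k : ℕ) (Y : List (X × Bool))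
    (b : Bool) : Computable (una F k Y b) := by
  unfold una
  refine all_comp (fun i => ?_) _
  refine Primrec.or.to_comp.comp (Primrec.not.to_comp.comp (all_comp (fun y => ?_) _)) ?_
  · refine beq_comp ?_ _
    exact hF.comp ((Computable.const i).pair ((Computable.const y.1).pair Computable.snd))
  · refine beq_comp ?_ _
    exact hF.comp ((Computable.const i).pair (Computable.fst.pair Computable.snd))

/-- **Bounded advice.** `F (i, x, N)`, `i < k`, are computable, for each `N` some `i < k` is right
for all `x` with the property `P` and `adm (x, N)`, and each `x` with the property `P` is admitted for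
most `N`. Then some algorithm halts and gives the right answer for all `x` with the property `P`. -/
theorem core {P T : X → Prop} {k : ℕ} {adm : X × ℕ → Bool} {F : ℕ × X × ℕ → Bool}
    (hF : Computable F) (hadm : Computable adm) (l : Filter ℕ) [l.NeBot]
    (hl : ∀ x, P x → ∀ᶠ N in l, adm (x, N) = true)
    (h : ∀ N, ∃ i < k, ∀ x, P x → adm (x, N) = true → (F (i, x, N) = true ↔ T x)) :
    ∃ D : X →. Bool, Partrec D ∧ ∀ x, P x → ∃ b, D x = Part.some b ∧ (b = true ↔ T x) := by
  classical
  -- the number of the candidates that are right on `Y`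
  obtain ⟨S, hS⟩ : ∃ S : List (X × Bool) → ℕ → Finset ℕ, S = fun Y N =>
    (Finset.range k).filter fun i => ∀ y ∈ Y, F (i, y.1, N) = y.2 := ⟨_, rfl⟩
  have hmem : ∀ Y N i, i ∈ S Y N ↔ i < k ∧ ∀ y ∈ Y, F (i, y.1, N) = y.2 := by
    intro Y N i
    rw [hS]
    simp
  obtain ⟨G, hG⟩ : ∃ G : List (X × Bool) → Prop,
    G = fun Y => ∀ y ∈ Y, P y.1 ∧ (y.2 = true ↔ T y.1) := ⟨_, rfl⟩
  obtain ⟨R, hR⟩ : ∃ R : ℕ → Prop, R = fun c => ∃ Y, G Y ∧ ∃ᶠ N in l, (S Y N).card ≤ c := ⟨_, rfl⟩
  have hRk : ∃ c, R c := by
    rw [hR]
    refine ⟨k, [], ?_, ?_⟩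
    · rw [hG]
      intro y hy
      simp at hy
    · refine Eventually.frequently (Eventually.of_forall fun N => ?_)
      rw [hS]
      exact (Finset.card_filter_le _ _).trans (by simp)
  obtain ⟨c, hc⟩ : ∃ c, c = Nat.find hRk := ⟨_, rfl⟩
  have hRc : R c := hc ▸ Nat.find_spec hRk
  have hmin : ∀ d < c, ¬ R d := fun d hd => Nat.find_min hRk (hc ▸ hd)
  rw [hR] at hRc
  obtain ⟨Y, hY, hfreq⟩ := hRc
  rw [hG] at hY
  -- the references are admitted
  obtain ⟨adY, hadY⟩ : ∃ adY : ℕ → Bool, adY = fun N => Y.all fun y => adm (y.1, N) := ⟨_, rfl⟩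
  have cadY : Computable adY := by
    rw [hadY]
    exact all_comp (f := fun (y : X × Bool) (N : ℕ) => adm (y.1, N))
      (fun y => hadm.comp ((Computable.const y.1).pair Computable.id)) _
  have hadY2 : ∀ N, adY N = true ↔ ∀ y ∈ Y, adm (y.1, N) = true := by
    intro N
    rw [hadY]
    simp only [List.all_eq_true]
  have hadYl : ∀ᶠ N in l, adY N = true := by
    have h1 : ∀ᶠ N in l, ∀ y ∈ Y, adm (y.1, N) = true := by
      have h2 : ∀ (Z : List (X × Bool)), (∀ y ∈ Z, P y.1) → ∀ᶠ N in l, ∀ y ∈ Z, adm (y.1, N) = true := by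
        intro Z
        induction Z with
        | nil =>
          intro _
          exact Eventually.of_forall fun N y hy => by simp at hy
        | cons z Z ih =>
          intro hZ
          have e1 := hl z.1 (hZ z (by simp))
          have e2 := ih fun y hy => hZ y (by simp [hy])
          filter_upwards [e1, e2] with N h1 h2 y hy
          rcases List.mem_cons.1 hy with rfl | hy
          · exact h1
          · exact h2 y hy
      exact h2 Y fun y hy => (hY y hy).1
    filter_upwards [h1] with N hN
    exact (hadY2 N).2 hN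
  obtain ⟨t, ht⟩ : ∃ t : X × ℕ → Bool, t = fun z => (adm z && adY z.2) &&
    (una F k Y true z || una F k Y false z) := ⟨_, rfl⟩
  have ct : Computable t := by
    rw [ht]
    exact Primrec.and.to_comp.comp (Primrec.and.to_comp.comp hadm (cadY.comp Computable.snd))
      (Primrec.or.to_comp.comp (una_comp hF k Y true) (una_comp hF k Y false))
  have ht2 : ∀ z, t z = true ↔ (adm z = true ∧ ∀ y ∈ Y, adm (y.1, z.2) = true) ∧
      (una F k Y true z = true ∨ una F k Y false z = true) := by
    intro z
    rw [ht]
    simp only [Bool.and_eq_true, Bool.or_eq_true, hadY2]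
  refine ⟨fun x => (Nat.rfind fun N => Part.some (t (x, N))).map
    fun N => una F k Y true (x, N), ?_, ?_⟩
  · refine Partrec.map (Partrec.rfind (p := fun x N => Part.some (t (x, N))) ?_) ?_
    · exact ct
    · exact una_comp hF k Y true
  · intro x hx
    -- the right candidate
    have hright : ∀ N, t (x, N) = true → (una F k Y true (x, N) = true ↔ T x) := by
      intro N hN
      rw [ht2] at hN
      obtain ⟨⟨h1, h2⟩, h3⟩ := hN
      obtain ⟨i, hi, hi2⟩ := h N
      have hcons : ∀ y ∈ Y, F (i, y.1, N) = y.2 := by
        intro y hy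
        obtain ⟨hy1, hy2⟩ := hY y hy
        rw [Bool.eq_iff_iff, hi2 y.1 hy1 (h2 y hy)]
        exact hy2.symm
      have hx2 := hi2 x hx h1
      constructor
      · intro h4
        rw [una_iff] at h4
        exact hx2.1 (h4 i hi hcons)
      · intro h4
        rcases h3 with h3 | h3
        · exact h3
        · rw [una_iff] at h3
          have h5 := h3 i hi hcons
          rw [hx2.2 h4] at h5
          exact absurd h5 (by decide)
    -- the search ends
    have hex : ∃ N, t (x, N) = true := by
      by_contra hne
      push Not at hne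
      -- then adding `x` to `Y` would lower the number of the candidates
      have h1 : ∃ᶠ N in l, (S ((x, decide (T x)) :: Y) N).card ≤ c - 1 := by
        have hfr := (hfreq.and_eventually (hadYl.and (hl x hx)))
        refine hfr.mono ?_
        rintro N ⟨h2, h3, h4⟩
        have h5 := hne N
        rw [Ne, ht2] at h5
        have h6 : ¬ (una F k Y true (x, N) = true ∨ una F k Y false (x, N) = true) := by
          intro h6
          exact h5 ⟨⟨h4, (hadY2 N).1 h3⟩, h6⟩
        have h7 : una F k Y (decide (T x)) (x, N) ≠ true := by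
          intro h7
          apply h6
          cases hd : decide (T x)
          · rw [hd] at h7
            exact Or.inr h7
          · rw [hd] at h7
            exact Or.inl h7
        rw [Ne, una_iff] at h7
        push Not at h7
        obtain ⟨i, hi, hi2, hi3⟩ := h7
        have h8 : S ((x, decide (T x)) :: Y) N ⊂ S Y N := by
          refine ⟨fun j hj => ?_, fun hsub => ?_⟩
          · rw [hmem] at hj ⊢
            exact ⟨hj.1, fun y hy => hj.2 y (by simp [hy])⟩
          · have h9 : i ∈ S Y N := (hmem _ _ _).2 ⟨hi, hi2⟩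
            have h10 := (hmem _ _ _).1 (hsub h9)
            exact hi3 (h10.2 (x, decide (T x)) (by simp))
        have h9 := Finset.card_lt_card h8
        omega
      have hc0 : 0 < c := by
        by_contra h0
        have hc1 : c = 0 := by omega
        obtain ⟨N, hN, hN2⟩ := (hfreq.and_eventually hadYl).exists
        obtain ⟨i, hi, hi2⟩ := h N
        have : i ∈ S Y N := by
          rw [hmem]
          refine ⟨hi, fun y hy => ?_⟩
          obtain ⟨hy1, hy2⟩ := hY y hy
          rw [Bool.eq_iff_iff, hi2 y.1 hy1 ((hadY2 N).1 hN2 y hy)]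
          exact hy2.symm
        have h2 := Finset.card_pos.2 ⟨i, this⟩
        omega
      refine hmin (c - 1) (by omega) ?_
      rw [hR]
      refine ⟨(x, decide (T x)) :: Y, ?_, h1⟩
      rw [hG]
      intro y hy
      rcases List.mem_cons.1 hy with rfl | hy
      · exact ⟨hx, by simp⟩
      · exact hY y hy
    obtain ⟨N, hN⟩ := hex
    have hdom : (Nat.rfind fun N => Part.some (t (x, N))).Dom := by
      exact Nat.rfind_dom.2 ⟨N, by simpa using hN.symm, fun _ => trivial⟩
    obtain ⟨M, hM⟩ := Part.dom_iff_mem.1 hdom
    have hM2 : t (x, M) = true := by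
      exact (Part.mem_some_iff.1 (Nat.mem_rfind.1 hM).1).symm
    refine ⟨una F k Y true (x, M), ?_, hright M hM2⟩
    exact Part.eq_some_iff.2 (Part.mem_map _ hM)

/-- Finitely many algorithms, one for each value of `ρ`. -/
theorem combine (q : ℕ) {ρ : X → ℕ} (hρ : Computable ρ) {D : ℕ → X →. Bool}
    (hD : ∀ r < q, Partrec (D r)) :
    ∃ E : X →. Bool, Partrec E ∧ ∀ x, ρ x < q → E x = D (ρ x) x := by
  induction q with
  | zero => exact ⟨fun _ => Part.none, Partrec.none, fun x hx => absurd hx (by omega)⟩
  | succ q ih =>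
    obtain ⟨E, hE, hE2⟩ := ih fun r hr => hD r (by omega)
    have h1 : Computable (fun x : X => decide (ρ x = q)) := by
      have h2 : PrimrecPred (fun n : ℕ => n = q) := Primrec.eq.comp Primrec.id (Primrec.const q)
      have h3 := h2.decide.to_comp.comp hρ
      exact h3.of_eq fun x => by simp
    refine ⟨fun x => cond (decide (ρ x = q)) (D q x) (E x),
      Partrec.cond h1 (hD q (by omega)) hE, fun x hx => ?_⟩
    by_cases h2 : ρ x = q
    · simp [h2]
    · simp only [h2, decide_false, cond_false]
      exact hE2 x (by omega)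

/-- The same with finitely many classes of inputs: the right candidate may depend on the class. -/
theorem core_classes {P T : X → Prop} {k q : ℕ} {ρ : X → ℕ} (hρ : Computable ρ)
    (hρq : ∀ x, P x → ρ x < q) {adm : X × ℕ → Bool} {F : ℕ × X × ℕ → Bool}
    (hF : Computable F) (hadm : Computable adm) (l : Filter ℕ) [l.NeBot]
    (hl : ∀ x, P x → ∀ᶠ N in l, adm (x, N) = true)
    (h : ∀ r < q, ∀ N, ∃ i < k, ∀ x, P x → ρ x = r → adm (x, N) = true →
      (F (i, x, N) = true ↔ T x)) :
    ∃ D : X →. Bool, Partrec D ∧ ∀ x, P x → ∃ b, D x = Part.some b ∧ (b = true ↔ T x) := by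
  have h1 : ∀ r, ∃ D : X →. Bool, r < q → Partrec D ∧
      ∀ x, P x → ρ x = r → ∃ b, D x = Part.some b ∧ (b = true ↔ T x) := by
    intro r
    by_cases hr : r < q
    · obtain ⟨D, hD, hD2⟩ := core (P := fun x => P x ∧ ρ x = r) (T := T) hF hadm l
        (fun x hx => hl x hx.1) (fun N => by
          obtain ⟨i, hi, hi2⟩ := h r hr N
          exact ⟨i, hi, fun x hx hx2 => hi2 x hx.1 hx.2 hx2⟩)
      exact ⟨D, fun _ => ⟨hD, fun x hx hx2 => hD2 x ⟨hx, hx2⟩⟩⟩
    · exact ⟨fun _ => Part.none, fun h => absurd h hr⟩
  choose D hD using h1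
  obtain ⟨E, hE, hE2⟩ := combine q hρ fun r hr => (hD r hr).1
  refine ⟨E, hE, fun x hx => ?_⟩
  rw [hE2 x (hρq x hx)]
  exact (hD (ρ x) (hρq x hx)).2 x hx rfl

/-- Without a promise the algorithm is total. -/
theorem total {T : X → Prop} {D : X →. Bool} (hD : Partrec D)
    (h : ∀ x, ∃ b, D x = Part.some b ∧ (b = true ↔ T x)) : ComputablePred T := by
  classical
  refine ⟨inferInstance, ?_⟩
  refine Partrec.of_eq hD fun x => ?_
  obtain ⟨b, hb, hb2⟩ := h x
  rw [hb]
  have : b = decide (T x) := by
    rw [Bool.eq_iff_iff, decide_eq_true_eq]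
    exact hb2
  rw [this]
  rfl

end Pool.Agent.Q287.BA
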