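import Mathlib
import Pool.Agent.Q324.SC.Artin
import Pool.Agent.Q287.BA.Core

/-!
# Bounded advice and few errors: the word problem for Artin groups
-/

set_option autoImplicit false

namespace Pool.Agent.Q287.BA.Art

open Filter Pool.Agent.Q324.SC Pool.Agent.Q324.SC.Art
open Pool.Agent.Q324.SC.Mat (tri two_tri tri_mono tri_succ)

lemma vote_at {A : Inp → Bool} {p : Inp} (hp : Valid p) {N F K H M : ℕ} (hN : p.1 ≤ N)
    (hF : F = tri N - tri p.1) (hF1 : 1 ≤ F) (hs : p.2.1.sum ≤ H) (hMH : M = (H - p.2.1.sum) / 2)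
    (hM : mm p.2.1 F K ≤ M)
    (h : {l | l ∈ Labels N H ∧ Errs A (N, l, p.2.2)}.encard ≤ ((K * (H + 1) ^ (F - 1) : ℕ) : ℕ∞)) :
    ((M + 1) ^ F
      < 2 * cnt (fun k => A (N, nl p.2.1 p.1 N M k, p.2.2)) ((M + 1) ^ F)) ↔ WP p := by
  classical
  obtain ⟨W, hW⟩ : ∃ W, W = (Finset.range ((M + 1) ^ F)).filter
    (fun k => A (N, nl p.2.1 p.1 N M k, p.2.2) ≠ decide (WP p)) := ⟨_, rfl⟩
  have g1 : (W.card : ℕ∞) ≤ ((K * (H + 1) ^ (F - 1) : ℕ) : ℕ∞) := by
    refine le_trans ?_ h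
    rw [← Set.encard_coe_eq_coe_finsetCard]
    have h3 : Set.InjOn (fun k => nl p.2.1 p.1 N M k) (W : Set ℕ) := by
      intro k hk k' hk' hkk
      rw [hW, Finset.mem_coe, Finset.mem_filter, Finset.mem_range] at hk hk'
      rw [hF] at hk hk'
      exact nl_inj hN hk.1 hk'.1 hkk
    rw [← h3.encard_image]
    refine Set.encard_le_encard ?_
    rintro _ ⟨k, hk, rfl⟩
    rw [hW, Finset.mem_coe, Finset.mem_filter, Finset.mem_range] at hk
    obtain ⟨m1, m2⟩ := nl_mem p.2.1 p.1 N M k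
    refine ⟨⟨m1, fun x hx => (m2 x hx).trans ?_⟩, ?_⟩
    · omega
    · intro h4
      rw [nl_wp hp hN] at h4
      apply hk.2
      rw [Bool.eq_iff_iff, decide_eq_true_eq]
      exact h4
  have g2 : W.card ≤ K * (H + 1) ^ (F - 1) := by exact_mod_cast g1
  have g3 : H + 1 ≤ 2 * (p.2.1.sum + 1) * (M + 1) := by
    have e : 2 * (p.2.1.sum + 1) * (M + 1)
        = p.2.1.sum + 2 * M + 2 + (2 * (p.2.1.sum * M) + p.2.1.sum) := by ring
    rw [e]
    omega
  have g4 : W.card ≤ K * (2 * (p.2.1.sum + 1)) ^ (F - 1) * (M + 1) ^ (F - 1) := by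
    refine g2.trans ?_
    rw [mul_assoc, ← mul_pow]
    exact Nat.mul_le_mul_left _ (Nat.pow_le_pow_left g3 _)
  have g5 : 2 * (K * (2 * (p.2.1.sum + 1)) ^ (F - 1) * (M + 1) ^ (F - 1)) < (M + 1) ^ F := by
    have e1 : (M + 1) ^ F = (M + 1) * (M + 1) ^ (F - 1) := by
      rw [← pow_succ']
      congr 1
      omega
    rw [e1, ← mul_assoc]
    refine Nat.mul_lt_mul_of_pos_right ?_ (by positivity)
    have e2 : 2 * (K * (2 * (p.2.1.sum + 1)) ^ (F - 1)) ≤ M := by
      refine le_trans ?_ hM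
      unfold mm
      rw [← mul_assoc]
      exact Nat.mul_le_mul_left _ (Nat.pow_le_pow_right (by omega) (by omega))
    omega
  rw [hW] at g4
  exact (majority g4 g5).trans (by simp)

/-- the filter of the pairs `(R, H)` with `R` large and `H` large in terms of `R` -/
def fil : Filter ℕ := (atTop : Filter ℕ).bind fun R => map (fun H => Nat.pair R H) atTop

instance : fil.NeBot := by
  refine ⟨fun h => ?_⟩
  have h1 : ∀ᶠ _y in fil, False := by
    rw [h]
    exact eventually_bot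
  unfold fil at h1
  rw [eventually_bind] at h1
  obtain ⟨x, hx⟩ := h1.exists
  obtain ⟨y, hy⟩ := (eventually_map.1 hx).exists
  exact hy

attribute [local irreducible] nl mm cnt

/-- the number of the new labels -/
def FF (p : Inp) (N : ℕ) : ℕ := tri N.unpair.1 - tri p.1

/-- the range of the new labels -/
def MM (p : Inp) (N : ℕ) : ℕ := (N.unpair.2 - p.2.1.sum) / 2

/-- when the vote is right -/
def okk (r : ℕ) (K : ℕ × List (ℕ × Bool) → ℕ) (p : Inp) (N : ℕ) : Prop :=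
  p.1 ≤ N.unpair.1 ∧ (r + 1) * (tri p.1 + 1) ≤ tri N.unpair.1 ∧ p.2.1.sum ≤ N.unpair.2 ∧
    mm p.2.1 (FF p N) (K (N.unpair.1, p.2.2)) ≤ MM p N

lemma num (E K X a b q : ℕ) (hq : 1 ≤ q) (hX : 1 ≤ X) (hab : a ≤ q * b) (h : E ^ q ≤ K * X ^ a) :
    E ≤ K * X ^ b := by
  by_contra hc
  push Not at hc
  have h1 : (K * X ^ b) ^ q < E ^ q := Nat.pow_lt_pow_left hc (by omega)
  have h2 : K ≤ K ^ q := by
    rcases Nat.eq_zero_or_pos K with h0 | h0
    · rw [h0]; exact Nat.zero_le _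
    · exact Nat.le_self_pow (by omega) K
  have h3 : X ^ a ≤ (X ^ b) ^ q := by
    rw [← pow_mul, Nat.mul_comm]
    exact Nat.pow_le_pow_right hX hab
  have h4 : K * X ^ a ≤ (K * X ^ b) ^ q := by
    rw [mul_pow]
    exact Nat.mul_le_mul h2 h3
  omega

lemma vote_ok {A : Inp → Bool} (r : ℕ) {K : ℕ × List (ℕ × Bool) → ℕ} {p : Inp} (hp : Valid p)
    {N : ℕ} (hok : okk r K p N)
    (h : {l | l ∈ Labels N.unpair.1 N.unpair.2 ∧ Errs A (N.unpair.1, l, p.2.2)}.encard ^ (r + 1)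
      ≤ ((K (N.unpair.1, p.2.2) * (N.unpair.2 + 1) ^ (r * tri N.unpair.1) : ℕ) : ℕ∞)) :
    ((MM p N + 1) ^ FF p N < 2 * cnt (fun k => A (N.unpair.1,
      nl p.2.1 p.1 N.unpair.1 (MM p N) k, p.2.2)) ((MM p N + 1) ^ FF p N)) ↔ WP p := by
  obtain ⟨h1, h2, h3, h4⟩ := hok
  have e5 : tri p.1 + 1 ≤ tri N.unpair.1 := by
    refine le_trans ?_ h2
    exact Nat.le_mul_of_pos_left _ (by positivity)
  refine vote_at hp h1 rfl ?_ h3 rfl h4 ?_
  · unfold FF
    omega
  obtain ⟨E, hE⟩ : ∃ E, E = {l | l ∈ Labels N.unpair.1 N.unpair.2 ∧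
    Errs A (N.unpair.1, l, p.2.2)}.encard := ⟨_, rfl⟩
  rw [← hE] at h ⊢
  have hEt : E ≠ ⊤ := by
    intro ht
    rw [ht, ENat.top_pow (by omega)] at h
    exact absurd h (not_le.2 (ENat.natCast_lt_top _))
  lift E to ℕ using hEt
  norm_cast at h ⊢
  refine num E _ _ _ _ (r + 1) (by omega) (by omega) ?_ h
  unfold FF
  have e6 : (r + 1) * (tri N.unpair.1 - tri p.1 - 1)
      = (r + 1) * tri N.unpair.1 - (r + 1) * (tri p.1 + 1) := by
    rw [Nat.sub_sub, Nat.mul_sub]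
  rw [e6]
  have e7 : (r + 1) * tri N.unpair.1 = r * tri N.unpair.1 + tri N.unpair.1 := by ring
  omega

lemma ev_ok (r : ℕ) (K : ℕ × List (ℕ × Bool) → ℕ) (p : Inp) : ∀ᶠ N in fil, okk r K p N := by
  unfold fil
  rw [eventually_bind]
  have t1 : ∀ R, R ≤ tri (R + 1) := by
    intro R
    have := two_tri (R + 1)
    rcases Nat.eq_zero_or_pos R with h | h
    · omega
    · have h2 : (R + 1) * (R + 1) = R * R + 2 * R + 1 := by ring
      nlinarith
  filter_upwards [eventually_ge_atTop (p.1 + (r + 1) * (tri p.1 + 1) + 1)] with R hR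
  rw [eventually_map]
  filter_upwards [eventually_ge_atTop (p.2.1.sum +
    2 * mm p.2.1 (tri R - tri p.1) (K (R, p.2.2)))] with H hH
  unfold okk FF MM
  simp only [Nat.unpair_pair]
  refine ⟨by omega, ?_, by omega, by omega⟩
  have h1 := t1 (R - 1)
  have h2 : R - 1 + 1 = R := by omega
  rw [h2] at h1
  omega

set_option maxHeartbeats 1000000 in
/-- **Bounded advice and few errors for the word problem of Artin groups.** -/
theorem advice (k r : ℕ) {A : ℕ × Inp → Bool} {K : ℕ × List (ℕ × Bool) → ℕ}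
    (hA : Computable A) (hK : Computable K)
    (h : ∀ R H : ℕ, ∃ i < k, ∀ w : List (ℕ × Bool),
      {l | l ∈ Labels R H ∧ Errs (fun p => A (i, p)) (R, l, w)}.encard ^ (r + 1)
        ≤ ((K (R, w) * (H + 1) ^ (r * tri R) : ℕ) : ℕ∞)) : ComputablePred WP := by
  classical
  have pu1 : Primrec (fun N : ℕ => N.unpair.1) := Primrec.fst.comp Primrec.unpair
  have pu2 : Primrec (fun N : ℕ => N.unpair.2) := Primrec.snd.comp Primrec.unpair
  have ptri : Primrec (fun n : ℕ => tri n) := by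
    unfold tri
    fun_prop
  -- the data of `(p, N)`
  have pR : Primrec (fun x : Inp × ℕ => x.2.unpair.1) := pu1.comp Primrec.snd
  have pH : Primrec (fun x : Inp × ℕ => x.2.unpair.2) := pu2.comp Primrec.snd
  have pF : Primrec (fun x : Inp × ℕ => FF x.1 x.2) := by
    unfold FF
    exact psub (ptri.comp pR) (ptri.comp (by fun_prop : Primrec (fun x : Inp × ℕ => x.1.1)))
  have ps : Primrec (fun x : Inp × ℕ => x.1.2.1.sum) := by fun_prop
  have pM : Primrec (fun x : Inp × ℕ => MM x.1 x.2) := by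
    unfold MM
    exact pdiv (psub pH ps) (by fun_prop)
  have cK : Computable (fun x : Inp × ℕ => K (x.2.unpair.1, x.1.2.2)) :=
    hK.comp (pR.to_comp.pair (by fun_prop : Primrec (fun x : Inp × ℕ => x.1.2.2)).to_comp)
  have cmm : Computable (fun x : Inp × ℕ => mm x.1.2.1 (FF x.1 x.2) (K (x.2.unpair.1, x.1.2.2))) :=
    Computable.comp (f := fun y : List ℕ × ℕ × ℕ => mm y.1 y.2.1 y.2.2)
      (g := fun x : Inp × ℕ => (x.1.2.1, FF x.1 x.2, K (x.2.unpair.1, x.1.2.2)))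
      mm_primrec.to_comp
      ((by fun_prop : Primrec (fun x : Inp × ℕ => x.1.2.1)).to_comp.pair (pF.to_comp.pair cK))
  have cok : Computable (fun x : Inp × ℕ => decide (okk r K x.1 x.2)) := by
    have q1 : Computable (fun x : Inp × ℕ => decide (x.1.1 ≤ x.2.unpair.1)) :=
      (pble (by fun_prop) pR).to_comp
    have q2 : Computable (fun x : Inp × ℕ =>
        decide ((r + 1) * (tri x.1.1 + 1) ≤ tri x.2.unpair.1)) := by
      refine (pble ?_ (ptri.comp pR)).to_comp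
      have : Primrec (fun x : Inp × ℕ => tri x.1.1) :=
        ptri.comp (by fun_prop : Primrec (fun x : Inp × ℕ => x.1.1))
      exact pmul (by fun_prop) (padd this (by fun_prop))
    have q3 : Computable (fun x : Inp × ℕ => decide (x.1.2.1.sum ≤ x.2.unpair.2)) :=
      (pble ps pH).to_comp
    have q4 : Computable (fun x : Inp × ℕ => decide (
        mm x.1.2.1 (FF x.1 x.2) (K (x.2.unpair.1, x.1.2.2)) ≤ MM x.1 x.2)) := by
      have : Primrec (fun y : ℕ × ℕ => decide (y.1 ≤ y.2)) := by fun_prop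
      exact this.to_comp.comp (cmm.pair pM.to_comp)
    refine (Primrec.and.to_comp.comp q1 (Primrec.and.to_comp.comp q2
      (Primrec.and.to_comp.comp q3 q4))).of_eq fun x => ?_
    unfold okk
    rw [Bool.eq_iff_iff]
    simp only [Bool.and_eq_true, decide_eq_true_eq]
  have cV : Computable (fun p : Inp => decide (Valid p)) := by
    have := valid_primrec.decide.to_comp
    exact this.of_eq fun p => by simp
  have c5 : Computable (fun x : Inp × ℕ => (MM x.1 x.2 + 1) ^ FF x.1 x.2) := by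
    have h1 : Primrec (fun p : ℕ × ℕ => (p.1 + 1) ^ p.2) := by fun_prop
    exact h1.to_comp.comp (pM.to_comp.pair pF.to_comp)
  have c5' : Computable (fun x : ℕ × Inp × ℕ => (MM x.2.1 x.2.2 + 1) ^ FF x.2.1 x.2.2) :=
    Computable.comp (f := fun x : Inp × ℕ => (MM x.1 x.2 + 1) ^ FF x.1 x.2)
      (g := fun x : ℕ × Inp × ℕ => x.2) c5 Computable.snd
  have c6 : Computable (fun z : (ℕ × Inp × ℕ) × ℕ => A (z.1.1, z.1.2.2.unpair.1,
      nl z.1.2.1.2.1 z.1.2.1.1 z.1.2.2.unpair.1 (MM z.1.2.1 z.1.2.2) z.2, z.1.2.1.2.2)) := by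
    have d1 : Computable (fun z : (ℕ × Inp × ℕ) × ℕ => z.1.1) :=
      Computable.fst.comp Computable.fst
    have d2 : Computable (fun z : (ℕ × Inp × ℕ) × ℕ => z.1.2) :=
      Computable.snd.comp Computable.fst
    have d3 : Computable (fun z : (ℕ × Inp × ℕ) × ℕ => z.1.2.2.unpair.1) :=
      Computable.comp (f := fun x : Inp × ℕ => x.2.unpair.1) (g := fun z : (ℕ × Inp × ℕ) × ℕ => z.1.2)
        pR.to_comp d2
    have d4 : Computable (fun z : (ℕ × Inp × ℕ) × ℕ => MM z.1.2.1 z.1.2.2) :=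
      Computable.comp (f := fun x : Inp × ℕ => MM x.1 x.2) (g := fun z : (ℕ × Inp × ℕ) × ℕ => z.1.2)
        pM.to_comp d2
    have d5 : Computable (fun z : (ℕ × Inp × ℕ) × ℕ => z.1.2.1.2.1) :=
      (by fun_prop : Primrec (fun z : (ℕ × Inp × ℕ) × ℕ => z.1.2.1.2.1)).to_comp
    have d6 : Computable (fun z : (ℕ × Inp × ℕ) × ℕ => z.1.2.1.1) :=
      (by fun_prop : Primrec (fun z : (ℕ × Inp × ℕ) × ℕ => z.1.2.1.1)).to_comp
    have d7 : Computable (fun z : (ℕ × Inp × ℕ) × ℕ => z.1.2.1.2.2) :=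
      (by fun_prop : Primrec (fun z : (ℕ × Inp × ℕ) × ℕ => z.1.2.1.2.2)).to_comp
    exact hA.comp (d1.pair (d3.pair ((nl_comp d5 d6 d3 d4 Computable.snd).pair d7)))
  have c7 : Computable (fun x : ℕ × Inp × ℕ => cnt (fun t => A (x.1, x.2.2.unpair.1,
      nl x.2.1.2.1 x.2.1.1 x.2.2.unpair.1 (MM x.2.1 x.2.2) t, x.2.1.2.2))
      ((MM x.2.1 x.2.2 + 1) ^ FF x.2.1 x.2.2)) :=
    cnt_comp (f := fun (x : ℕ × Inp × ℕ) t => A (x.1, x.2.2.unpair.1,
      nl x.2.1.2.1 x.2.1.1 x.2.2.unpair.1 (MM x.2.1 x.2.2) t, x.2.1.2.2)) c6 c5'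
  have hF : Computable (fun x : ℕ × Inp × ℕ => decide (Valid x.2.1) && decide (
      (MM x.2.1 x.2.2 + 1) ^ FF x.2.1 x.2.2 < 2 * cnt (fun t => A (x.1, x.2.2.unpair.1,
      nl x.2.1.2.1 x.2.1.1 x.2.2.unpair.1 (MM x.2.1 x.2.2) t, x.2.1.2.2))
      ((MM x.2.1 x.2.2 + 1) ^ FF x.2.1 x.2.2))) := by
    have h1 : Computable (fun x : ℕ × Inp × ℕ => decide (Valid x.2.1)) :=
      Computable.comp (f := fun p : Inp => decide (Valid p)) (g := fun x : ℕ × Inp × ℕ => x.2.1)
        cV (Computable.fst.comp Computable.snd)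
    have h2 : Primrec (fun x : ℕ × ℕ => decide (x.1 + 1 ≤ 2 * x.2)) := by fun_prop
    have h3 := h2.to_comp.comp (c5'.pair c7)
    exact Primrec.and.to_comp.comp h1 (h3.of_eq fun p => rfl)
  have hadm : Computable (fun x : Inp × ℕ => (!(decide (Valid x.1))) || decide (okk r K x.1 x.2)) :=
    Primrec.or.to_comp.comp (Primrec.not.to_comp.comp (cV.comp Computable.fst)) cok
  obtain ⟨D, hD, hD2⟩ := core (X := Inp) (P := fun _ => True) (T := WP) (k := k)
    (adm := fun x : Inp × ℕ => (!(decide (Valid x.1))) || decide (okk r K x.1 x.2)) hF hadm fil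
    (fun p _ => by
      filter_upwards [ev_ok r K p] with N hN
      simp [hN])
    (by
      intro N
      obtain ⟨i, hi, hi2⟩ := h N.unpair.1 N.unpair.2
      refine ⟨i, hi, fun p _ hp => ?_⟩
      change ((!(decide (Valid p))) || decide (okk r K p N)) = true at hp
      show (decide (Valid p) && decide ((MM p N + 1) ^ FF p N < 2 * cnt (fun t => A (i,
        N.unpair.1, nl p.2.1 p.1 N.unpair.1 (MM p N) t, p.2.2)) ((MM p N + 1) ^ FF p N))) = true ↔ WP p
      by_cases hv : Valid p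
      · have hok : okk r K p N := by simpa [hv] using hp
        have := vote_ok (A := fun p => A (i, p)) r hv hok (hi2 p.2.2)
        rw [Bool.and_eq_true, decide_eq_true_eq, decide_eq_true_eq]
        exact ⟨fun h => this.1 h.2, fun h => ⟨hv, this.2 h⟩⟩
      · rw [Bool.and_eq_true, decide_eq_true_eq]
        exact ⟨fun h => absurd h.1 hv, fun h => absurd h.1 hv⟩)
  exact total hD fun p => hD2 p trivial

end Pool.Agent.Q287.BA.Art
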