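import Mathlib
import Pool.Agent.Q324.SC.TriVote
import Pool.Agent.Q324.SC.TriPL
import Pool.Agent.Q287.BA.Core

/-!
# Bounded advice and few errors: votes over the iterated subdivisions of complexes
-/

set_option autoImplicit false

namespace Pool.Agent.Q287.BA.Tri

open Nat Filter Pool.Agent.Q324.SC Pool.Agent.Q324.SC.Tri

lemma bound_lt' (f C m : ℕ) (hf : 1 ≤ f) (hm : mm f C ≤ m) : 2 * bound C (f + 4 * m) < P f m := by
  induction m, hm using Nat.le_induction with
  | base => exact bound_lt f C hf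
  | succ m hm ih =>
    have hbig : 3 ≤ m := by
      refine le_trans ?_ hm
      unfold mm
      have : 1 ≤ 2 ^ (f / 4 + C + 7) := Nat.one_le_two_pow
      omega
    rw [P_succ]
    have e : bound C (f + 4 * (m + 1)) = bound C (f + 4 * m) * (3 * ((f + 4 * m) / 4 + 1)) := by
      unfold bound
      have e1 : (f + 4 * (m + 1)) / 4 = (f + 4 * m) / 4 + 1 := by omega
      rw [e1, pow_succ, Nat.factorial_succ]
      ring
    rw [e]
    have h3 : 3 * ((f + 4 * m) / 4 + 1) ≤ f + 4 * m := by omega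
    calc 2 * (bound C (f + 4 * m) * (3 * ((f + 4 * m) / 4 + 1)))
        = (2 * bound C (f + 4 * m)) * (3 * ((f + 4 * m) / 4 + 1)) := by ring
      _ ≤ (2 * bound C (f + 4 * m)) * (f + 4 * m) := Nat.mul_le_mul_left _ h3
      _ < P f m * (f + 4 * m) := Nat.mul_lt_mul_of_pos_right ih (by omega)

lemma vote_at {A : Cx → Bool} {Pr Q : Cx → Prop}
    (hPr : ∀ K c, Valid K → c < K.length → Pr K → Pr (sub K c))
    (hQ : ∀ K c, Valid K → c < K.length → (Q (sub K c) ↔ Q K)) {K : Cx} (hK : Valid K)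
    (hP : Pr K) {C m : ℕ} (hm : mm K.length C ≤ m)
    (h : (Bad A Pr Q (K.length + 4 * m)).encard ≤ ((bound C (K.length + 4 * m) : ℕ) : ℕ∞)) :
    (P K.length m < 2 * cnt (fun k => A (desc K m k).1) (P K.length m)) ↔ Q K := by
  classical
  have hQ2 : ∀ k, Q (desc K m k).1 ↔ Q K := by
    intro k
    by_cases h1 : Q K
    · exact iff_of_true (desc_inv (fun K c hK hc hq => (hQ K c hK hc).2 hq) hK h1 m k) h1
    · refine iff_of_false ?_ h1
      exact desc_inv (Pr := fun K => ¬ Q K) (fun K c hK hc hq h2 => hq ((hQ K c hK hc).1 h2)) hK h1 m k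
  obtain ⟨W, hW⟩ : ∃ W, W = (Finset.range (P K.length m)).filter
    (fun k => A (desc K m k).1 ≠ decide (Q K)) := ⟨_, rfl⟩
  have g1 : (W.card : ℕ∞) ≤ ((bound C (K.length + 4 * m) : ℕ) : ℕ∞) := by
    refine le_trans ?_ h
    rw [← Set.encard_coe_eq_coe_finsetCard]
    have h3 : Set.InjOn (fun k => (desc K m k).1.toFinset) (W : Set ℕ) := by
      intro k hk k' hk' hkk
      rw [hW, Finset.mem_coe, Finset.mem_filter, Finset.mem_range] at hk hk'
      have := (desc_inj hK m k k' hkk).1
      rwa [Nat.mod_eq_of_lt hk.1, Nat.mod_eq_of_lt hk'.1] at this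
    rw [← h3.encard_image]
    refine Set.encard_le_encard ?_
    rintro _ ⟨k, hk, rfl⟩
    rw [hW, Finset.mem_coe, Finset.mem_filter, Finset.mem_range] at hk
    obtain ⟨h4, h5, _⟩ := desc_basic hK m k
    refine ⟨_, h4, h5, desc_inv hPr hK hP m k, rfl, ?_⟩
    intro h6
    rw [hQ2] at h6
    apply hk.2
    rw [Bool.eq_iff_iff, decide_eq_true_eq]
    exact h6
  have g2 : W.card ≤ bound C (K.length + 4 * m) := by exact_mod_cast g1
  have g3 : 2 * bound C (K.length + 4 * m) < P K.length m :=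
    bound_lt' _ _ _ (List.length_pos_iff.2 hK.ne) hm
  rw [hW] at g2
  exact (majority g2 g3).trans (by simp)

/-- The code `j` gives a code for each of the two complexes. -/
def pk (K L : Cx) (m m' j : ℕ) : Cx × Cx :=
  ((desc K m (j % P K.length m)).1, (desc L m' (j / P K.length m)).1)

lemma vote2_at {A : Cx × Cx → Bool} {Pr Q : Cx → Cx → Prop}
    (hPr1 : ∀ L K c, Valid K → c < K.length → Pr K L → Pr (sub K c) L)
    (hPr2 : ∀ K L c, Valid L → c < L.length → Pr K L → Pr K (sub L c))
    (hQ1 : ∀ L K c, Valid K → c < K.length → (Q (sub K c) L ↔ Q K L))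
    (hQ2 : ∀ K L c, Valid L → c < L.length → (Q K (sub L c) ↔ Q K L))
    {K L : Cx} (hK : Valid K) (hL : Valid L) (hP : Pr K L) {C m m' : ℕ}
    (hm : mm K.length C ≤ m) (hm' : mm L.length C ≤ m')
    (h : (Bad2 A Pr Q (K.length + 4 * m) (L.length + 4 * m')).encard ≤
      ((bound C (K.length + 4 * m) * bound C (L.length + 4 * m') : ℕ) : ℕ∞)) :
    (P K.length m * P L.length m'
      < 2 * cnt (fun j => A (pk K L m m' j)) (P K.length m * P L.length m')) ↔ Q K L := by
  classical
  have inv : ∀ {Pr' : Cx → Cx → Prop},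
      (∀ L K c, Valid K → c < K.length → Pr' K L → Pr' (sub K c) L) →
      (∀ K L c, Valid L → c < L.length → Pr' K L → Pr' K (sub L c)) →
      Pr' K L → ∀ k k', Pr' (desc K m k).1 (desc L m' k').1 := by
    intro Pr' a1 a2 a3 k k'
    have b1 : Pr' (desc K m k).1 L := desc_inv (Pr := fun K => Pr' K L) (a1 L) hK a3 m k
    exact desc_inv (Pr := fun L => Pr' (desc K m k).1 L) (fun L c => a2 _ L c) hL b1 m' k'
  have hQ : ∀ k k', Q (desc K m k).1 (desc L m' k').1 ↔ Q K L := by
    intro k k'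
    by_cases h1 : Q K L
    · exact iff_of_true (inv (Pr' := Q) (fun L K c a b => (hQ1 L K c a b).2)
        (fun K L c a b => (hQ2 K L c a b).2) h1 k k') h1
    · refine iff_of_false ?_ h1
      exact inv (Pr' := fun K L => ¬ Q K L) (fun L K c a b d e => d ((hQ1 L K c a b).1 e))
        (fun K L c a b d e => d ((hQ2 K L c a b).1 e)) h1 k k'
  obtain ⟨W, hW⟩ : ∃ W, W = (Finset.range (P K.length m * P L.length m')).filter
    (fun j => A (pk K L m m' j) ≠ decide (Q K L)) := ⟨_, rfl⟩
  have g1 : (W.card : ℕ∞) ≤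
      ((bound C (K.length + 4 * m) * bound C (L.length + 4 * m') : ℕ) : ℕ∞) := by
    refine le_trans ?_ h
    rw [← Set.encard_coe_eq_coe_finsetCard]
    have h3 : Set.InjOn (fun j => ((pk K L m m' j).1.toFinset, (pk K L m m' j).2.toFinset))
        (W : Set ℕ) := by
      intro j hj j' hj' hjj
      rw [hW, Finset.mem_coe, Finset.mem_filter, Finset.mem_range] at hj hj'
      have e1 : (pk K L m m' j).1.toFinset = (pk K L m m' j').1.toFinset := congrArg Prod.fst hjj
      have e2 : (pk K L m m' j).2.toFinset = (pk K L m m' j').2.toFinset := congrArg Prod.snd hjj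
      unfold pk at e1 e2
      have f1 := (desc_inj hK m _ _ e1).1
      have f2 := (desc_inj hL m' _ _ e2).1
      rw [Nat.mod_mod, Nat.mod_mod] at f1
      rw [Nat.mod_eq_of_lt (Nat.div_lt_of_lt_mul hj.1),
        Nat.mod_eq_of_lt (Nat.div_lt_of_lt_mul hj'.1)] at f2
      rw [← Nat.div_add_mod j (P K.length m), ← Nat.div_add_mod j' (P K.length m), f1, f2]
    rw [← h3.encard_image]
    refine Set.encard_le_encard ?_
    rintro _ ⟨j, hj, rfl⟩
    rw [hW, Finset.mem_coe, Finset.mem_filter, Finset.mem_range] at hj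
    have q1 := desc_basic hK m (j % P K.length m)
    have q2 := desc_basic hL m' (j / P K.length m)
    refine ⟨(desc K m (j % P K.length m)).1, (desc L m' (j / P K.length m)).1, q1.1, q2.1,
      q1.2.1, q2.2.1, inv hPr1 hPr2 hP _ _, rfl, rfl, ?_⟩
    intro h6
    rw [hQ] at h6
    apply hj.2
    rw [Bool.eq_iff_iff, decide_eq_true_eq]
    exact h6
  have g2 : W.card ≤ bound C (K.length + 4 * m) * bound C (L.length + 4 * m') := by
    exact_mod_cast g1
  have g3 : 2 * (bound C (K.length + 4 * m) * bound C (L.length + 4 * m'))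
      < P K.length m * P L.length m' := by
    have a1 := bound_lt' K.length C m (List.length_pos_iff.2 hK.ne) hm
    have a2 := bound_lt' L.length C m' (List.length_pos_iff.2 hL.ne) hm'
    have a3 : 0 < P L.length m' := desc_pos hL m'
    calc 2 * (bound C (K.length + 4 * m) * bound C (L.length + 4 * m'))
        = (2 * bound C (K.length + 4 * m)) * bound C (L.length + 4 * m') := by ring
      _ ≤ (2 * bound C (K.length + 4 * m)) * P L.length m' :=
          Nat.mul_le_mul_left _ (by omega)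
      _ < P K.length m * P L.length m' := Nat.mul_lt_mul_of_pos_right a1 a3
  rw [hW] at g2
  exact (majority g2 g3).trans (by simp)

theorem pk_primrec : Primrec (fun x : Cx × Cx × ℕ × ℕ × ℕ =>
    pk x.1 x.2.1 x.2.2.1 x.2.2.2.1 x.2.2.2.2) := by
  unfold pk
  have h3 : Primrec (fun x : Cx × Cx × ℕ × ℕ × ℕ => P x.1.length x.2.2.1) :=
    P_primrec.comp (g := fun x : Cx × Cx × ℕ × ℕ × ℕ => (x.1.length, x.2.2.1)) (by fun_prop)
  refine ppair ?_ ?_
  · exact desc_primrec.comp (g := fun x : Cx × Cx × ℕ × ℕ × ℕ =>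
      (x.1, x.2.2.1, x.2.2.2.2 % P x.1.length x.2.2.1))
      (ppair (by fun_prop) (ppair (by fun_prop) (pmod (by fun_prop) h3)))
  · exact desc_primrec.comp (g := fun x : Cx × Cx × ℕ × ℕ × ℕ =>
      (x.2.1, x.2.2.2.1, x.2.2.2.2 / P x.1.length x.2.2.1))
      (ppair (by fun_prop) (ppair (by fun_prop) (pdiv (by fun_prop) h3)))

attribute [local irreducible] desc P mm cnt pk

set_option maxHeartbeats 1000000 in
/-- **Bounded advice and few errors.** -/
theorem advice (k C : ℕ) {A : ℕ × Cx → Bool} (hA : Computable A) {Pr Q : Cx → Prop}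
    (hPr : ∀ K c, Valid K → c < K.length → Pr K → Pr (sub K c))
    (hQ : ∀ K c, Valid K → c < K.length → (Q (sub K c) ↔ Q K))
    (h : ∀ N, ∃ i < k, (Bad (fun K => A (i, K)) Pr Q N).encard ≤ ((bound C N : ℕ) : ℕ∞)) :
    ∃ D : Cx →. Bool, Partrec D ∧
      ∀ K, Valid K → Pr K → ∃ b, D K = Part.some b ∧ (b = true ↔ Q K) := by
  have pl : Primrec (fun x : ℕ × Cx × ℕ => x.2.1.length) := by fun_prop
  have pm : Primrec (fun x : ℕ × Cx × ℕ => x.2.2 - x.2.1.length / 4) := by fun_prop
  have pP : Primrec (fun x : ℕ × Cx × ℕ => P x.2.1.length (x.2.2 - x.2.1.length / 4)) :=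
    P_primrec.comp (g := fun x : ℕ × Cx × ℕ => (x.2.1.length, x.2.2 - x.2.1.length / 4))
      (ppair pl pm)
  have c3 : Computable (fun z : (ℕ × Cx × ℕ) × ℕ =>
      A (z.1.1, (desc z.1.2.1 (z.1.2.2 - z.1.2.1.length / 4) z.2).1)) := by
    refine hA.comp (Computable.pair (Computable.fst.comp Computable.fst) ?_)
    have q : Primrec (fun z : (ℕ × Cx × ℕ) × ℕ =>
      (z.1.2.1, z.1.2.2 - z.1.2.1.length / 4, z.2)) := by fun_prop
    exact Computable.comp (f := fun x : Cx × ℕ × ℕ => (desc x.1 x.2.1 x.2.2).1)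
      (g := fun z : (ℕ × Cx × ℕ) × ℕ => (z.1.2.1, z.1.2.2 - z.1.2.1.length / 4, z.2))
      desc_primrec.to_comp q.to_comp
  have c4 : Computable (fun x : ℕ × Cx × ℕ => cnt (fun j =>
      A (x.1, (desc x.2.1 (x.2.2 - x.2.1.length / 4) j).1))
      (P x.2.1.length (x.2.2 - x.2.1.length / 4))) :=
    cnt_comp (f := fun (x : ℕ × Cx × ℕ) j =>
      A (x.1, (desc x.2.1 (x.2.2 - x.2.1.length / 4) j).1)) c3 pP.to_comp
  have h2 : Primrec (fun x : ℕ × ℕ => decide (x.1 + 1 ≤ 2 * x.2)) := by fun_prop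
  have hF : Computable (fun x : ℕ × Cx × ℕ => decide (P x.2.1.length (x.2.2 - x.2.1.length / 4) <
      2 * cnt (fun j => A (x.1, (desc x.2.1 (x.2.2 - x.2.1.length / 4) j).1))
      (P x.2.1.length (x.2.2 - x.2.1.length / 4)))) :=
    (h2.to_comp.comp (pP.to_comp.pair c4)).of_eq fun x => rfl
  have hadm : Computable (fun x : Cx × ℕ => decide (x.1.length / 4 + mm x.1.length C ≤ x.2)) := by
    have q1 : Primrec (fun x : Cx × ℕ => mm x.1.length C) :=
      mm_primrec.comp (g := fun x : Cx × ℕ => (x.1.length, C)) (by fun_prop)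
    have q2 : Primrec (fun x : Cx × ℕ => x.1.length / 4 + mm x.1.length C) :=
      padd (by fun_prop) q1
    exact (pble q2 (by fun_prop)).to_comp
  obtain ⟨D, hD, hD2⟩ := core_classes (X := Cx) (P := fun K => Valid K ∧ Pr K) (T := Q) (k := k)
    (q := 4) (ρ := fun K => K.length % 4)
    (by have : Primrec (fun K : Cx => K.length % 4) := by fun_prop
        exact this.to_comp)
    (fun K _ => Nat.mod_lt _ (by norm_num))
    (adm := fun x : Cx × ℕ => decide (x.1.length / 4 + mm x.1.length C ≤ x.2)) hF hadm atTop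
    (fun K _ => by
      filter_upwards [eventually_ge_atTop (K.length / 4 + mm K.length C)] with N hN
      exact decide_eq_true hN)
    (by
      intro r hr N
      obtain ⟨i, hi, hi2⟩ := h (4 * N + r)
      refine ⟨i, hi, ?_⟩
      rintro K ⟨hK, hP⟩ hKr hadmK
      have hle : K.length / 4 + mm K.length C ≤ N := of_decide_eq_true hadmK
      have e1 : K.length + 4 * (N - K.length / 4) = 4 * N + r := by
        have := Nat.div_add_mod K.length 4
        change K.length % 4 = r at hKr
        omega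
      show decide _ = true ↔ _
      rw [decide_eq_true_eq]
      exact vote_at (A := fun K => A (i, K)) hPr hQ hK hP (C := C) (m := N - K.length / 4)
        (by omega) (by rw [e1]; exact hi2))
  exact ⟨D, hD, fun K hK hP => hD2 K ⟨hK, hP⟩⟩

end Pool.Agent.Q287.BA.Tri
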