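import Mathlib
import Pool.Agent.Q287.BA.Tri

/-!
# Bounded advice and few errors: pairs of complexes
-/

set_option autoImplicit false

namespace Pool.Agent.Q287.BA.Tri

open Nat Filter Pool.Agent.Q324.SC Pool.Agent.Q324.SC.Tri

attribute [local irreducible] desc P mm cnt pk

set_option maxHeartbeats 1000000 in
/-- **Bounded advice and few errors, pairs.** -/
theorem advice2 (k C : ℕ) {A : ℕ × Cx × Cx → Bool} (hA : Computable A) {Pr Q : Cx → Cx → Prop}
    (hPr1 : ∀ L K c, Valid K → c < K.length → Pr K L → Pr (sub K c) L)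
    (hPr2 : ∀ K L c, Valid L → c < L.length → Pr K L → Pr K (sub L c))
    (hQ1 : ∀ L K c, Valid K → c < K.length → (Q (sub K c) L ↔ Q K L))
    (hQ2 : ∀ K L c, Valid L → c < L.length → (Q K (sub L c) ↔ Q K L))
    (h : ∀ N N', ∃ i < k, (Bad2 (fun p => A (i, p)) Pr Q N N').encard ≤
      ((bound C N * bound C N' : ℕ) : ℕ∞)) :
    ∃ D : Cx × Cx →. Bool, Partrec D ∧
      ∀ K L, Valid K → Valid L → Pr K L → ∃ b, D (K, L) = Part.some b ∧ (b = true ↔ Q K L) := by
  have pm : Primrec (fun x : ℕ × (Cx × Cx) × ℕ => x.2.2 - x.2.1.1.length / 4) := by fun_prop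
  have pm' : Primrec (fun x : ℕ × (Cx × Cx) × ℕ => x.2.2 - x.2.1.2.length / 4) := by fun_prop
  have pP : Primrec (fun x : ℕ × (Cx × Cx) × ℕ =>
      P x.2.1.1.length (x.2.2 - x.2.1.1.length / 4)) :=
    P_primrec.comp (g := fun x : ℕ × (Cx × Cx) × ℕ =>
      (x.2.1.1.length, x.2.2 - x.2.1.1.length / 4)) (ppair (by fun_prop) pm)
  have pP' : Primrec (fun x : ℕ × (Cx × Cx) × ℕ =>
      P x.2.1.2.length (x.2.2 - x.2.1.2.length / 4)) :=
    P_primrec.comp (g := fun x : ℕ × (Cx × Cx) × ℕ =>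
      (x.2.1.2.length, x.2.2 - x.2.1.2.length / 4)) (ppair (by fun_prop) pm')
  have pPP := pmul pP pP'
  have c3 : Computable (fun z : (ℕ × (Cx × Cx) × ℕ) × ℕ =>
      A (z.1.1, pk z.1.2.1.1 z.1.2.1.2 (z.1.2.2 - z.1.2.1.1.length / 4)
        (z.1.2.2 - z.1.2.1.2.length / 4) z.2)) := by
    refine hA.comp (Computable.pair (Computable.fst.comp Computable.fst) ?_)
    have q : Primrec (fun z : (ℕ × (Cx × Cx) × ℕ) × ℕ =>
      (z.1.2.1.1, z.1.2.1.2, z.1.2.2 - z.1.2.1.1.length / 4,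
        z.1.2.2 - z.1.2.1.2.length / 4, z.2)) := by fun_prop
    exact Computable.comp (f := fun x : Cx × Cx × ℕ × ℕ × ℕ =>
      pk x.1 x.2.1 x.2.2.1 x.2.2.2.1 x.2.2.2.2)
      (g := fun z : (ℕ × (Cx × Cx) × ℕ) × ℕ =>
      (z.1.2.1.1, z.1.2.1.2, z.1.2.2 - z.1.2.1.1.length / 4,
        z.1.2.2 - z.1.2.1.2.length / 4, z.2)) pk_primrec.to_comp q.to_comp
  have c4 : Computable (fun x : ℕ × (Cx × Cx) × ℕ => cnt (fun j =>
      A (x.1, pk x.2.1.1 x.2.1.2 (x.2.2 - x.2.1.1.length / 4)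
        (x.2.2 - x.2.1.2.length / 4) j))
      (P x.2.1.1.length (x.2.2 - x.2.1.1.length / 4) *
        P x.2.1.2.length (x.2.2 - x.2.1.2.length / 4))) :=
    cnt_comp (f := fun (x : ℕ × (Cx × Cx) × ℕ) j =>
      A (x.1, pk x.2.1.1 x.2.1.2 (x.2.2 - x.2.1.1.length / 4)
        (x.2.2 - x.2.1.2.length / 4) j)) c3 pPP.to_comp
  have h2 : Primrec (fun x : ℕ × ℕ => decide (x.1 + 1 ≤ 2 * x.2)) := by fun_prop
  have hF : Computable (fun x : ℕ × (Cx × Cx) × ℕ => decide (
      P x.2.1.1.length (x.2.2 - x.2.1.1.length / 4) *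
        P x.2.1.2.length (x.2.2 - x.2.1.2.length / 4) < 2 * cnt (fun j =>
      A (x.1, pk x.2.1.1 x.2.1.2 (x.2.2 - x.2.1.1.length / 4)
        (x.2.2 - x.2.1.2.length / 4) j))
      (P x.2.1.1.length (x.2.2 - x.2.1.1.length / 4) *
        P x.2.1.2.length (x.2.2 - x.2.1.2.length / 4)))) :=
    (h2.to_comp.comp (pPP.to_comp.pair c4)).of_eq fun x => rfl
  have q1 : Primrec (fun x : (Cx × Cx) × ℕ => mm x.1.1.length C) :=
    mm_primrec.comp (g := fun x : (Cx × Cx) × ℕ => (x.1.1.length, C)) (by fun_prop)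
  have q1' : Primrec (fun x : (Cx × Cx) × ℕ => mm x.1.2.length C) :=
    mm_primrec.comp (g := fun x : (Cx × Cx) × ℕ => (x.1.2.length, C)) (by fun_prop)
  have q2 : Primrec (fun x : (Cx × Cx) × ℕ => (x.1.1.length / 4 + mm x.1.1.length C) +
      (x.1.2.length / 4 + mm x.1.2.length C)) :=
    padd (padd (by fun_prop) q1) (padd (by fun_prop) q1')
  have hadm : Computable (fun x : (Cx × Cx) × ℕ => decide (
      (x.1.1.length / 4 + mm x.1.1.length C) + (x.1.2.length / 4 + mm x.1.2.length C) ≤ x.2)) :=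
    (pble q2 (by fun_prop)).to_comp
  obtain ⟨D, hD, hD2⟩ := core_classes (X := Cx × Cx)
    (P := fun p => Valid p.1 ∧ Valid p.2 ∧ Pr p.1 p.2) (T := fun p => Q p.1 p.2) (k := k)
    (q := 16) (ρ := fun p => 4 * (p.1.length % 4) + p.2.length % 4)
    (by have : Primrec (fun p : Cx × Cx => 4 * (p.1.length % 4) + p.2.length % 4) := by fun_prop
        exact this.to_comp)
    (fun p _ => by
      have := Nat.mod_lt p.1.length (show 0 < 4 by norm_num)
      have := Nat.mod_lt p.2.length (show 0 < 4 by norm_num)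
      show 4 * (p.1.length % 4) + p.2.length % 4 < 16
      omega)
    (adm := fun x : (Cx × Cx) × ℕ => decide (
      (x.1.1.length / 4 + mm x.1.1.length C) + (x.1.2.length / 4 + mm x.1.2.length C) ≤ x.2))
    hF hadm atTop
    (fun p _ => by
      filter_upwards [eventually_ge_atTop ((p.1.length / 4 + mm p.1.length C) +
        (p.2.length / 4 + mm p.2.length C))] with N hN
      exact decide_eq_true hN)
    (by
      intro r hr N
      obtain ⟨i, hi, hi2⟩ := h (4 * N + r / 4) (4 * N + r % 4)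
      refine ⟨i, hi, ?_⟩
      rintro ⟨K, L⟩ ⟨hK, hL, hP⟩ hr2 hadmK
      have hle : (K.length / 4 + mm K.length C) + (L.length / 4 + mm L.length C) ≤ N :=
        of_decide_eq_true hadmK
      change 4 * (K.length % 4) + L.length % 4 = r at hr2
      have e1 : K.length + 4 * (N - K.length / 4) = 4 * N + r / 4 := by
        have := Nat.div_add_mod K.length 4
        have := Nat.mod_lt L.length (show 0 < 4 by norm_num)
        omega
      have e2 : L.length + 4 * (N - L.length / 4) = 4 * N + r % 4 := by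
        have := Nat.div_add_mod L.length 4
        have := Nat.mod_lt L.length (show 0 < 4 by norm_num)
        omega
      show decide _ = true ↔ _
      rw [decide_eq_true_eq]
      have m1 : mm K.length C ≤ N - K.length / 4 := by omega
      have m2 : mm L.length C ≤ N - L.length / 4 := by omega
      exact vote2_at (A := fun p => A (i, p)) (K := K) (L := L) hPr1 hPr2 hQ1 hQ2 hK hL hP (C := C)
        (m := N - K.length / 4) (m' := N - L.length / 4)
        m1 m2 (by rw [e1, e2]; exact hi2))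
  exact ⟨D, hD, fun K L hK hL hP => hD2 (K, L) ⟨hK, hL, hP⟩⟩

end Pool.Agent.Q287.BA.Tri
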