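import Mathlib
import Pool.Agent.Q287.BA.Core

/-!
# Bounded advice: candidates which need not halt
-/

set_option autoImplicit false

namespace Pool.Agent.Q287.BA.Partial

open Filter Encodable

/-- The values of a partial recursive function at a stage. -/
theorem stages {β : Type} [Primcodable β] {f : β →. Bool} (hf : Partrec f) :
    ∃ st : ℕ × β → Option Bool, Computable st ∧
      (∀ s s' a b, s ≤ s' → st (s, a) = some b → st (s', a) = some b) ∧
      ∀ a b, (∃ s, st (s, a) = some b) ↔ b ∈ f a := by
  obtain ⟨c, hc⟩ := Nat.Partrec.Code.exists_code.1 hf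
  have hc2 : ∀ a, Nat.Partrec.Code.eval c (encode a) = (f a).map encode := by
    intro a
    rw [hc]
    simp
  refine ⟨fun x => (Nat.Partrec.Code.evaln x.1 c (encode x.2)).bind
    (fun n => (decode n : Option Bool)), ?_, ?_, ?_⟩
  · refine Primrec.to_comp ?_
    refine Primrec.option_bind (f := fun x : ℕ × β => Nat.Partrec.Code.evaln x.1 c (encode x.2))
      (g := fun _ n => (decode n : Option Bool)) ?_ ?_
    · exact Nat.Partrec.Code.primrec_evaln.comp
        ((Primrec.fst.pair (Primrec.const c)).pair (Primrec.encode.comp Primrec.snd))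
    · exact Primrec.decode.comp Primrec.snd
  · intro s s' a b hs h
    rw [Option.bind_eq_some_iff] at h ⊢
    obtain ⟨n, hn, hn2⟩ := h
    exact ⟨n, Nat.Partrec.Code.evaln_mono hs hn, hn2⟩
  · intro a b
    constructor
    · rintro ⟨s, h⟩
      rw [Option.bind_eq_some_iff] at h
      obtain ⟨n, hn, hn2⟩ := h
      have h1 := Nat.Partrec.Code.evaln_sound hn
      rw [hc2] at h1
      obtain ⟨b', hb', rfl⟩ := (Part.mem_map_iff _).1 h1
      rw [encodek, Option.some.injEq] at hn2
      rwa [← hn2]
    · intro hb
      have h1 : encode b ∈ Nat.Partrec.Code.eval c (encode a) := by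
        rw [hc2]
        exact Part.mem_map _ hb
      obtain ⟨s, hs⟩ := Nat.Partrec.Code.evaln_complete.1 h1
      refine ⟨s, ?_⟩
      rw [Option.bind_eq_some_iff]
      exact ⟨_, hs, encodek b⟩

theorem count_comp {α ι : Type} [Primcodable α] {f : ι → α → Bool} (hf : ∀ i, Computable (f i))
    (l : List ι) : Computable (fun a => l.countP fun i => f i a) := by
  induction l with
  | nil => exact Computable.const 0
  | cons i l ih =>
    have h1 : Computable (fun a => l.countP (fun i => f i a) + cond (f i a) 1 0) :=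
      Primrec.nat_add.to_comp.comp ih (Computable.cond (hf i) (Computable.const 1)
        (Computable.const 0))
    refine h1.of_eq fun a => ?_
    rw [List.countP_cons]
    cases f i a <;> rfl

theorem obeq_comp {α : Type} [Primcodable α] {f : α → Option Bool} (hf : Computable f)
    (b : Option Bool) : Computable (fun a => decide (f a = b)) := by
  have h : PrimrecPred (fun x : Option Bool => x = b) := Primrec.eq.comp Primrec.id (Primrec.const b)
  exact h.decide.to_comp.comp hf

theorem some_comp {α : Type} [Primcodable α] {f : α → Option Bool} (hf : Computable f) :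
    Computable (fun a => (f a).isSome) := Primrec.option_isSome.to_comp.comp hf

variable {X : Type} [Primcodable X]

section
variable (F : (ℕ × ℕ) × X × ℕ → Option Bool) (k : ℕ) (E : List (X × Bool))

/-- at the stage `s` the candidate has halted for `x` and for `E` -/
def hs (i : ℕ) (z : X × ℕ) : Bool :=
  (F ((z.2.unpair.2, i), z.1, z.2.unpair.1)).isSome &&
    E.all fun y => (F ((z.2.unpair.2, i), y.1, z.2.unpair.1)).isSome

/-- at the stage `s` the candidate is right on `E` -/
def rs (i : ℕ) (z : X × ℕ) : Bool :=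
  E.all fun y => decide (F ((z.2.unpair.2, i), y.1, z.2.unpair.1) = some y.2)

/-- all the candidates which are right on `E` and have halted agree -/
def un (b : Bool) (z : X × ℕ) : Bool :=
  (List.range k).all fun i => (!(hs F E i z)) || ((!(rs F E i z)) ||
    decide (F ((z.2.unpair.2, i), z.1, z.2.unpair.1) = some b))

/-- the number of the candidates which have halted -/
def cn (z : X × ℕ) : ℕ := (List.range k).countP fun i => hs F E i z

end

lemma un1 : Computable (fun z : X × ℕ => z.2.unpair.1) :=
  (Primrec.fst.comp (Primrec.unpair.comp Primrec.snd)).to_comp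

lemma un2 : Computable (fun z : X × ℕ => z.2.unpair.2) :=
  (Primrec.snd.comp (Primrec.unpair.comp Primrec.snd)).to_comp

section
variable {F : (ℕ × ℕ) × X × ℕ → Option Bool}

lemma f1 (hF : Computable F) (i : ℕ) :
    Computable (fun z : X × ℕ => F ((z.2.unpair.2, i), z.1, z.2.unpair.1)) :=
  hF.comp ((un2.pair (Computable.const i)).pair (Computable.fst.pair un1))

lemma f2 (hF : Computable F) (i : ℕ) (y : X) :
    Computable (fun z : X × ℕ => F ((z.2.unpair.2, i), y, z.2.unpair.1)) :=
  hF.comp ((un2.pair (Computable.const i)).pair ((Computable.const y).pair un1))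

lemma hs_comp (hF : Computable F) (E : List (X × Bool)) (i : ℕ) : Computable (hs F E i) :=
  Primrec.and.to_comp.comp (some_comp (f1 hF i)) (all_comp (fun (y : X × Bool) => some_comp (f2 hF i y.1)) _)

lemma rs_comp (hF : Computable F) (E : List (X × Bool)) (i : ℕ) : Computable (rs F E i) :=
  all_comp (fun (y : X × Bool) => obeq_comp (f2 hF i y.1) (some y.2)) _

lemma un_comp (hF : Computable F) (k : ℕ) (E : List (X × Bool)) (b : Bool) :
    Computable (un F k E b) :=
  all_comp (fun i => Primrec.or.to_comp.comp (Primrec.not.to_comp.comp (hs_comp hF E i))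
    (Primrec.or.to_comp.comp (Primrec.not.to_comp.comp (rs_comp hF E i))
      (obeq_comp (f1 hF i) _))) _

lemma cn_comp (hF : Computable F) (k : ℕ) (E : List (X × Bool)) : Computable (cn F k E) :=
  count_comp (fun i => hs_comp hF E i) _

end

/-- **Bounded advice**, with candidates which need not halt. -/
theorem corep {P T : X → Prop} {k : ℕ} {adm : X × ℕ → Bool} {F : (ℕ × ℕ) × X × ℕ → Option Bool}
    (hF : Computable F) (hadm : Computable adm)
    (hmono : ∀ s s' i x N b, s ≤ s' → F ((s, i), x, N) = some b → F ((s', i), x, N) = some b)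
    (hl : ∀ x, P x → ∀ᶠ N in atTop, adm (x, N) = true)
    (h : ∀ N, ∃ i < k, ∀ x, P x → adm (x, N) = true →
      ∃ s b, F ((s, i), x, N) = some b ∧ (b = true ↔ T x)) :
    ∃ D : X →. Bool, Partrec D ∧ ∀ x, P x → ∃ b, D x = Part.some b ∧ (b = true ↔ T x) := by
  classical
  have h' : ∀ N, ∃ i < k, ∀ x, P x → adm (x, N) = true →
      ∃ s, F ((s, i), x, N) = some (decide (T x)) := by
    intro N
    obtain ⟨i, hi, hi2⟩ := h N
    refine ⟨i, hi, fun x h1 h2 => ?_⟩
    obtain ⟨s, b, hb, hb2⟩ := hi2 x h1 h2
    have e1 : b = decide (T x) := by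
      rw [Bool.eq_iff_iff, decide_eq_true_eq]
      exact hb2
    exact ⟨s, by rw [hb, e1]⟩
  have huniq : ∀ s s' i x N b b', F ((s, i), x, N) = some b → F ((s', i), x, N) = some b' →
      b = b' := by
    intro s s' i x N b b' h1 h2
    have e1 := hmono s (max s s') i x N b (le_max_left _ _) h1
    have e2 := hmono s' (max s s') i x N b' (le_max_right _ _) h2
    rw [e1] at e2
    exact Option.some.inj e2
  obtain ⟨ha, hha⟩ : ∃ ha : List (X × Bool) → ℕ → ℕ → Prop,
    ha = fun E i N => ∀ y ∈ E, ∃ s b, F ((s, i), y.1, N) = some b := ⟨_, rfl⟩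
  obtain ⟨ri, hri⟩ : ∃ ri : List (X × Bool) → ℕ → ℕ → Prop,
    ri = fun E i N => ∀ y ∈ E, ∃ s, F ((s, i), y.1, N) = some y.2 := ⟨_, rfl⟩
  obtain ⟨H, hH⟩ : ∃ H : List (X × Bool) → ℕ → Finset ℕ,
    H = fun E N => (Finset.range k).filter fun i => ha E i N := ⟨_, rfl⟩
  obtain ⟨S, hS⟩ : ∃ S : List (X × Bool) → ℕ → Finset ℕ,
    S = fun E N => (Finset.range k).filter fun i => ri E i N := ⟨_, rfl⟩
  obtain ⟨G, hG⟩ : ∃ G : List (X × Bool) → Prop,
    G = fun E => ∀ y ∈ E, P y.1 ∧ y.2 = decide (T y.1) := ⟨_, rfl⟩
  have mH : ∀ E N i, i ∈ H E N ↔ i < k ∧ ha E i N := by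
    intro E N i
    rw [hH]
    simp
  have mS : ∀ E N i, i ∈ S E N ↔ i < k ∧ ri E i N := by
    intro E N i
    rw [hS]
    simp
  have Hsub : ∀ E E' N, (∀ y ∈ E, y ∈ E') → H E' N ⊆ H E N := by
    intro E E' N hE i hi
    rw [mH] at hi ⊢
    refine ⟨hi.1, ?_⟩
    rw [hha] at hi ⊢
    exact fun y hy => hi.2 y (hE y hy)
  -- the number of the candidates which halt
  obtain ⟨R, hR⟩ : ∃ R : ℕ → Prop, R = fun c => ∃ E, G E ∧ ∀ᶠ N in atTop, (H E N).card ≤ c :=
    ⟨_, rfl⟩
  have hRk : ∃ c, R c := by
    rw [hR]
    refine ⟨k, [], ?_, Eventually.of_forall fun N => ?_⟩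
    · rw [hG]
      intro y hy
      simp at hy
    · rw [hH]
      exact (Finset.card_filter_le _ _).trans (by simp)
  obtain ⟨c, hc⟩ : ∃ c, c = Nat.find hRk := ⟨_, rfl⟩
  have hRc : R c := hc ▸ Nat.find_spec hRk
  have hmin : ∀ d < c, ¬ R d := fun d hd => Nat.find_min hRk (hc ▸ hd)
  have hfreq : ∀ E, G E → ∃ᶠ N in atTop, c ≤ (H E N).card := by
    intro E hE hcon
    have h1 : ∀ᶠ N in atTop, (H E N).card < c := by
      filter_upwards [hcon] with N hN
      exact not_le.1 hN
    obtain ⟨N, hN⟩ := h1.exists
    refine hmin (c - 1) (by omega) ?_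
    rw [hR]
    refine ⟨E, hE, ?_⟩
    filter_upwards [h1] with N hN
    omega
  rw [hR] at hRc
  obtain ⟨E0, hE0, hev⟩ := hRc
  obtain ⟨N0, hN0⟩ := eventually_atTop.1 hev
  have hadE : ∀ E, G E → ∀ᶠ N in atTop, ∀ y ∈ E, adm (y.1, N) = true := by
    intro E
    rw [hG]
    induction E with
    | nil =>
      intro _
      exact Eventually.of_forall fun N y hy => by simp at hy
    | cons z Z ih =>
      intro hZ
      have e1 := hl z.1 (hZ z (by simp)).1
      have e2 := ih fun y hy => hZ y (by simp [hy])
      filter_upwards [e1, e2] with N h1 h2 y hy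
      rcases List.mem_cons.1 hy with rfl | hy
      · exact h1
      · exact h2 y hy
  -- the references
  obtain ⟨Q, hQ⟩ : ∃ Q : List (X × Bool) → X → Prop, Q = fun E x => ∃ N, N0 ≤ N ∧
    adm (x, N) = true ∧ (∀ y ∈ E, adm (y.1, N) = true) ∧
    c ≤ (H ((x, decide (T x)) :: E) N).card ∧
    ∀ i ∈ H ((x, decide (T x)) :: E) N, ri E i N → ∃ s, F ((s, i), x, N) = some (decide (T x)) :=
    ⟨_, rfl⟩
  have hcl : ∃ E, G E ∧ (∀ y ∈ E0, y ∈ E) ∧ ∀ x, P x → Q E x := by
    by_contra hne
    push Not at hne
    have h1 : ∀ j, ∃ E, G E ∧ (∀ y ∈ E0, y ∈ E) ∧ ∀ N, N0 ≤ N → (∀ y ∈ E, adm (y.1, N) = true) →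
        c ≤ (H E N).card → (S E N).card + j ≤ k := by
      intro j
      induction j with
      | zero =>
        refine ⟨E0, hE0, fun y hy => hy, fun N _ _ _ => ?_⟩
        rw [hS]
        have := Finset.card_filter_le (Finset.range k) (fun i => ri E0 i N)
        rw [Finset.card_range] at this
        omega
      | succ j ih =>
        obtain ⟨E, g1, g2, g3⟩ := ih
        obtain ⟨x, g4, g5⟩ := hne E g1 g2
        refine ⟨(x, decide (T x)) :: E, ?_, fun y hy => List.mem_cons_of_mem _ (g2 y hy), ?_⟩
        · rw [hG] at g1 ⊢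
          intro y hy
          rcases List.mem_cons.1 hy with rfl | hy
          · exact ⟨g4, rfl⟩
          · exact g1 y hy
        · intro N e1 e2 e3
          have e4 : c ≤ (H E N).card :=
            e3.trans (Finset.card_le_card (Hsub _ _ _ fun y hy => List.mem_cons_of_mem _ hy))
          have e5 := g3 N e1 (fun y hy => e2 y (List.mem_cons_of_mem _ hy)) e4
          have e6 : ∃ i ∈ H ((x, decide (T x)) :: E) N, ri E i N ∧
              ¬ ∃ s, F ((s, i), x, N) = some (decide (T x)) := by
            by_contra hcon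
            push Not at hcon
            apply g5
            rw [hQ]
            refine ⟨N, e1, e2 (x, decide (T x)) (by simp),
              fun y hy => e2 y (List.mem_cons_of_mem _ hy), e3, ?_⟩
            exact hcon
          obtain ⟨i, i1, i2, i3⟩ := e6
          have e7 : S ((x, decide (T x)) :: E) N ⊂ S E N := by
            refine ⟨fun j hj => ?_, fun hsub => ?_⟩
            · rw [mS] at hj ⊢
              refine ⟨hj.1, ?_⟩
              rw [hri] at hj ⊢
              exact fun y hy => hj.2 y (List.mem_cons_of_mem _ hy)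
            · have e8 : i ∈ S E N := (mS _ _ _).2 ⟨((mH _ _ _).1 i1).1, i2⟩
              have e9 := ((mS _ _ _).1 (hsub e8)).2
              rw [hri] at e9
              exact i3 (e9 (x, decide (T x)) (by simp))
          have e8 := Finset.card_lt_card e7
          omega
    obtain ⟨E, g1, g2, g3⟩ := h1 (k + 1)
    obtain ⟨N, n1, n2, n3⟩ := ((hfreq E g1).and_eventually
      ((hadE E g1).and (eventually_ge_atTop N0))).exists
    have := g3 N n3 n2 n1
    omega
  obtain ⟨E, hE, hE2, hE3⟩ := hcl
  rw [hQ] at hE3
  have hE' := hE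
  rw [hG] at hE'
  obtain ⟨adE, hadE1⟩ : ∃ adE : ℕ → Bool, adE = fun N => E.all fun y => adm (y.1, N) := ⟨_, rfl⟩
  have cadE : Computable adE := by
    rw [hadE1]
    exact all_comp (f := fun (y : X × Bool) (N : ℕ) => adm (y.1, N))
      (fun y => hadm.comp ((Computable.const y.1).pair Computable.id)) _
  have hadE2 : ∀ N, adE N = true ↔ ∀ y ∈ E, adm (y.1, N) = true := by
    intro N
    rw [hadE1]
    simp only [List.all_eq_true]
  obtain ⟨t, ht⟩ : ∃ t : X × ℕ → Bool, t = fun z => (decide (N0 ≤ z.2.unpair.1) &&
    (adm (z.1, z.2.unpair.1) && adE z.2.unpair.1)) &&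
    (decide (c ≤ cn F k E z) && (un F k E true z || un F k E false z)) := ⟨_, rfl⟩
  have le_c : Primrec (fun n : ℕ => decide (c ≤ n)) :=
    (PrimrecPred.decide (p := fun n : ℕ => c ≤ n) (Primrec.nat_le.comp (Primrec.const c) Primrec.id))
  have le_N : Primrec (fun n : ℕ => decide (N0 ≤ n)) :=
    (PrimrecPred.decide (p := fun n : ℕ => N0 ≤ n) (Primrec.nat_le.comp (Primrec.const N0) Primrec.id))
  have ct : Computable t := by
    rw [ht]
    refine Primrec.and.to_comp.comp (Primrec.and.to_comp.comp (le_N.to_comp.comp un1)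
      (Primrec.and.to_comp.comp (hadm.comp (Computable.fst.pair un1)) (cadE.comp un1))) ?_
    exact Primrec.and.to_comp.comp (le_c.to_comp.comp (cn_comp hF k E))
      (Primrec.or.to_comp.comp (un_comp hF k E true) (un_comp hF k E false))
  have ht2 : ∀ z, t z = true ↔ (N0 ≤ z.2.unpair.1 ∧ adm (z.1, z.2.unpair.1) = true ∧
      ∀ y ∈ E, adm (y.1, z.2.unpair.1) = true) ∧ c ≤ cn F k E z ∧
      (un F k E true z = true ∨ un F k E false z = true) := by
    intro z
    rw [ht]
    simp only [Bool.and_eq_true, Bool.or_eq_true, hadE2, decide_eq_true_eq]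
  have hcn : ∀ z, cn F k E z = ((Finset.range k).filter fun i => hs F E i z = true).card := by
    intro z
    unfold cn
    rw [List.countP_eq_length_filter]
    have e1 : (fun i => hs F E i z) = (fun i => decide (hs F E i z = true)) := by
      funext i
      cases hs F E i z <;> rfl
    rw [e1]
    rfl
  have hs_iff : ∀ i z, hs F E i z = true ↔
      (∃ b, F ((z.2.unpair.2, i), z.1, z.2.unpair.1) = some b) ∧
      ∀ y ∈ E, ∃ b, F ((z.2.unpair.2, i), y.1, z.2.unpair.1) = some b := by
    intro i z
    unfold hs
    simp only [Bool.and_eq_true, List.all_eq_true, Option.isSome_iff_exists]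
  have rs_iff : ∀ i z, rs F E i z = true ↔
      ∀ y ∈ E, F ((z.2.unpair.2, i), y.1, z.2.unpair.1) = some y.2 := by
    intro i z
    unfold rs
    simp only [List.all_eq_true, decide_eq_true_eq]
  have un_iff : ∀ b z, un F k E b z = true ↔ ∀ i < k, hs F E i z = true → rs F E i z = true →
      F ((z.2.unpair.2, i), z.1, z.2.unpair.1) = some b := by
    intro b z
    unfold un
    rw [List.all_eq_true]
    simp only [List.mem_range, Bool.or_eq_true, Bool.not_eq_true', decide_eq_true_eq]
    refine forall_congr' fun i => forall_congr' fun _ => ?_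
    constructor
    · rintro (h1 | h1 | h1) h2 h3
      · rw [h2] at h1; exact absurd h1 (by decide)
      · rw [h3] at h1; exact absurd h1 (by decide)
      · exact h1
    · intro h1
      cases h2 : hs F E i z
      · exact Or.inl rfl
      · cases h3 : rs F E i z
        · exact Or.inr (Or.inl rfl)
        · exact Or.inr (Or.inr (h1 h2 h3))
  refine ⟨fun x => (Nat.rfind fun M => Part.some (t (x, M))).map
    fun M => un F k E true (x, M), ?_, ?_⟩
  · refine Partrec.map (Partrec.rfind (p := fun x M => Part.some (t (x, M))) ?_) ?_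
    · exact ct
    · exact un_comp hF k E true
  · intro x hx
    -- the right candidate
    have hright : ∀ M, t (x, M) = true → (un F k E true (x, M) = true ↔ T x) := by
      intro M hM
      rw [ht2] at hM
      obtain ⟨⟨m0, m1, m2⟩, m3, m4⟩ := hM
      obtain ⟨i, hi, hi2⟩ := h' M.unpair.1
      have hsub : ((Finset.range k).filter fun i => hs F E i (x, M) = true) ⊆ H E0 M.unpair.1 := by
        intro j hj
        rw [Finset.mem_filter, Finset.mem_range, hs_iff] at hj
        rw [mH]
        refine ⟨hj.1, ?_⟩
        rw [hha]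
        exact fun y hy => ⟨_, hj.2.2 y (hE2 y hy)⟩
      have heq : ((Finset.range k).filter fun i => hs F E i (x, M) = true) = H E0 M.unpair.1 := by
        refine Finset.eq_of_subset_of_card_le hsub ?_
        rw [← hcn]
        exact (hN0 _ m0).trans m3
      have hiH : i ∈ H E0 M.unpair.1 := by
        rw [mH]
        refine ⟨hi, ?_⟩
        rw [hha]
        intro y hy
        obtain ⟨s, hs⟩ := hi2 y.1 (hE' y (hE2 y hy)).1 (m2 y (hE2 y hy))
        exact ⟨s, _, hs⟩
      rw [← heq, Finset.mem_filter] at hiH
      have his := hiH.2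
      have his2 := (hs_iff _ _).1 his
      have hirs : rs F E i (x, M) = true := by
        rw [rs_iff]
        intro y hy
        obtain ⟨b, hb⟩ := his2.2 y hy
        obtain ⟨s, hs⟩ := hi2 y.1 (hE' y hy).1 (m2 y hy)
        rw [hb, huniq _ _ _ _ _ _ _ hb hs, (hE' y hy).2]
      obtain ⟨s, hsx⟩ := hi2 x hx m1
      constructor
      · intro h4
        have h5 := (un_iff _ _).1 h4 i hi his hirs
        have h6 := huniq _ _ _ _ _ _ _ h5 hsx
        exact of_decide_eq_true h6.symm
      · intro h4
        rcases m4 with m4 | m4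
        · exact m4
        · have h5 := (un_iff _ _).1 m4 i hi his hirs
          have h6 := huniq _ _ _ _ _ _ _ h5 hsx
          rw [decide_eq_true h4] at h6
          exact absurd h6 (by decide)
    -- the search ends
    have hex : ∃ M, t (x, M) = true := by
      obtain ⟨N, q1, q2, q3, q4, q5⟩ := hE3 x hx
      -- a stage at which all candidates have halted
      have hst : ∀ i, ∃ s, ∀ y ∈ (x, decide (T x)) :: E, ∀ s' b,
          F ((s', i), y.1, N) = some b → F ((s, i), y.1, N) = some b := by
        intro i
        have : ∀ Z : List (X × Bool), ∃ s, ∀ y ∈ Z, ∀ s' b,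
            F ((s', i), y.1, N) = some b → F ((s, i), y.1, N) = some b := by
          intro Z
          induction Z with
          | nil => exact ⟨0, fun y hy => by simp at hy⟩
          | cons z Z ih =>
            obtain ⟨s, hs⟩ := ih
            by_cases hz : ∃ s' b, F ((s', i), z.1, N) = some b
            · obtain ⟨s1, b1, hb1⟩ := hz
              refine ⟨max s s1, fun y hy s' b hb => ?_⟩
              rcases List.mem_cons.1 hy with rfl | hy
              · rw [huniq _ _ _ _ _ _ _ hb hb1]
                exact hmono _ _ _ _ _ _ (le_max_right _ _) hb1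
              · exact hmono _ _ _ _ _ _ (le_max_left _ _) (hs y hy s' b hb)
            · refine ⟨s, fun y hy s' b hb => ?_⟩
              rcases List.mem_cons.1 hy with rfl | hy
              · exact absurd ⟨s', b, hb⟩ hz
              · exact hs y hy s' b hb
        exact this _
      choose st hst using hst
      obtain ⟨s, hs1⟩ : ∃ s, ∀ i < k, st i ≤ s :=
        ⟨(Finset.range k).sup st, fun i hi => Finset.le_sup (Finset.mem_range.2 hi)⟩
      have hst2 : ∀ i < k, ∀ y ∈ (x, decide (T x)) :: E, ∀ s' b,
          F ((s', i), y.1, N) = some b → F ((s, i), y.1, N) = some b := by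
        intro i hi y hy s' b hb
        exact hmono _ _ _ _ _ _ (hs1 i hi) (hst i y hy s' b hb)
      refine ⟨Nat.pair N s, ?_⟩
      rw [ht2]
      simp only [Nat.unpair_pair]
      refine ⟨⟨q1, q2, q3⟩, ?_, ?_⟩
      · rw [hcn]
        refine q4.trans (Finset.card_le_card ?_)
        intro i hi
        rw [mH] at hi
        rw [Finset.mem_filter, Finset.mem_range, hs_iff]
        simp only [Nat.unpair_pair]
        refine ⟨hi.1, ?_⟩
        rw [hha] at hi
        constructor
        · obtain ⟨s', b, hb⟩ := hi.2 (x, decide (T x)) (by simp)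
          exact ⟨b, hst2 i hi.1 _ (by simp) s' b hb⟩
        · intro y hy
          obtain ⟨s', b, hb⟩ := hi.2 y (by simp [hy])
          exact ⟨b, hst2 i hi.1 y (by simp [hy]) s' b hb⟩
      · have key : un F k E (decide (T x)) (x, Nat.pair N s) = true := by
          rw [un_iff]
          simp only [Nat.unpair_pair]
          intro i hi h1 h2
          rw [hs_iff] at h1
          rw [rs_iff] at h2
          simp only [Nat.unpair_pair] at h1 h2
          have h3 : i ∈ H ((x, decide (T x)) :: E) N := by
            rw [mH]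
            refine ⟨hi, ?_⟩
            rw [hha]
            intro y hy
            rcases List.mem_cons.1 hy with rfl | hy
            · obtain ⟨b, hb⟩ := h1.1
              exact ⟨s, b, hb⟩
            · obtain ⟨b, hb⟩ := h1.2 y hy
              exact ⟨s, b, hb⟩
          have h4 : ri E i N := by
            rw [hri]
            exact fun y hy => ⟨s, h2 y hy⟩
          obtain ⟨s', hs'⟩ := q5 i h3 h4
          exact hst2 i hi (x, decide (T x)) (by simp) s' _ hs'
        cases hd : decide (T x)
        · rw [hd] at key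
          exact Or.inr key
        · rw [hd] at key
          exact Or.inl key
    obtain ⟨M, hM⟩ := hex
    have hdom : (Nat.rfind fun M => Part.some (t (x, M))).Dom := by
      exact Nat.rfind_dom.2 ⟨M, by simpa using hM.symm, fun _ => trivial⟩
    obtain ⟨M', hM'⟩ := Part.dom_iff_mem.1 hdom
    have hM2 : t (x, M') = true := by
      exact (Part.mem_some_iff.1 (Nat.mem_rfind.1 hM').1).symm
    refine ⟨un F k E true (x, M'), ?_, hright M' hM2⟩
    exact Part.eq_some_iff.2 (Part.mem_map _ hM')

end Pool.Agent.Q287.BA.Partial
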