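import Mathlib
import Pool.Agent.Q324.SC.TietzeVote
import Pool.Agent.Q287.BA.Artin

/-!
# Bounded advice and few errors: questions on groups given by presentations
-/

set_option autoImplicit false

namespace Pool.Agent.Q287.BA.Tz

open Filter Pool.Agent.Q324.SC Pool.Agent.Q324.SC.Tz
open Pool.Agent.Q287.BA.Art (fil)

/-- trivial relators are added -/
def pad (p : Pres) (t : ℕ) : Pres := (p.1, p.2 ++ List.replicate t [])

lemma pad_ok {p : Pres} (hp : Ok p) (t : ℕ) : Ok (pad p t) := by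
  refine ⟨hp.1, ?_⟩
  intro r hr x hx
  rcases List.mem_append.1 hr with h | h
  · exact hp.2 r h x hx
  · rw [List.eq_of_mem_replicate h] at hx
    simp at hx

lemma pad_len (p : Pres) (t : ℕ) : (pad p t).2.length = p.2.length + t := by
  simp [pad]

lemma pad_iso {p : Pres} (hp : Ok p) (t : ℕ) : Nonempty (Grp (pad p t) ≃* Grp p) := by
  have hp' := pad_ok hp t
  obtain ⟨φ, hφ⟩ := exists_hom hp (gen (pad p t)) (fun r hr => gen_rel _ (List.mem_append_left _ hr))
  obtain ⟨ψ, hψ⟩ := exists_hom hp' (gen p) (by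
    intro r hr
    rcases List.mem_append.1 hr with h | h
    · exact gen_rel p h
    · rw [List.eq_of_mem_replicate h]
      rfl)
  have h1 : ψ.comp φ = MonoidHom.id _ := by
    refine hom_ext fun i hi => ?_
    rw [MonoidHom.comp_apply, hφ i hi, hψ i hi, MonoidHom.id_apply]
  have h2 : φ.comp ψ = MonoidHom.id _ := by
    refine hom_ext fun i hi => ?_
    rw [MonoidHom.comp_apply, hψ i hi, hφ i hi, MonoidHom.id_apply]
  exact ⟨MonoidHom.toMulEquiv ψ φ h2 h1⟩

lemma key_num' (r n m s : ℕ) (hn : 1 ≤ n) (hs : ss r m ≤ s) :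
    2 * (2 * (n + s)) ^ (r * (m + s)) ≤ (Pn n 1 s) ^ (r + 1) := by
  obtain ⟨M, hM⟩ : ∃ M, M = 4 * (r + 1) := ⟨_, rfl⟩
  have hM1 : 1 ≤ M := by omega
  obtain ⟨u, hu⟩ : ∃ u, u = s / M := ⟨_, rfl⟩
  have hu1 : uu r m ≤ u := by
    rw [hu, Nat.le_div_iff_mul_le (by omega), mul_comm, hM]
    exact hs
  have hsu : M * u ≤ s := by rw [hu]; exact Nat.mul_div_le s M
  have hsu2 : s < M * u + M := by
    rw [hu]
    have := Nat.div_add_mod s M
    have h2 := Nat.mod_lt s (show M > 0 by omega)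
    omega
  obtain ⟨B, hB⟩ : ∃ B, B = 2 * (n + u) := ⟨_, rfl⟩
  have huu : m + M ^ (2 * (r + 1)) + 1 ≤ u := by
    rw [hM]
    exact hu1
  have hBM : M ^ (2 * (r + 1)) ≤ B := by
    rw [hB]
    omega
  have hMu : M ≤ u := by
    have : M ^ 1 ≤ M ^ (2 * (r + 1)) := Nat.pow_le_pow_right hM1 (by omega)
    rw [pow_one] at this
    omega
  have hB2 : 2 ≤ B := by omega
  have h1 : 2 * (n + s) ≤ M * B := by
    rw [hB]
    have e1 : (M - 1) * 1 ≤ (M - 1) * n := Nat.mul_le_mul_left _ hn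
    have e2 : (M - 1) * n + n = M * n := by
      rw [← Nat.succ_mul]
      congr 1
      omega
    have e3 : M * (2 * (n + u)) = 2 * (M * n) + 2 * (M * u) := by ring
    omega
  have h2 : r * (m + s) ≤ r * (u + s) := Nat.mul_le_mul_left _ (by omega)
  have hmu : M * u + u ≤ s + u := by omega
  have hus : u ≤ s := le_trans (Nat.le_mul_of_pos_left u (by omega)) hsu
  have h3 : B ^ (s - u) ≤ Pn n 1 s := by
    have h4 := le_Pn hn u (s - u)
    rw [← hB] at h4
    have h5 : u + (s - u) = s := by omega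
    rwa [h5] at h4
  have h4 : M ^ (r * (u + s)) ≤ B ^ ((2 * r + 1) * u) := by
    calc M ^ (r * (u + s)) ≤ M ^ (2 * (r + 1) * ((2 * r + 1) * u)) := by
          refine Nat.pow_le_pow_right hM1 ?_
          have e1 : u + s ≤ (M + 2) * u := by
            have : (M + 2) * u = M * u + u + u := by ring
            omega
          calc r * (u + s) ≤ r * ((M + 2) * u) := Nat.mul_le_mul_left _ e1
            _ ≤ 2 * (r + 1) * ((2 * r + 1) * u) := by
                rw [hM]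
                nlinarith
      _ = (M ^ (2 * (r + 1))) ^ ((2 * r + 1) * u) := by rw [← pow_mul]
      _ ≤ B ^ ((2 * r + 1) * u) := Nat.pow_le_pow_left hBM _
  have h5 : u + (2 * r + 1) * u + r * (u + s) ≤ (s - u) * (r + 1) := by
    have e1 : (s - u) * (r + 1) = s * (r + 1) - u * (r + 1) := Nat.sub_mul _ _ _
    have e2 : u + (2 * r + 1) * u + r * (u + s) + u * (r + 1) = r * s + (4 * r + 3) * u := by ring
    have e3 : (4 * r + 3) * u + u = M * u := by rw [hM]; ring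
    have e4 : s * (r + 1) = r * s + s := by ring
    omega
  calc 2 * (2 * (n + s)) ^ (r * (m + s)) ≤ 2 * (M * B) ^ (r * (u + s)) := by
        refine Nat.mul_le_mul_left _ ?_
        exact (Nat.pow_le_pow_left h1 _).trans (Nat.pow_le_pow_right (by positivity) h2)
    _ = 2 * M ^ (r * (u + s)) * B ^ (r * (u + s)) := by rw [mul_pow]; ring
    _ ≤ (B ^ u * B ^ ((2 * r + 1) * u)) * B ^ (r * (u + s)) := by
        refine Nat.mul_le_mul_right _ (Nat.mul_le_mul ?_ h4)
        calc 2 ≤ B := hB2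
          _ = B ^ 1 := (pow_one _).symm
          _ ≤ B ^ u := Nat.pow_le_pow_right (by omega) (by omega)
    _ = B ^ (u + (2 * r + 1) * u + r * (u + s)) := by rw [← pow_add, ← pow_add]
    _ ≤ B ^ ((s - u) * (r + 1)) := Nat.pow_le_pow_right (by omega) h5
    _ = (B ^ (s - u)) ^ (r + 1) := pow_mul _ _ _
    _ ≤ (Pn n 1 s) ^ (r + 1) := Nat.pow_le_pow_left h3 _

lemma num' (r n m s : ℕ) (hn : 1 ≤ n) (hs : ss r m ≤ s) {L K E : ℕ}
    (hL : r + 1 + K + (2 * (n + s)) ^ (r * (m + s)) + 1 ≤ L)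
    (h : E ^ (r + 1) ≤ K * (2 * (n + s)) ^ (r * (m + s) * (L + 1))) :
    2 * E < Pn n L s := by
  by_contra hc
  push Not at hc
  obtain ⟨Y, hY⟩ : ∃ Y, Y = (2 * (n + s)) ^ (r * (m + s)) := ⟨_, rfl⟩
  rw [← hY] at hL
  rw [pow_mul, ← hY] at h
  have hY1 : 1 ≤ Y := by rw [hY]; exact Nat.one_le_iff_ne_zero.2 (by positivity)
  have hk := key_num' r n m s hn hs
  rw [← hY] at hk
  have h1 : (2 * Y) ^ L ≤ 2 ^ (r + 1) * (K * Y ^ (L + 1)) := by
    calc (2 * Y) ^ L ≤ ((Pn n 1 s) ^ (r + 1)) ^ L := Nat.pow_le_pow_left hk _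
      _ = (Pn n L s) ^ (r + 1) := by
          rw [Pn_eq n L, ← pow_mul, ← pow_mul, Nat.mul_comm]
      _ ≤ (2 * E) ^ (r + 1) := Nat.pow_le_pow_left hc _
      _ = 2 ^ (r + 1) * E ^ (r + 1) := mul_pow _ _ _
      _ ≤ _ := Nat.mul_le_mul_left _ h
  have h2 : 2 ^ L ≤ 2 ^ (r + 1) * K * Y := by
    have h3 : 2 ^ L * Y ^ L ≤ 2 ^ (r + 1) * K * Y * Y ^ L := by
      rw [← mul_pow]
      refine h1.trans (le_of_eq ?_)
      rw [pow_succ]
      ring
    exact Nat.le_of_mul_le_mul_right h3 (by positivity)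
  have h3 : 2 ^ (r + 1) * K * Y < 2 ^ L := by
    have a1 : K < 2 ^ K := Nat.lt_two_pow_self
    have a2 : Y < 2 ^ Y := Nat.lt_two_pow_self
    calc 2 ^ (r + 1) * K * Y ≤ 2 ^ (r + 1) * 2 ^ K * 2 ^ Y :=
          Nat.mul_le_mul (Nat.mul_le_mul_left _ a1.le) a2.le
      _ = 2 ^ (r + 1 + K + Y) := by rw [← pow_add, ← pow_add]
      _ < 2 ^ L := Nat.pow_lt_pow_right (by norm_num) (by omega)
  omega

lemma vote_s {A : Pres → Bool} {Pr Q : Pres → Prop}
    (hPr : ∀ p q : Pres, Nonempty (Grp p ≃* Grp q) → Pr q → Pr p)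
    (hQ : ∀ p q : Pres, Nonempty (Grp p ≃* Grp q) → (Q p ↔ Q q)) {p : Pres} (hp : Ok p)
    (hP : Pr p) (r K L s : ℕ) (hs : ss r p.2.length ≤ s)
    (hL : r + 1 + K + (2 * (p.1 + s)) ^ (r * (p.2.length + s)) + 1 + tot p ≤ L)
    (h : (Bad A Pr Q (p.1 + s) (p.2.length + s) (L + 1)).encard ^ (r + 1)
      ≤ ((K * (2 * (p.1 + s)) ^ (r * (p.2.length + s) * (L + 1)) : ℕ) : ℕ∞)) :
    (Pn p.1 L s < 2 * cnt (fun k => A (desc p L s k).1) (Pn p.1 L s)) ↔ Q p := by
  classical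
  have hL2 : ∀ w ∈ p.2, w.length ≤ L + 1 := by
    intro w hw
    have := le_tot hw
    omega
  obtain ⟨W, hW⟩ : ∃ W, W = (Finset.range (Pn p.1 L s)).filter
    (fun k => A (desc p L s k).1 ≠ decide (Q p)) := ⟨_, rfl⟩
  have g1 : (W.card : ℕ∞) ≤ (Bad A Pr Q (p.1 + s) (p.2.length + s) (L + 1)).encard := by
    rw [← Set.encard_coe_eq_coe_finsetCard]
    have h3 : Set.InjOn (fun k => (desc p L s k).1) (W : Set ℕ) := by
      intro k hk k' hk' hkk
      rw [hW, Finset.mem_coe, Finset.mem_filter, Finset.mem_range] at hk hk'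
      have := desc_inj hp hL2 s k k' hkk
      rwa [Nat.mod_eq_of_lt hk.1, Nat.mod_eq_of_lt hk'.1] at this
    rw [← h3.encard_image]
    refine Set.encard_le_encard ?_
    rintro _ ⟨k, hk, rfl⟩
    rw [hW, Finset.mem_coe, Finset.mem_filter, Finset.mem_range] at hk
    obtain ⟨h4, h5, _⟩ := desc_basic hp hL2 s k
    refine ⟨h4, hPr _ _ h5 hP, ?_⟩
    intro h6
    rw [hQ _ _ h5] at h6
    apply hk.2
    rw [Bool.eq_iff_iff, decide_eq_true_eq]
    exact h6
  have g2 : W.card ^ (r + 1) ≤ K * (2 * (p.1 + s)) ^ (r * (p.2.length + s) * (L + 1)) := by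
    have := (pow_le_pow_left' g1 (r + 1)).trans h
    exact_mod_cast this
  have g3 : 2 * W.card < Pn p.1 L s := num' r p.1 p.2.length s hp.1 hs (by omega) g2
  rw [hW] at g3
  exact (majority le_rfl g3).trans (by simp)

lemma ss_mono (r : ℕ) {m m' : ℕ} (h : m ≤ m') : ss r m ≤ ss r m' := by
  unfold ss uu
  exact Nat.mul_le_mul_left _ (by omega)

/-- the number of the generators -/
def gg (r D : ℕ) : ℕ := ss r (2 * D) + D

/-- the number of the new generators -/
def sn (r : ℕ) (p : Pres) (N : ℕ) : ℕ := gg r N.unpair.1 - p.1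

/-- the number of the trivial relators -/
def tn (p : Pres) (N : ℕ) : ℕ := N.unpair.1 + p.1 - p.2.length

/-- when the vote is right -/
def okk (r K : ℕ) (p : Pres) (N : ℕ) : Prop :=
  p.1 ≤ N.unpair.1 ∧ p.2.length ≤ N.unpair.1 + p.1 ∧
    r + 1 + K + (2 * gg r N.unpair.1) ^ (r * (gg r N.unpair.1 + N.unpair.1)) + 1 + tot p
      ≤ N.unpair.2

/-- the extensions -/
def dn (r : ℕ) (p : Pres) (N j : ℕ) : Pres := (desc (pad p (tn p N)) N.unpair.2 (sn r p N) j).1

/-- the number of the extensions -/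
def pn (r : ℕ) (p : Pres) (N : ℕ) : ℕ := Pn p.1 N.unpair.2 (sn r p N)

lemma tot_pad (p : Pres) (t : ℕ) : tot (pad p t) = tot p := by
  unfold tot pad
  rw [List.map_append, List.sum_append]
  simp

lemma vote_ok {A : Pres → Bool} {Pr Q : Pres → Prop}
    (hPr : ∀ p q : Pres, Nonempty (Grp p ≃* Grp q) → Pr q → Pr p)
    (hQ : ∀ p q : Pres, Nonempty (Grp p ≃* Grp q) → (Q p ↔ Q q)) {p : Pres} (hp : Ok p)
    (hP : Pr p) (r K N : ℕ) (hok : okk r K p N)
    (h : (Bad A Pr Q (gg r N.unpair.1) (gg r N.unpair.1 + N.unpair.1) (N.unpair.2 + 1)).encard ^ (r + 1)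
      ≤ ((K * (2 * gg r N.unpair.1) ^ (r * (gg r N.unpair.1 + N.unpair.1) * (N.unpair.2 + 1)) : ℕ)
        : ℕ∞)) :
    (pn r p N < 2 * cnt (fun j => A (dn r p N j)) (pn r p N)) ↔ Q p := by
  obtain ⟨h1, h2, h3⟩ := hok
  obtain ⟨D, hD⟩ : ∃ D, D = N.unpair.1 := ⟨_, rfl⟩
  obtain ⟨s, hs⟩ : ∃ s, s = sn r p N := ⟨_, rfl⟩
  obtain ⟨t, ht⟩ : ∃ t, t = tn p N := ⟨_, rfl⟩
  obtain ⟨p', hp'⟩ : ∃ p', p' = pad p t := ⟨_, rfl⟩
  rw [← hD] at h1 h2 h3 h
  have e0 : gg r D = ss r (2 * D) + D := rfl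
  have e1 : s = gg r D - p.1 := by rw [hs, hD]; rfl
  have e2 : t = D + p.1 - p.2.length := by rw [ht, hD]; rfl
  have f1 : p'.1 = p.1 := by rw [hp']; rfl
  have f2 : p'.2.length = D + p.1 := by
    rw [hp', pad_len]
    omega
  have f3 : p'.1 + s = gg r D := by omega
  have f4 : p'.2.length + s = gg r D + D := by omega
  have hss : ss r p'.2.length ≤ s := by
    have := ss_mono r (show p'.2.length ≤ 2 * D by omega)
    omega
  have f5 : tot p' = tot p := by rw [hp']; exact tot_pad p t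
  have hiso : Nonempty (Grp p' ≃* Grp p) := by rw [hp']; exact pad_iso hp t
  have hok' : Ok p' := by rw [hp']; exact pad_ok hp t
  have key := vote_s (A := A) hPr hQ hok' (hPr _ _ hiso hP) r K N.unpair.2 s hss
    (by rw [f3, f4, f5]; exact h3) (by rw [f3, f4]; exact h)
  unfold pn dn
  rw [← hs, ← ht, ← hp', ← f1]
  exact key.trans (hQ _ _ hiso)

/-! ### computability -/

theorem pad_primrec : Primrec (fun x : Pres × ℕ => pad x.1 x.2) := by
  have h1 : Primrec (fun x : Pres × ℕ => (List.range x.2).map (fun _ => ([] : Word))) :=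
    pmap (by fun_prop) (by fun_prop)
  have h2 : Primrec (fun x : Pres × ℕ =>
      (x.1.1, x.1.2 ++ (List.range x.2).map (fun _ => ([] : Word)))) :=
    ppair (by fun_prop) (pappend (by fun_prop) h1)
  refine h2.of_eq fun x => ?_
  unfold pad
  simp [List.map_const']

theorem gg_primrec (r : ℕ) : Primrec (fun D : ℕ => gg r D) := by
  unfold gg
  exact padd ((ss_primrec r).comp (by fun_prop)) (by fun_prop)

lemma pu1 : Primrec (fun N : ℕ => N.unpair.1) := Primrec.fst.comp Primrec.unpair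

lemma pu2 : Primrec (fun N : ℕ => N.unpair.2) := Primrec.snd.comp Primrec.unpair

theorem sn_primrec (r : ℕ) : Primrec (fun x : Pres × ℕ => sn r x.1 x.2) := by
  unfold sn
  have h1 : Primrec (fun x : Pres × ℕ => gg r x.2.unpair.1) :=
    (gg_primrec r).comp (pu1.comp Primrec.snd)
  exact psub h1 (by fun_prop)

theorem tn_primrec : Primrec (fun x : Pres × ℕ => tn x.1 x.2) := by
  unfold tn
  have h1 : Primrec (fun x : Pres × ℕ => x.2.unpair.1) := pu1.comp Primrec.snd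
  exact psub (padd h1 (by fun_prop)) (by fun_prop)

attribute [local irreducible] desc Pn ss pad tn sn gg

theorem dn_primrec (r : ℕ) : Primrec (fun x : Pres × ℕ × ℕ => dn r x.1 x.2.1 x.2.2) := by
  unfold dn
  have h0 : Primrec (fun x : Pres × ℕ × ℕ => (x.1, x.2.1)) := by fun_prop
  have h1 : Primrec (fun x : Pres × ℕ × ℕ => tn x.1 x.2.1) := tn_primrec.comp h0
  have h2 : Primrec (fun x : Pres × ℕ × ℕ => sn r x.1 x.2.1) := (sn_primrec r).comp h0
  have h3 : Primrec (fun x : Pres × ℕ × ℕ => pad x.1 (tn x.1 x.2.1)) :=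
    pad_primrec.comp (g := fun x : Pres × ℕ × ℕ => (x.1, tn x.1 x.2.1)) (ppair (by fun_prop) h1)
  have h4 : Primrec (fun x : Pres × ℕ × ℕ => x.2.1.unpair.2) := pu2.comp (by fun_prop)
  exact desc_primrec.comp (g := fun x : Pres × ℕ × ℕ =>
    (pad x.1 (tn x.1 x.2.1), x.2.1.unpair.2, sn r x.1 x.2.1, x.2.2))
    (ppair h3 (ppair h4 (ppair h2 (by fun_prop))))

theorem pn_primrec (r : ℕ) : Primrec (fun x : Pres × ℕ => pn r x.1 x.2) := by
  unfold pn
  have h4 : Primrec (fun x : Pres × ℕ => x.2.unpair.2) := pu2.comp (by fun_prop)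
  exact Pn_primrec.comp (g := fun x : Pres × ℕ => (x.1.1, x.2.unpair.2, sn r x.1 x.2))
    (ppair (by fun_prop) (ppair h4 (sn_primrec r)))

theorem okk_primrec (r : ℕ) : Primrec (fun x : ℕ × Pres × ℕ =>
    @decide (okk r x.1 x.2.1 x.2.2) (Classical.propDecidable _)) := by
  have h0 : Primrec (fun x : ℕ × Pres × ℕ => x.2.2.unpair.1) := pu1.comp (by fun_prop)
  have h1 : Primrec (fun x : ℕ × Pres × ℕ => x.2.2.unpair.2) := pu2.comp (by fun_prop)
  have h2 : Primrec (fun x : ℕ × Pres × ℕ => gg r x.2.2.unpair.1) := (gg_primrec r).comp h0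
  have h3 : Primrec (fun x : ℕ × Pres × ℕ => tot x.2.1) := tot_primrec.comp (by fun_prop)
  have q1 : Primrec (fun x : ℕ × Pres × ℕ => decide (x.2.1.1 ≤ x.2.2.unpair.1)) :=
    pble (by fun_prop) h0
  have q2 : Primrec (fun x : ℕ × Pres × ℕ =>
      decide (x.2.1.2.length ≤ x.2.2.unpair.1 + x.2.1.1)) :=
    pble (by fun_prop) (padd h0 (by fun_prop))
  have q3 : Primrec (fun x : ℕ × Pres × ℕ =>
      decide (r + 1 + x.1 + (2 * gg r x.2.2.unpair.1) ^
        (r * (gg r x.2.2.unpair.1 + x.2.2.unpair.1)) + 1 + tot x.2.1 ≤ x.2.2.unpair.2)) := by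
    refine pble (padd (padd (padd (by fun_prop) (ppow (pmul (pconst 2) h2)
      (pmul (pconst r) (padd h2 h0)))) (pconst 1)) h3) h1
  refine (pand q1 (pand q2 q3)).of_eq fun x => ?_
  rw [Bool.eq_iff_iff]
  simp only [Bool.and_eq_true, decide_eq_true_eq]
  rfl

lemma ev_ok (r : ℕ) (K : ℕ → ℕ) (p : Pres) : ∀ᶠ N in fil, okk r (K N.unpair.1) p N := by
  unfold fil
  rw [eventually_bind]
  filter_upwards [eventually_ge_atTop (p.1 + p.2.length)] with D hD
  rw [eventually_map]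
  filter_upwards [eventually_ge_atTop (r + 1 + K D + (2 * gg r D) ^ (r * (gg r D + D)) + 1 + tot p)]
    with L hL
  unfold okk
  simp only [Nat.unpair_pair]
  exact ⟨by omega, by omega, hL⟩

attribute [local irreducible] cnt dn pn okk

/-- the votes -/
lemma cF {α : Type} [Primcodable α] (r : ℕ) {A : ℕ × α × Pres → Bool} (hA : Computable A) :
    Computable (fun x : ℕ × (α × Pres) × ℕ => decide (pn r x.2.1.2 x.2.2 + 1 ≤
      2 * cnt (fun j => A (x.1, x.2.1.1, dn r x.2.1.2 x.2.2 j)) (pn r x.2.1.2 x.2.2))) := by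
  have c1 : Computable (fun x : ℕ × (α × Pres) × ℕ => pn r x.2.1.2 x.2.2) :=
    Computable.comp (f := fun x : Pres × ℕ => pn r x.1 x.2)
      (g := fun x : ℕ × (α × Pres) × ℕ => (x.2.1.2, x.2.2)) (pn_primrec r).to_comp
      ((Computable.snd.comp (Computable.fst.comp Computable.snd)).pair
        (Computable.snd.comp Computable.snd))
  have c2 : Computable (fun z : (ℕ × (α × Pres) × ℕ) × ℕ => dn r z.1.2.1.2 z.1.2.2 z.2) :=
    Computable.comp (f := fun x : Pres × ℕ × ℕ => dn r x.1 x.2.1 x.2.2)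
      (g := fun z : (ℕ × (α × Pres) × ℕ) × ℕ => (z.1.2.1.2, z.1.2.2, z.2)) (dn_primrec r).to_comp
      ((Computable.snd.comp (Computable.fst.comp (Computable.snd.comp Computable.fst))).pair
        ((Computable.snd.comp (Computable.snd.comp Computable.fst)).pair Computable.snd))
  have c3 : Computable (fun z : (ℕ × (α × Pres) × ℕ) × ℕ =>
      A (z.1.1, z.1.2.1.1, dn r z.1.2.1.2 z.1.2.2 z.2)) :=
    hA.comp ((Computable.fst.comp Computable.fst).pair
      ((Computable.fst.comp (Computable.fst.comp (Computable.snd.comp Computable.fst))).pair c2))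
  have c4 : Computable (fun x : ℕ × (α × Pres) × ℕ =>
      cnt (fun j => A (x.1, x.2.1.1, dn r x.2.1.2 x.2.2 j)) (pn r x.2.1.2 x.2.2)) :=
    cnt_comp (f := fun (x : ℕ × (α × Pres) × ℕ) j => A (x.1, x.2.1.1, dn r x.2.1.2 x.2.2 j)) c3 c1
  have h2 : Primrec (fun x : ℕ × ℕ => decide (x.1 + 1 ≤ 2 * x.2)) := by fun_prop
  exact Computable.comp (f := fun x : ℕ × ℕ => decide (x.1 + 1 ≤ 2 * x.2))
    (g := fun x : ℕ × (α × Pres) × ℕ => (pn r x.2.1.2 x.2.2,
      cnt (fun j => A (x.1, x.2.1.1, dn r x.2.1.2 x.2.2 j)) (pn r x.2.1.2 x.2.2)))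
    h2.to_comp (c1.pair c4)

/-- **Bounded advice and few errors for questions on groups.** -/
theorem advice {α : Type} [Primcodable α] (k r : ℕ) {A : ℕ × α × Pres → Bool}
    {K : α × ℕ × ℕ → ℕ} (hA : Computable A) (hK : Computable K) {Pr Q : α → Pres → Prop}
    (hPr : ∀ y (p q : Pres), Nonempty (Grp p ≃* Grp q) → Pr y q → Pr y p)
    (hQ : ∀ y (p q : Pres), Nonempty (Grp p ≃* Grp q) → (Q y p ↔ Q y q))
    (h : ∀ n m L, ∃ i < k, ∀ y, (Bad (fun p => A (i, y, p)) (Pr y) (Q y) n m L).encard ^ (r + 1)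
      ≤ ((K (y, n, m) * (2 * n) ^ (r * m * L) : ℕ) : ℕ∞)) :
    ∃ D : α × Pres →. Bool, Partrec D ∧ ∀ x, (Ok x.2 ∧ Pr x.1 x.2) →
      ∃ b, D x = Part.some b ∧ (b = true ↔ Q x.1 x.2) := by
  classical
  obtain ⟨K', hK'⟩ : ∃ K' : (α × Pres) → ℕ → ℕ,
    K' = fun x D => K (x.1, gg r D, gg r D + D) := ⟨_, rfl⟩
  have h0 : Computable (fun x : (α × Pres) × ℕ => x.2.unpair.1) :=
    Computable.comp (f := fun N : ℕ => N.unpair.1) (g := fun x : (α × Pres) × ℕ => x.2)
      pu1.to_comp Computable.snd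
  have h1 : Computable (fun x : (α × Pres) × ℕ => (gg r x.2.unpair.1, gg r x.2.unpair.1
      + x.2.unpair.1)) :=
    Computable.comp (f := fun D : ℕ => (gg r D, gg r D + D))
      (g := fun x : (α × Pres) × ℕ => x.2.unpair.1)
      (ppair (gg_primrec r) (padd (gg_primrec r) (by fun_prop))).to_comp h0
  have cK : Computable (fun x : (α × Pres) × ℕ => K' x.1 x.2.unpair.1) := by
    rw [hK']
    exact hK.comp ((Computable.fst.comp Computable.fst).pair h1)
  have cadm : Computable (fun x : (α × Pres) × ℕ =>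
      @decide (okk r (K' x.1 x.2.unpair.1) x.1.2 x.2) (Classical.propDecidable _)) :=
    Computable.comp (f := fun x : ℕ × Pres × ℕ =>
      @decide (okk r x.1 x.2.1 x.2.2) (Classical.propDecidable _))
      (g := fun x : (α × Pres) × ℕ => (K' x.1 x.2.unpair.1, x.1.2, x.2)) (okk_primrec r).to_comp
      (cK.pair ((Computable.snd.comp Computable.fst).pair Computable.snd))
  refine core (X := α × Pres) (P := fun x => Ok x.2 ∧ Pr x.1 x.2) (T := fun x => Q x.1 x.2)
    (k := k) (cF r hA) cadm fil ?_ ?_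
  · intro x _
    filter_upwards [ev_ok r (K' x) x.2] with N hN
    exact decide_eq_true hN
  · intro N
    obtain ⟨i, hi, hi2⟩ := h (gg r N.unpair.1) (gg r N.unpair.1 + N.unpair.1) (N.unpair.2 + 1)
    refine ⟨i, hi, fun x hx hp => ?_⟩
    have hok : okk r (K' x N.unpair.1) x.2 N := of_decide_eq_true hp
    rw [hK'] at hok
    have h5 := vote_ok (A := fun p => A (i, x.1, p)) (hPr x.1) (hQ x.1) hx.1 hx.2 r _ N hok
      (hi2 x.1)
    refine Iff.trans ?_ h5
    exact decide_eq_true_iff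

end Pool.Agent.Q287.BA.Tz
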