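import Mathlib
import Pool.Agent.Q287.BA.Tz
import Pool.Agent.Q287.BA.Part

/-!
# Bounded advice and few errors for algorithms which need not halt: questions on groups
-/

set_option autoImplicit false

namespace Pool.Agent.Q287.BA.Tz

open Filter Encodable Pool.Agent.Q324.SC Pool.Agent.Q324.SC.Tz

lemma few {Gd Pr : Pres → Prop} (hPr : ∀ p q : Pres, Nonempty (Grp p ≃* Grp q) → Pr q → Pr p)
    {p : Pres} (hp : Ok p) (hP : Pr p) (r K L s : ℕ) (hs : ss r p.2.length ≤ s)
    (hL : r + 1 + K + (2 * (p.1 + s)) ^ (r * (p.2.length + s)) + 1 + tot p ≤ L)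
    (h : {p' | p' ∈ Pool.Agent.Q324.SC.Tz.Box (p.1 + s) (p.2.length + s) (L + 1) ∧ Pr p' ∧ ¬ Gd p'}.encard ^ (r + 1)
      ≤ ((K * (2 * (p.1 + s)) ^ (r * (p.2.length + s) * (L + 1)) : ℕ) : ℕ∞))
    [DecidablePred fun k => ¬ Gd (desc p L s k).1] :
    2 * ((Finset.range (Pn p.1 L s)).filter (fun k => ¬ Gd (desc p L s k).1)).card
      < Pn p.1 L s := by
  have hL2 : ∀ w ∈ p.2, w.length ≤ L + 1 := by
    intro w hw
    have := le_tot hw
    omega
  obtain ⟨W, hW⟩ : ∃ W, W = (Finset.range (Pn p.1 L s)).filter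
    (fun k => ¬ Gd (desc p L s k).1) := ⟨_, rfl⟩
  rw [← hW]
  have g1 : (W.card : ℕ∞) ≤ {p' | p' ∈ Pool.Agent.Q324.SC.Tz.Box (p.1 + s) (p.2.length + s) (L + 1) ∧ Pr p' ∧
      ¬ Gd p'}.encard := by
    rw [← Set.encard_coe_eq_coe_finsetCard]
    have h3 : Set.InjOn (fun k => (desc p L s k).1) (W : Set ℕ) := by
      intro k hk k' hk' hkk
      rw [hW, Finset.mem_coe, Finset.mem_filter, Finset.mem_range] at hk hk'
      have := desc_inj hp hL2 s k k' hkk
      rwa [Nat.mod_eq_of_lt hk.1, Nat.mod_eq_of_lt hk'.1] at this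
    rw [← h3.encard_image]
    refine Set.encard_le_encard ?_
    rintro _ ⟨k, hk, rfl⟩
    rw [hW, Finset.mem_coe, Finset.mem_filter, Finset.mem_range] at hk
    obtain ⟨h4, h5, _⟩ := desc_basic hp hL2 s k
    exact ⟨h4, hPr _ _ h5 hP, hk.2⟩
  have g2 : W.card ^ (r + 1) ≤ K * (2 * (p.1 + s)) ^ (r * (p.2.length + s) * (L + 1)) := by
    have := (pow_le_pow_left' g1 (r + 1)).trans h
    exact_mod_cast this
  exact num' r p.1 p.2.length s hp.1 hs (by omega) g2

lemma dn_iso {p : Pres} (hp : Ok p) (r K N : ℕ) (hok : okk r K p N) (j : ℕ) :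
    Nonempty (Grp (dn r p N j) ≃* Grp p) := by
  obtain ⟨h1, h2, h3⟩ := hok
  have hL2 : ∀ w ∈ (pad p (tn p N)).2, w.length ≤ N.unpair.2 + 1 := by
    intro w hw
    have := le_tot hw
    rw [tot_pad] at this
    omega
  obtain ⟨_, ⟨e⟩, _⟩ := desc_basic (pad_ok hp (tn p N)) hL2 (sn r p N) j
  obtain ⟨e'⟩ := pad_iso hp (tn p N)
  exact ⟨e.trans e'⟩

lemma few_ok {Gd Pr : Pres → Prop} (hPr : ∀ p q : Pres, Nonempty (Grp p ≃* Grp q) → Pr q → Pr p)
    {p : Pres} (hp : Ok p) (hP : Pr p) (r K N : ℕ) (hok : okk r K p N)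
    (h : {p' | p' ∈ Pool.Agent.Q324.SC.Tz.Box (gg r N.unpair.1) (gg r N.unpair.1 + N.unpair.1) (N.unpair.2 + 1) ∧
        Pr p' ∧ ¬ Gd p'}.encard ^ (r + 1)
      ≤ ((K * (2 * gg r N.unpair.1) ^ (r * (gg r N.unpair.1 + N.unpair.1) * (N.unpair.2 + 1)) : ℕ)
        : ℕ∞)) [inst : DecidablePred fun j => ¬ Gd (dn r p N j)] :
    2 * ((Finset.range (pn r p N)).filter (fun j => ¬ Gd (dn r p N j))).card < pn r p N := by
  obtain ⟨h1, h2, h3⟩ := hok
  obtain ⟨D, hD⟩ : ∃ D, D = N.unpair.1 := ⟨_, rfl⟩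
  rw [← hD] at h1 h2 h3 h
  have e0 : gg r D = ss r (2 * D) + D := rfl
  have e1 : sn r p N = gg r D - p.1 := by rw [hD]; rfl
  have e2 : tn p N = D + p.1 - p.2.length := by rw [hD]; rfl
  have f1 : (pad p (tn p N)).1 = p.1 := rfl
  have f2 : (pad p (tn p N)).2.length = D + p.1 := by
    rw [pad_len]
    omega
  have f3 : (pad p (tn p N)).1 + sn r p N = gg r D := by omega
  have f4 : (pad p (tn p N)).2.length + sn r p N = gg r D + D := by omega
  have hss : ss r (pad p (tn p N)).2.length ≤ sn r p N := by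
    have := ss_mono r (show (pad p (tn p N)).2.length ≤ 2 * D by omega)
    omega
  have f5 : tot (pad p (tn p N)) = tot p := tot_pad p _
  have hiso : Nonempty (Grp (pad p (tn p N)) ≃* Grp p) := pad_iso hp _
  have hok' : Ok (pad p (tn p N)) := pad_ok hp _
  exact @few Gd Pr hPr (pad p (tn p N)) hok' (hPr _ _ hiso hP) r K N.unpair.2 (sn r p N) hss
    (by rw [f3, f4, f5]; exact h3) (by rw [f3, f4]; exact h) inst

/-! ### the staged vote -/

/-- the majority among the values known -/
def maj (a : ℕ → Option Bool) (M : ℕ) : Option Bool :=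
  bif decide (M + 1 ≤ 2 * cnt (fun j => decide (a j = some true)) M) then some true
  else bif decide (M + 1 ≤ 2 * cnt (fun j => decide (a j = some false)) M) then some false
  else none

lemma cnt_card (a : ℕ → Option Bool) (b : Bool) (M : ℕ) :
    cnt (fun j => decide (a j = some b)) M
      = ((Finset.range M).filter (fun j => a j = some b)).card := by
  rw [cnt_eq]
  congr 1
  ext j
  simp

lemma cnt_add (a : ℕ → Option Bool) (M : ℕ) :
    cnt (fun j => decide (a j = some true)) M + cnt (fun j => decide (a j = some false)) M ≤ M := by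
  rw [cnt_card, cnt_card, ← Finset.card_union_of_disjoint]
  · calc _ ≤ (Finset.range M).card := Finset.card_le_card (by
          intro j hj
          rw [Finset.mem_union, Finset.mem_filter, Finset.mem_filter] at hj
          rcases hj with hj | hj
          · exact hj.1
          · exact hj.1)
      _ = M := Finset.card_range M
  · rw [Finset.disjoint_left]
    intro j hj hj2
    rw [Finset.mem_filter] at hj hj2
    have := hj.2.symm.trans hj2.2
    exact absurd (Option.some.inj this) (by decide)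

lemma maj_iff (a : ℕ → Option Bool) (M : ℕ) (b : Bool) :
    maj a M = some b ↔ M + 1 ≤ 2 * cnt (fun j => decide (a j = some b)) M := by
  have h := cnt_add a M
  unfold maj
  by_cases h1 : M + 1 ≤ 2 * cnt (fun j => decide (a j = some true)) M
  · rw [decide_eq_true h1, cond_true]
    cases b
    · constructor
      · intro h2
        exact absurd (Option.some.inj h2) (by decide)
      · intro h2
        omega
    · exact ⟨fun _ => h1, fun _ => rfl⟩
  · rw [decide_eq_false h1, cond_false]
    by_cases h2 : M + 1 ≤ 2 * cnt (fun j => decide (a j = some false)) M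
    · rw [decide_eq_true h2, cond_true]
      cases b
      · exact ⟨fun _ => h2, fun _ => rfl⟩
      · constructor
        · intro h3
          exact absurd (Option.some.inj h3) (by decide)
        · intro h3
          omega
    · rw [decide_eq_false h2, cond_false]
      cases b
      · exact ⟨fun h3 => by simp at h3, fun h3 => absurd h3 h2⟩
      · exact ⟨fun h3 => by simp at h3, fun h3 => absurd h3 h1⟩

lemma maj_mono {a a' : ℕ → Option Bool} {M : ℕ} {b : Bool}
    (h : ∀ j < M, ∀ b, a j = some b → a' j = some b) (h1 : maj a M = some b) :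
    maj a' M = some b := by
  rw [maj_iff] at h1 ⊢
  refine h1.trans (Nat.mul_le_mul_left _ ?_)
  rw [cnt_card, cnt_card]
  refine Finset.card_le_card ?_
  intro j hj
  rw [Finset.mem_filter, Finset.mem_range] at hj ⊢
  exact ⟨hj.1, h j hj.1 b hj.2⟩

lemma maj_few {a : ℕ → Option Bool} {M : ℕ} {b : Bool} {W : Finset ℕ} (hW : 2 * W.card < M)
    (h : ∀ j < M, j ∉ W → a j = some b) : maj a M = some b := by
  rw [maj_iff, cnt_card]
  have h1 : Finset.range M ⊆ (Finset.range M).filter (fun j => a j = some b) ∪ W := by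
    intro j hj
    rw [Finset.mem_union, Finset.mem_filter]
    by_cases hjW : j ∈ W
    · exact Or.inr hjW
    · exact Or.inl ⟨hj, h j (Finset.mem_range.1 hj) hjW⟩
  have h2 := (Finset.card_le_card h1).trans (Finset.card_union_le _ _)
  rw [Finset.card_range] at h2
  omega

theorem maj_comp {α : Type} [Primcodable α] {f : α → ℕ → Option Bool} {m : α → ℕ}
    (hf : Computable (fun x : α × ℕ => f x.1 x.2)) (hm : Computable m) :
    Computable (fun a => maj (f a) (m a)) := by
  have h1 : ∀ b : Bool, Computable (fun a => cnt (fun j => decide (f a j = some b)) (m a)) :=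
    fun b => cnt_comp (f := fun a j => decide (f a j = some b)) (Partial.obeq_comp hf (some b)) hm
  have h2 : Primrec (fun x : ℕ × ℕ => decide (x.1 + 1 ≤ 2 * x.2)) := by fun_prop
  have h3 : ∀ b : Bool, Computable (fun a =>
      decide (m a + 1 ≤ 2 * cnt (fun j => decide (f a j = some b)) (m a))) := fun b =>
    Computable.comp (f := fun x : ℕ × ℕ => decide (x.1 + 1 ≤ 2 * x.2))
      (g := fun a => (m a, cnt (fun j => decide (f a j = some b)) (m a))) h2.to_comp
      (hm.pair (h1 b))
  unfold maj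
  exact Computable.cond (h3 true) (Computable.const _)
    (Computable.cond (h3 false) (Computable.const _) (Computable.const _))

/-! ### one sequence of sizes -/

/-- sum of the values for the codes less than `n` -/
def sm {X : Type} [Primcodable X] (v : X × ℕ → ℕ) (N n : ℕ) : ℕ :=
  Nat.rec (motive := fun _ => ℕ) 0
    (fun c a => a + Option.casesOn (decode (α := X) c) 0 (fun x => v (x, N))) n

lemma sm_succ {X : Type} [Primcodable X] (v : X × ℕ → ℕ) (N n : ℕ) :
    sm v N (n + 1) = sm v N n + Option.casesOn (decode (α := X) n) 0 (fun x => v (x, N)) := rfl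

lemma le_sm {X : Type} [Primcodable X] (v : X × ℕ → ℕ) (N : ℕ) (x : X) (n : ℕ)
    (h : encode x < n) : v (x, N) ≤ sm v N n := by
  induction n with
  | zero => omega
  | succ n ih =>
    rw [sm_succ]
    rcases Nat.lt_succ_iff_lt_or_eq.1 h with h1 | h1
    · exact (ih h1).trans (Nat.le_add_right _ _)
    · rw [← h1, encodek]
      exact Nat.le_add_left _ _

lemma sm_comp {X : Type} [Primcodable X] {v : X × ℕ → ℕ} (hv : Computable v) :
    Computable (fun N : ℕ => sm v N (N + 1)) := by
  refine Computable.nat_rec (f := fun N : ℕ => N + 1) (g := fun _ => 0)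
    (h := fun N (y : ℕ × ℕ) => y.2 +
      Option.casesOn (decode (α := X) y.1) 0 (fun x => v (x, N)))
    Primrec.succ.to_comp (Computable.const 0) ?_
  have h1 : Computable (fun z : ℕ × ℕ × ℕ =>
      (Option.casesOn (decode (α := X) z.2.1) 0 (fun x => v (x, z.1)) : ℕ)) := by
    refine Computable.option_casesOn (o := fun z : ℕ × ℕ × ℕ => decode (α := X) z.2.1)
      (f := fun _ => 0) (g := fun z x => v (x, z.1)) ?_ (Computable.const 0) ?_
    · exact Computable.decode.comp (Computable.fst.comp Computable.snd)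
    · exact hv.comp (Computable.snd.pair (Computable.fst.comp Computable.fst))
  exact Primrec.nat_add.to_comp.comp (Computable.snd.comp Computable.snd) h1

/-! ### the theorem -/

/-- The presentations with `n` generators and `m` relators, each of length at most `L`, of groups
with the property `Pr`, for which `A` does not halt or does not give the answer to `Q`. -/
def BadP (A : Pres →. Bool) (Pr Q : Pres → Prop) (n m L : ℕ) : Set Pres :=
  {p | p ∈ Pool.Agent.Q324.SC.Tz.Box n m L ∧ Pr p ∧ ¬ ∃ b ∈ A p, (b = true ↔ Q p)}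

attribute [local irreducible] desc Pn ss pad tn sn gg cnt dn pn okk sm maj

/-- **Bounded advice and few errors for questions on groups**, for algorithms which need not
halt. -/
theorem advicep {α : Type} [Primcodable α] (k r : ℕ) {A : ℕ × α × Pres →. Bool}
    {K : α × ℕ × ℕ → ℕ} (hA : Partrec A) (hK : Computable K) {Pr Q : α → Pres → Prop}
    (hPr : ∀ y (p q : Pres), Nonempty (Grp p ≃* Grp q) → Pr y q → Pr y p)
    (hQ : ∀ y (p q : Pres), Nonempty (Grp p ≃* Grp q) → (Q y p ↔ Q y q))
    (h : ∀ n m L, ∃ i < k, ∀ y, (BadP (fun p => A (i, y, p)) (Pr y) (Q y) n m L).encard ^ (r + 1)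
      ≤ ((K (y, n, m) * (2 * n) ^ (r * m * L) : ℕ) : ℕ∞)) :
    ∃ D : α × Pres →. Bool, Partrec D ∧ ∀ x, (Ok x.2 ∧ Pr x.1 x.2) →
      ∃ b, D x = Part.some b ∧ (b = true ↔ Q x.1 x.2) := by
  classical
  obtain ⟨st, cst, mst, vst⟩ := Partial.stages hA
  obtain ⟨K', hK'⟩ : ∃ K' : (α × Pres) × ℕ → ℕ,
    K' = fun x => K (x.1.1, gg r x.2, gg r x.2 + x.2) := ⟨_, rfl⟩
  have h1 : Computable (fun x : (α × Pres) × ℕ => (gg r x.2, gg r x.2 + x.2)) :=
    Computable.comp (f := fun D : ℕ => (gg r D, gg r D + D))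
      (g := fun x : (α × Pres) × ℕ => x.2)
      (ppair (gg_primrec r) (padd (gg_primrec r) (by fun_prop))).to_comp Computable.snd
  have cK : Computable K' := by
    rw [hK']
    exact hK.comp ((Computable.fst.comp Computable.fst).pair h1)
  -- the lengths
  obtain ⟨v, hv⟩ : ∃ v : (α × Pres) × ℕ → ℕ, v = fun x =>
    r + 1 + K' x + (2 * gg r x.2) ^ (r * (gg r x.2 + x.2)) + 1 + tot x.1.2 := ⟨_, rfl⟩
  have cv : Computable v := by
    rw [hv]
    have e1 : Primrec (fun z : ℕ × Pres × ℕ =>
        r + 1 + z.1 + (2 * gg r z.2.2) ^ (r * (gg r z.2.2 + z.2.2)) + 1 + tot z.2.1) := by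
      have g1 : Primrec (fun z : ℕ × Pres × ℕ => gg r z.2.2) := (gg_primrec r).comp (by fun_prop)
      have g2 : Primrec (fun z : ℕ × Pres × ℕ => tot z.2.1) := tot_primrec.comp (by fun_prop)
      exact padd (padd (padd (by fun_prop) (ppow (pmul (pconst 2) g1)
        (pmul (pconst r) (padd g1 (by fun_prop))))) (pconst 1)) g2
    exact Computable.comp (f := fun z : ℕ × Pres × ℕ =>
        r + 1 + z.1 + (2 * gg r z.2.2) ^ (r * (gg r z.2.2 + z.2.2)) + 1 + tot z.2.1)
      (g := fun x : (α × Pres) × ℕ => (K' x, x.1.2, x.2)) e1.to_comp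
      (cK.pair ((Computable.snd.comp Computable.fst).pair Computable.snd))
  obtain ⟨J, hJ⟩ : ∃ J : ℕ → ℕ, J = fun N => Nat.pair N (sm v N (N + 1)) := ⟨_, rfl⟩
  have cJ : Computable J := by
    rw [hJ]
    exact Primrec₂.natPair.to_comp.comp Computable.id (sm_comp cv)
  have J1 : ∀ N, (J N).unpair.1 = N := by
    intro N
    rw [hJ]
    simp
  have J2 : ∀ N, (J N).unpair.2 = sm v N (N + 1) := by
    intro N
    rw [hJ]
    simp
  have cJ' : Computable (fun x : (α × Pres) × ℕ => J x.2) := cJ.comp Computable.snd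
  have cadm : Computable (fun x : (α × Pres) × ℕ =>
      @decide (okk r (K' x) x.1.2 (J x.2)) (Classical.propDecidable _)) :=
    Computable.comp (f := fun x : ℕ × Pres × ℕ =>
      @decide (okk r x.1 x.2.1 x.2.2) (Classical.propDecidable _))
      (g := fun x : (α × Pres) × ℕ => (K' x, x.1.2, J x.2)) (okk_primrec r).to_comp
      (cK.pair ((Computable.snd.comp Computable.fst).pair cJ'))
  -- the votes
  obtain ⟨V, hV⟩ : ∃ V : (ℕ × ℕ) × (α × Pres) × ℕ → Option Bool, V = fun z =>
    maj (fun j => st (z.1.1, (z.1.2, z.2.1.1, dn r z.2.1.2 (J z.2.2) j)))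
      (pn r z.2.1.2 (J z.2.2)) := ⟨_, rfl⟩
  have cp : Computable (fun z : (ℕ × ℕ) × (α × Pres) × ℕ => z.2.1.2) :=
    Computable.snd.comp (Computable.fst.comp Computable.snd)
  have cJz : Computable (fun z : (ℕ × ℕ) × (α × Pres) × ℕ => J z.2.2) :=
    cJ.comp (Computable.snd.comp Computable.snd)
  have cpn : Computable (fun z : (ℕ × ℕ) × (α × Pres) × ℕ => pn r z.2.1.2 (J z.2.2)) :=
    Computable.comp (f := fun x : Pres × ℕ => pn r x.1 x.2)
      (g := fun z : (ℕ × ℕ) × (α × Pres) × ℕ => (z.2.1.2, J z.2.2)) (pn_primrec r).to_comp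
      (cp.pair cJz)
  have cdn : Computable (fun w : ((ℕ × ℕ) × (α × Pres) × ℕ) × ℕ =>
      dn r w.1.2.1.2 (J w.1.2.2) w.2) :=
    Computable.comp (f := fun x : Pres × ℕ × ℕ => dn r x.1 x.2.1 x.2.2)
      (g := fun w : ((ℕ × ℕ) × (α × Pres) × ℕ) × ℕ => (w.1.2.1.2, J w.1.2.2, w.2))
      (dn_primrec r).to_comp
      ((cp.comp Computable.fst).pair ((cJz.comp Computable.fst).pair Computable.snd))
  have cV : Computable V := by
    rw [hV]
    refine maj_comp (f := fun (z : (ℕ × ℕ) × (α × Pres) × ℕ) j =>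
      st (z.1.1, (z.1.2, z.2.1.1, dn r z.2.1.2 (J z.2.2) j))) ?_ cpn
    exact cst.comp ((Computable.fst.comp (Computable.fst.comp Computable.fst)).pair
      ((Computable.snd.comp (Computable.fst.comp Computable.fst)).pair
        ((Computable.fst.comp (Computable.fst.comp (Computable.snd.comp Computable.fst))).pair
          cdn)))
  refine Partial.corep (X := α × Pres) (P := fun x => Ok x.2 ∧ Pr x.1 x.2)
    (T := fun x => Q x.1 x.2) (k := k) cV cadm ?_ ?_ ?_
  · intro s s' i x N b hs hb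
    rw [hV] at hb ⊢
    exact maj_mono (fun j _ b hj => mst s s' _ b hs hj) hb
  · intro x _
    filter_upwards [eventually_ge_atTop (encode x + x.2.1 + x.2.2.length)] with N hN
    refine decide_eq_true ?_
    have e1 : v (x, N) ≤ sm v N (N + 1) := le_sm v N x (N + 1) (by omega)
    rw [hv] at e1
    have e2 : okk r (K' (x, N)) x.2 (J N) ↔ x.2.1 ≤ (J N).unpair.1 ∧
      x.2.2.length ≤ (J N).unpair.1 + x.2.1 ∧
      r + 1 + K' (x, N) + (2 * gg r (J N).unpair.1) ^ (r * (gg r (J N).unpair.1 + (J N).unpair.1))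
        + 1 + tot x.2 ≤ (J N).unpair.2 := by
      unfold okk
      exact Iff.rfl
    rw [e2, J1, J2]
    refine ⟨by omega, by omega, ?_⟩
    rw [hv]
    exact e1
  · intro N
    obtain ⟨i, hi, hi2⟩ := h (gg r N) (gg r N + N) ((J N).unpair.2 + 1)
    refine ⟨i, hi, fun x hx hp => ?_⟩
    have hok : okk r (K' (x, N)) x.2 (J N) := of_decide_eq_true hp
    obtain ⟨W, hW⟩ : ∃ W, W = (Finset.range (pn r x.2 (J N))).filter (fun j =>
      ¬ ∃ b ∈ A (i, x.1, dn r x.2 (J N) j), (b = true ↔ Q x.1 (dn r x.2 (J N) j))) := ⟨_, rfl⟩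
    have hW2 : 2 * W.card < pn r x.2 (J N) := by
      rw [hW]
      refine few_ok (Gd := fun p' => ∃ b ∈ A (i, x.1, p'), (b = true ↔ Q x.1 p'))
        (hPr x.1) hx.1 hx.2 r (K' (x, N)) (J N) hok ?_
      rw [J1]
      have := hi2 x.1
      rw [hK']
      exact this
    -- the values are right outside of `W`
    have hval : ∀ j < pn r x.2 (J N), j ∉ W →
        ∃ s, st (s, (i, x.1, dn r x.2 (J N) j)) = some (decide (Q x.1 x.2)) := by
      intro j hj hjW
      rw [hW, Finset.mem_filter, Finset.mem_range] at hjW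
      have e1 : ∃ b ∈ A (i, x.1, dn r x.2 (J N) j), (b = true ↔ Q x.1 (dn r x.2 (J N) j)) := by
        by_contra hcon
        exact hjW ⟨hj, hcon⟩
      obtain ⟨b, hb, hb2⟩ := e1
      rw [hQ x.1 _ _ (dn_iso hx.1 r (K' (x, N)) (J N) hok j)] at hb2
      have e2 : b = decide (Q x.1 x.2) := by
        rw [Bool.eq_iff_iff, decide_eq_true_eq]
        exact hb2
      rw [e2] at hb
      exact (vst _ _).2 hb
    choose! sj hsj using hval
    refine ⟨(Finset.range (pn r x.2 (J N))).sup sj, decide (Q x.1 x.2), ?_, by simp⟩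
    rw [hV]
    refine maj_few hW2 fun j hj hjW => ?_
    exact mst (sj j) _ _ _ (Finset.le_sup (f := sj) (Finset.mem_range.2 hj)) (hsj j hj hjW)

end Pool.Agent.Q287.BA.Tz
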