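import Mathlib
import Pool.Agent.Q287.BA.Tri2
import Pool.Agent.Q287.BA.Tz2

/-!
# Bounded advice and few errors for algorithms which need not halt: complexes
-/

set_option autoImplicit false

namespace Pool.Agent.Q287.BA.Partial

open Filter

/-- Bounded advice with finitely many classes of inputs. -/
theorem corep_classes {X : Type} [Primcodable X] {P T : X → Prop} {k q : ℕ} {ρ : X → ℕ}
    (hρ : Computable ρ) (hρq : ∀ x, P x → ρ x < q) {adm : X × ℕ → Bool}
    {F : (ℕ × ℕ) × X × ℕ → Option Bool} (hF : Computable F) (hadm : Computable adm)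
    (hmono : ∀ s s' i x N b, s ≤ s' → F ((s, i), x, N) = some b → F ((s', i), x, N) = some b)
    (hl : ∀ x, P x → ∀ᶠ N in atTop, adm (x, N) = true)
    (h : ∀ r < q, ∀ N, ∃ i < k, ∀ x, P x → ρ x = r → adm (x, N) = true →
      ∃ s b, F ((s, i), x, N) = some b ∧ (b = true ↔ T x)) :
    ∃ D : X →. Bool, Partrec D ∧ ∀ x, P x → ∃ b, D x = Part.some b ∧ (b = true ↔ T x) := by
  have h1 : ∀ r, ∃ D : X →. Bool, r < q → Partrec D ∧
      ∀ x, P x → ρ x = r → ∃ b, D x = Part.some b ∧ (b = true ↔ T x) := by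
    intro r
    by_cases hr : r < q
    · obtain ⟨D, hD, hD2⟩ := corep (P := fun x => P x ∧ ρ x = r) (T := T) hF hadm hmono
        (fun x hx => hl x hx.1) (fun N => by
          obtain ⟨i, hi, hi2⟩ := h r hr N
          exact ⟨i, hi, fun x hx hx2 => hi2 x hx.1 hx.2 hx2⟩)
      exact ⟨D, fun _ => ⟨hD, fun x hx hx2 => hD2 x ⟨hx, hx2⟩⟩⟩
    · exact ⟨fun _ => Part.none, fun h => absurd h hr⟩
  choose D hD using h1
  obtain ⟨E, hE, hE2⟩ := combine q hρ fun r hr => (hD r hr).1
  refine ⟨E, hE, fun x hx => ?_⟩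
  rw [hE2 x (hρq x hx)]
  exact (hD (ρ x) (hρq x hx)).2 x hx rfl

end Pool.Agent.Q287.BA.Partial

namespace Pool.Agent.Q287.BA.Tri

open Nat Filter Pool.Agent.Q324.SC Pool.Agent.Q324.SC.Tri

lemma maj_many {a : ℕ → Option Bool} {g : ℕ → Bool} {M : ℕ} {b : Bool} (h : M < 2 * cnt g M)
    (h2 : ∀ j < M, g j = true → a j = some b) : Tz.maj a M = some b := by
  rw [Tz.maj_iff, Tz.cnt_card]
  rw [cnt_eq] at h
  have : ((Finset.range M).filter (fun k => g k = true)).card
      ≤ ((Finset.range M).filter (fun j => a j = some b)).card := Finset.card_le_card (by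
    intro j hj
    rw [Finset.mem_filter, Finset.mem_range] at hj ⊢
    exact ⟨hj.1, h2 j hj.1 hj.2⟩)
  omega

lemma votep {β : Type} {st : ℕ × β → Option Bool}
    (mst : ∀ s s' a b, s ≤ s' → st (s, a) = some b → st (s', a) = some b) {M : ℕ} {e : ℕ → β}
    {g : ℕ → Bool} {b : Bool} (h : M < 2 * cnt g M)
    (hg : ∀ j < M, g j = true → ∃ s, st (s, e j) = some b) :
    ∃ s, Tz.maj (fun j => st (s, e j)) M = some b := by
  choose! sj hsj using hg
  refine ⟨(Finset.range M).sup sj, maj_many h fun j hj hg => ?_⟩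
  exact mst (sj j) _ _ _ (Finset.le_sup (f := sj) (Finset.mem_range.2 hj)) (hsj j hj hg)

/-- The failures of `A`: it does not halt or gives the wrong answer. -/
def BadP (A : Cx →. Bool) (Pr Q : Cx → Prop) (N : ℕ) : Set (Finset (List ℕ)) :=
  {S | ∃ K, Valid K ∧ K.length = N ∧ Pr K ∧ K.toFinset = S ∧ ¬ ∃ b ∈ A K, (b = true ↔ Q K)}

/-- The failures of `A` for pairs. -/
def BadP2 (A : Cx × Cx →. Bool) (Pr Q : Cx → Cx → Prop) (N N' : ℕ) :
    Set (Finset (List ℕ) × Finset (List ℕ)) :=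
  {S | ∃ K L, Valid K ∧ Valid L ∧ K.length = N ∧ L.length = N' ∧ Pr K L ∧ K.toFinset = S.1 ∧
    L.toFinset = S.2 ∧ ¬ ∃ b ∈ A (K, L), (b = true ↔ Q K L)}

attribute [local irreducible] desc P mm cnt pk Tz.maj

set_option maxHeartbeats 1000000 in
/-- **Bounded advice and few failures.** -/
theorem advicep (k C : ℕ) {A : ℕ × Cx →. Bool} (hA : Partrec A) {Pr Q : Cx → Prop}
    (hPr : ∀ K c, Valid K → c < K.length → Pr K → Pr (sub K c))
    (hQ : ∀ K c, Valid K → c < K.length → (Q (sub K c) ↔ Q K))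
    (h : ∀ N, ∃ i < k, (BadP (fun K => A (i, K)) Pr Q N).encard ≤ ((bound C N : ℕ) : ℕ∞)) :
    ∃ D : Cx →. Bool, Partrec D ∧
      ∀ K, Valid K → Pr K → ∃ b, D K = Part.some b ∧ (b = true ↔ Q K) := by
  classical
  obtain ⟨st, cst, mst, vst⟩ := Partial.stages hA
  have hQ2 : ∀ {K}, Valid K → ∀ m j, (Q (desc K m j).1 ↔ Q K) := by
    intro K hK m j
    by_cases h1 : Q K
    · exact iff_of_true (desc_inv (fun K c hK hc hq => (hQ K c hK hc).2 hq) hK h1 m j) h1
    · refine iff_of_false ?_ h1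
      exact desc_inv (Pr := fun K => ¬ Q K) (fun K c hK hc hq h2 => hq ((hQ K c hK hc).1 h2)) hK h1 m j
  obtain ⟨F, hF⟩ : ∃ F : (ℕ × ℕ) × Cx × ℕ → Option Bool, F = fun z =>
    Tz.maj (fun j => st (z.1.1, (z.1.2, (desc z.2.1 (z.2.2 - z.2.1.length / 4) j).1)))
      (P z.2.1.length (z.2.2 - z.2.1.length / 4)) := ⟨_, rfl⟩
  have pl : Primrec (fun x : (ℕ × ℕ) × Cx × ℕ => x.2.1.length) := by fun_prop
  have pm : Primrec (fun x : (ℕ × ℕ) × Cx × ℕ => x.2.2 - x.2.1.length / 4) := by fun_prop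
  have pP : Primrec (fun x : (ℕ × ℕ) × Cx × ℕ => P x.2.1.length (x.2.2 - x.2.1.length / 4)) :=
    P_primrec.comp (g := fun x : (ℕ × ℕ) × Cx × ℕ => (x.2.1.length, x.2.2 - x.2.1.length / 4))
      (ppair pl pm)
  have q : Primrec (fun z : ((ℕ × ℕ) × Cx × ℕ) × ℕ =>
      (z.1.2.1, z.1.2.2 - z.1.2.1.length / 4, z.2)) := by fun_prop
  have cd : Computable (fun z : ((ℕ × ℕ) × Cx × ℕ) × ℕ =>
      (desc z.1.2.1 (z.1.2.2 - z.1.2.1.length / 4) z.2).1) :=
    Computable.comp (f := fun x : Cx × ℕ × ℕ => (desc x.1 x.2.1 x.2.2).1)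
      (g := fun z : ((ℕ × ℕ) × Cx × ℕ) × ℕ => (z.1.2.1, z.1.2.2 - z.1.2.1.length / 4, z.2))
      desc_primrec.to_comp q.to_comp
  have cF : Computable F := by
    rw [hF]
    refine Tz.maj_comp (f := fun (z : (ℕ × ℕ) × Cx × ℕ) j =>
      st (z.1.1, (z.1.2, (desc z.2.1 (z.2.2 - z.2.1.length / 4) j).1))) ?_ pP.to_comp
    exact cst.comp ((Computable.fst.comp (Computable.fst.comp Computable.fst)).pair
      ((Computable.snd.comp (Computable.fst.comp Computable.fst)).pair cd))
  have hadm : Computable (fun x : Cx × ℕ => decide (x.1.length / 4 + mm x.1.length C ≤ x.2)) := by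
    have q1 : Primrec (fun x : Cx × ℕ => mm x.1.length C) :=
      mm_primrec.comp (g := fun x : Cx × ℕ => (x.1.length, C)) (by fun_prop)
    have q2 : Primrec (fun x : Cx × ℕ => x.1.length / 4 + mm x.1.length C) :=
      padd (by fun_prop) q1
    exact (pble q2 (by fun_prop)).to_comp
  obtain ⟨D, hD, hD2⟩ := Partial.corep_classes (X := Cx) (P := fun K => Valid K ∧ Pr K) (T := Q)
    (k := k) (q := 4) (ρ := fun K => K.length % 4)
    (by have : Primrec (fun K : Cx => K.length % 4) := by fun_prop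
        exact this.to_comp)
    (fun K _ => Nat.mod_lt _ (by norm_num))
    (adm := fun x : Cx × ℕ => decide (x.1.length / 4 + mm x.1.length C ≤ x.2)) cF hadm
    (by
      intro s s' i x N b hs hb
      rw [hF] at hb ⊢
      exact Tz.maj_mono (fun j _ b hj => mst s s' _ b hs hj) hb)
    (fun K _ => by
      filter_upwards [eventually_ge_atTop (K.length / 4 + mm K.length C)] with N hN
      exact decide_eq_true hN)
    (by
      intro r hr N
      obtain ⟨i, hi, hi2⟩ := h (4 * N + r)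
      refine ⟨i, hi, ?_⟩
      rintro K ⟨hK, hP⟩ hKr hadmK
      have hle : K.length / 4 + mm K.length C ≤ N := of_decide_eq_true hadmK
      have e1 : K.length + 4 * (N - K.length / 4) = 4 * N + r := by
        have := Nat.div_add_mod K.length 4
        change K.length % 4 = r at hKr
        omega
      have key := (vote_at (A := fun K' => decide (∃ b ∈ A (i, K'), (b = true ↔ Q K')))
        (Pr := Pr) (Q := fun _ => True) hPr (fun _ _ _ _ => Iff.rfl) hK hP (C := C)
        (m := N - K.length / 4) (by omega) (by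
          rw [e1]
          refine le_trans (Set.encard_le_encard ?_) hi2
          rintro S ⟨K', k1, k2, k3, k4, k5⟩
          refine ⟨K', k1, k2, k3, k4, fun k6 => k5 ?_⟩
          exact iff_of_true (decide_eq_true k6) trivial)).2 trivial
      obtain ⟨s, hs⟩ := votep (st := st) mst (b := decide (Q K))
        (e := fun j => (i, (desc K (N - K.length / 4) j).1)) key (by
          intro j _ hj
          obtain ⟨b, hb, hb2⟩ := of_decide_eq_true hj
          rw [hQ2 hK] at hb2
          have e2 : b = decide (Q K) := by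
            rw [Bool.eq_iff_iff, decide_eq_true_eq]
            exact hb2
          rw [e2] at hb
          exact (vst _ _).2 hb)
      exact ⟨s, decide (Q K), by rw [hF]; exact hs, by simp⟩)
  exact ⟨D, hD, fun K hK hP => hD2 K ⟨hK, hP⟩⟩

lemma pk_inv {Q : Cx → Cx → Prop}
    (hQ1 : ∀ L K c, Valid K → c < K.length → (Q (sub K c) L ↔ Q K L))
    (hQ2 : ∀ K L c, Valid L → c < L.length → (Q K (sub L c) ↔ Q K L))
    {K L : Cx} (hK : Valid K) (hL : Valid L) (m m' k k' : ℕ) :
    Q (desc K m k).1 (desc L m' k').1 ↔ Q K L := by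
  have inv : ∀ {Pr' : Cx → Cx → Prop},
      (∀ L K c, Valid K → c < K.length → Pr' K L → Pr' (sub K c) L) →
      (∀ K L c, Valid L → c < L.length → Pr' K L → Pr' K (sub L c)) →
      Pr' K L → ∀ k k', Pr' (desc K m k).1 (desc L m' k').1 := by
    intro Pr' a1 a2 a3 k k'
    have b1 : Pr' (desc K m k).1 L := desc_inv (Pr := fun K => Pr' K L) (a1 L) hK a3 m k
    exact desc_inv (Pr := fun L => Pr' (desc K m k).1 L) (fun L c => a2 _ L c) hL b1 m' k'
  by_cases h1 : Q K L
  · exact iff_of_true (inv (Pr' := Q) (fun L K c a b => (hQ1 L K c a b).2)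
      (fun K L c a b => (hQ2 K L c a b).2) h1 k k') h1
  · refine iff_of_false ?_ h1
    exact inv (Pr' := fun K L => ¬ Q K L) (fun L K c a b d e => d ((hQ1 L K c a b).1 e))
      (fun K L c a b d e => d ((hQ2 K L c a b).1 e)) h1 k k'

lemma pk_fst (K L : Cx) (m m' j : ℕ) : (pk K L m m' j).1 = (desc K m (j % P K.length m)).1 := by
  unfold pk
  rfl

lemma pk_snd (K L : Cx) (m m' j : ℕ) : (pk K L m m' j).2 = (desc L m' (j / P K.length m)).1 := by
  unfold pk
  rfl

set_option maxHeartbeats 1000000 in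
/-- **Bounded advice and few failures, pairs.** -/
theorem advicep2 (k C : ℕ) {A : ℕ × Cx × Cx →. Bool} (hA : Partrec A) {Pr Q : Cx → Cx → Prop}
    (hPr1 : ∀ L K c, Valid K → c < K.length → Pr K L → Pr (sub K c) L)
    (hPr2 : ∀ K L c, Valid L → c < L.length → Pr K L → Pr K (sub L c))
    (hQ1 : ∀ L K c, Valid K → c < K.length → (Q (sub K c) L ↔ Q K L))
    (hQ2 : ∀ K L c, Valid L → c < L.length → (Q K (sub L c) ↔ Q K L))
    (h : ∀ N N', ∃ i < k, (BadP2 (fun p => A (i, p)) Pr Q N N').encard ≤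
      ((bound C N * bound C N' : ℕ) : ℕ∞)) :
    ∃ D : Cx × Cx →. Bool, Partrec D ∧
      ∀ K L, Valid K → Valid L → Pr K L → ∃ b, D (K, L) = Part.some b ∧ (b = true ↔ Q K L) := by
  classical
  obtain ⟨st, cst, mst, vst⟩ := Partial.stages hA
  obtain ⟨F, hF⟩ : ∃ F : (ℕ × ℕ) × (Cx × Cx) × ℕ → Option Bool, F = fun z =>
    Tz.maj (fun j => st (z.1.1, (z.1.2, pk z.2.1.1 z.2.1.2 (z.2.2 - z.2.1.1.length / 4)
        (z.2.2 - z.2.1.2.length / 4) j)))
      (P z.2.1.1.length (z.2.2 - z.2.1.1.length / 4) *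
        P z.2.1.2.length (z.2.2 - z.2.1.2.length / 4)) := ⟨_, rfl⟩
  have pm : Primrec (fun x : (ℕ × ℕ) × (Cx × Cx) × ℕ => x.2.2 - x.2.1.1.length / 4) := by fun_prop
  have pm' : Primrec (fun x : (ℕ × ℕ) × (Cx × Cx) × ℕ => x.2.2 - x.2.1.2.length / 4) := by fun_prop
  have pP : Primrec (fun x : (ℕ × ℕ) × (Cx × Cx) × ℕ =>
      P x.2.1.1.length (x.2.2 - x.2.1.1.length / 4)) :=
    P_primrec.comp (g := fun x : (ℕ × ℕ) × (Cx × Cx) × ℕ =>
      (x.2.1.1.length, x.2.2 - x.2.1.1.length / 4)) (ppair (by fun_prop) pm)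
  have pP' : Primrec (fun x : (ℕ × ℕ) × (Cx × Cx) × ℕ =>
      P x.2.1.2.length (x.2.2 - x.2.1.2.length / 4)) :=
    P_primrec.comp (g := fun x : (ℕ × ℕ) × (Cx × Cx) × ℕ =>
      (x.2.1.2.length, x.2.2 - x.2.1.2.length / 4)) (ppair (by fun_prop) pm')
  have pPP := pmul pP pP'
  have q : Primrec (fun z : ((ℕ × ℕ) × (Cx × Cx) × ℕ) × ℕ =>
      (z.1.2.1.1, z.1.2.1.2, z.1.2.2 - z.1.2.1.1.length / 4,
        z.1.2.2 - z.1.2.1.2.length / 4, z.2)) := by fun_prop
  have cd : Computable (fun z : ((ℕ × ℕ) × (Cx × Cx) × ℕ) × ℕ =>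
      pk z.1.2.1.1 z.1.2.1.2 (z.1.2.2 - z.1.2.1.1.length / 4)
        (z.1.2.2 - z.1.2.1.2.length / 4) z.2) :=
    Computable.comp (f := fun x : Cx × Cx × ℕ × ℕ × ℕ =>
      pk x.1 x.2.1 x.2.2.1 x.2.2.2.1 x.2.2.2.2)
      (g := fun z : ((ℕ × ℕ) × (Cx × Cx) × ℕ) × ℕ =>
      (z.1.2.1.1, z.1.2.1.2, z.1.2.2 - z.1.2.1.1.length / 4,
        z.1.2.2 - z.1.2.1.2.length / 4, z.2)) pk_primrec.to_comp q.to_comp
  have cF : Computable F := by
    rw [hF]
    refine Tz.maj_comp (f := fun (z : (ℕ × ℕ) × (Cx × Cx) × ℕ) j =>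
      st (z.1.1, (z.1.2, pk z.2.1.1 z.2.1.2 (z.2.2 - z.2.1.1.length / 4)
        (z.2.2 - z.2.1.2.length / 4) j))) ?_ pPP.to_comp
    exact cst.comp ((Computable.fst.comp (Computable.fst.comp Computable.fst)).pair
      ((Computable.snd.comp (Computable.fst.comp Computable.fst)).pair cd))
  have q1 : Primrec (fun x : (Cx × Cx) × ℕ => mm x.1.1.length C) :=
    mm_primrec.comp (g := fun x : (Cx × Cx) × ℕ => (x.1.1.length, C)) (by fun_prop)
  have q1' : Primrec (fun x : (Cx × Cx) × ℕ => mm x.1.2.length C) :=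
    mm_primrec.comp (g := fun x : (Cx × Cx) × ℕ => (x.1.2.length, C)) (by fun_prop)
  have q2 : Primrec (fun x : (Cx × Cx) × ℕ => (x.1.1.length / 4 + mm x.1.1.length C) +
      (x.1.2.length / 4 + mm x.1.2.length C)) :=
    padd (padd (by fun_prop) q1) (padd (by fun_prop) q1')
  have hadm : Computable (fun x : (Cx × Cx) × ℕ => decide (
      (x.1.1.length / 4 + mm x.1.1.length C) + (x.1.2.length / 4 + mm x.1.2.length C) ≤ x.2)) :=
    (pble q2 (by fun_prop)).to_comp
  obtain ⟨D, hD, hD2⟩ := Partial.corep_classes (X := Cx × Cx)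
    (P := fun p => Valid p.1 ∧ Valid p.2 ∧ Pr p.1 p.2) (T := fun p => Q p.1 p.2) (k := k)
    (q := 16) (ρ := fun p => 4 * (p.1.length % 4) + p.2.length % 4)
    (by have : Primrec (fun p : Cx × Cx => 4 * (p.1.length % 4) + p.2.length % 4) := by fun_prop
        exact this.to_comp)
    (fun p _ => by
      have := Nat.mod_lt p.1.length (show 0 < 4 by norm_num)
      have := Nat.mod_lt p.2.length (show 0 < 4 by norm_num)
      show 4 * (p.1.length % 4) + p.2.length % 4 < 16
      omega)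
    (adm := fun x : (Cx × Cx) × ℕ => decide (
      (x.1.1.length / 4 + mm x.1.1.length C) + (x.1.2.length / 4 + mm x.1.2.length C) ≤ x.2))
    cF hadm
    (by
      intro s s' i x N b hs hb
      rw [hF] at hb ⊢
      exact Tz.maj_mono (fun j _ b hj => mst s s' _ b hs hj) hb)
    (fun p _ => by
      filter_upwards [eventually_ge_atTop ((p.1.length / 4 + mm p.1.length C) +
        (p.2.length / 4 + mm p.2.length C))] with N hN
      exact decide_eq_true hN)
    (by
      intro r hr N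
      obtain ⟨i, hi, hi2⟩ := h (4 * N + r / 4) (4 * N + r % 4)
      refine ⟨i, hi, ?_⟩
      rintro ⟨K, L⟩ ⟨hK, hL, hP⟩ hr2 hadmK
      have hle : (K.length / 4 + mm K.length C) + (L.length / 4 + mm L.length C) ≤ N :=
        of_decide_eq_true hadmK
      change 4 * (K.length % 4) + L.length % 4 = r at hr2
      have e1 : K.length + 4 * (N - K.length / 4) = 4 * N + r / 4 := by
        have := Nat.div_add_mod K.length 4
        have := Nat.mod_lt L.length (show 0 < 4 by norm_num)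
        omega
      have e2 : L.length + 4 * (N - L.length / 4) = 4 * N + r % 4 := by
        have := Nat.div_add_mod L.length 4
        have := Nat.mod_lt L.length (show 0 < 4 by norm_num)
        omega
      have m1 : mm K.length C ≤ N - K.length / 4 := by omega
      have m2 : mm L.length C ≤ N - L.length / 4 := by omega
      have key := (vote2_at (A := fun p => decide (∃ b ∈ A (i, p), (b = true ↔ Q p.1 p.2)))
        (Pr := Pr) (Q := fun _ _ => True) (K := K) (L := L) hPr1 hPr2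
        (fun _ _ _ _ _ => Iff.rfl) (fun _ _ _ _ _ => Iff.rfl) hK hL hP (C := C)
        (m := N - K.length / 4) (m' := N - L.length / 4) m1 m2 (by
          rw [e1, e2]
          refine le_trans (Set.encard_le_encard ?_) hi2
          rintro S ⟨K', L', k1, k1', k2, k2', k3, k4, k4', k5⟩
          refine ⟨K', L', k1, k1', k2, k2', k3, k4, k4', fun k6 => k5 ?_⟩
          exact iff_of_true (decide_eq_true k6) trivial)).2 trivial
      obtain ⟨s, hs⟩ := votep (st := st) mst (b := decide (Q K L))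
        (e := fun j => (i, pk K L (N - K.length / 4) (N - L.length / 4) j)) key (by
          intro j _ hj
          obtain ⟨b, hb, hb2⟩ := of_decide_eq_true hj
          rw [pk_fst, pk_snd, pk_inv hQ1 hQ2 hK hL] at hb2
          have e3 : b = decide (Q K L) := by
            rw [Bool.eq_iff_iff, decide_eq_true_eq]
            exact hb2
          rw [e3] at hb
          exact (vst _ _).2 hb)
      exact ⟨s, decide (Q K L), by rw [hF]; exact hs, by simp⟩)
  exact ⟨D, hD, fun K L hK hL hP => hD2 (K, L) ⟨hK, hL, hP⟩⟩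

end Pool.Agent.Q287.BA.Tri
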