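import Mathlib
import Pool.Agent.Q287.BA.Artin
import Pool.Agent.Q287.BA.TriP

/-!
# Bounded advice and few failures, algorithms which need not halt: Artin groups
-/

set_option autoImplicit false

namespace Pool.Agent.Q287.BA.Art

open Filter Encodable Pool.Agent.Q324.SC Pool.Agent.Q324.SC.Art
open Pool.Agent.Q324.SC.Mat (tri two_tri tri_mono tri_succ)

lemma vote_gd {Gd : List ℕ → Prop} [DecidablePred Gd] {p : Inp} {N F K H M : ℕ}
    (hN : p.1 ≤ N)
    (hF : F = tri N - tri p.1) (hF1 : 1 ≤ F) (hs : p.2.1.sum ≤ H) (hMH : M = (H - p.2.1.sum) / 2)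
    (hM : mm p.2.1 F K ≤ M)
    (h : {l | l ∈ Labels N H ∧ ¬ Gd l}.encard ≤ ((K * (H + 1) ^ (F - 1) : ℕ) : ℕ∞)) :
    (M + 1) ^ F < 2 * cnt (fun k => decide (Gd (nl p.2.1 p.1 N M k))) ((M + 1) ^ F) := by
  obtain ⟨W, hW⟩ : ∃ W, W = (Finset.range ((M + 1) ^ F)).filter
    (fun k => ¬ Gd (nl p.2.1 p.1 N M k)) := ⟨_, rfl⟩
  have g1 : (W.card : ℕ∞) ≤ ((K * (H + 1) ^ (F - 1) : ℕ) : ℕ∞) := by
    refine le_trans ?_ h
    rw [← Set.encard_coe_eq_coe_finsetCard]
    have h3 : Set.InjOn (fun k => nl p.2.1 p.1 N M k) (W : Set ℕ) := by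
      intro k hk k' hk' hkk
      rw [hW, Finset.mem_coe, Finset.mem_filter, Finset.mem_range] at hk hk'
      rw [hF] at hk hk'
      exact nl_inj hN hk.1 hk'.1 hkk
    rw [← h3.encard_image]
    refine Set.encard_le_encard ?_
    rintro _ ⟨k, hk, rfl⟩
    rw [hW, Finset.mem_coe, Finset.mem_filter, Finset.mem_range] at hk
    obtain ⟨m1, m2⟩ := nl_mem p.2.1 p.1 N M k
    refine ⟨⟨m1, fun x hx => (m2 x hx).trans ?_⟩, hk.2⟩
    omega
  have g2 : W.card ≤ K * (H + 1) ^ (F - 1) := by exact_mod_cast g1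
  have g3 : H + 1 ≤ 2 * (p.2.1.sum + 1) * (M + 1) := by
    have e : 2 * (p.2.1.sum + 1) * (M + 1)
        = p.2.1.sum + 2 * M + 2 + (2 * (p.2.1.sum * M) + p.2.1.sum) := by ring
    rw [e]
    omega
  have g4 : W.card ≤ K * (2 * (p.2.1.sum + 1)) ^ (F - 1) * (M + 1) ^ (F - 1) := by
    refine g2.trans ?_
    rw [mul_assoc, ← mul_pow]
    exact Nat.mul_le_mul_left _ (Nat.pow_le_pow_left g3 _)
  have g5 : 2 * (K * (2 * (p.2.1.sum + 1)) ^ (F - 1) * (M + 1) ^ (F - 1)) < (M + 1) ^ F := by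
    have e1 : (M + 1) ^ F = (M + 1) * (M + 1) ^ (F - 1) := by
      rw [← pow_succ']
      congr 1
      omega
    rw [e1, ← mul_assoc]
    refine Nat.mul_lt_mul_of_pos_right ?_ (by positivity)
    have e2 : 2 * (K * (2 * (p.2.1.sum + 1)) ^ (F - 1)) ≤ M := by
      refine le_trans ?_ hM
      unfold mm
      rw [← mul_assoc]
      exact Nat.mul_le_mul_left _ (Nat.pow_le_pow_right (by omega) (by omega))
    omega
  have g6 : cnt (fun k => decide (Gd (nl p.2.1 p.1 N M k))) ((M + 1) ^ F) + W.card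
      = (M + 1) ^ F := by
    rw [cnt_eq, hW]
    simp only [decide_eq_true_eq]
    rw [Finset.card_filter_add_card_filter_not, Finset.card_range]
  omega

lemma okk_fail (r : ℕ) {K : ℕ × List (ℕ × Bool) → ℕ} {Gd : List ℕ → Prop} [DecidablePred Gd]
    {p : Inp} {N : ℕ} (hok : okk r K p N)
    (h : {l | l ∈ Labels N.unpair.1 N.unpair.2 ∧ ¬ Gd l}.encard ^ (r + 1)
      ≤ ((K (N.unpair.1, p.2.2) * (N.unpair.2 + 1) ^ (r * tri N.unpair.1) : ℕ) : ℕ∞)) :
    (MM p N + 1) ^ FF p N < 2 * cnt (fun k => decide (Gd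
      (nl p.2.1 p.1 N.unpair.1 (MM p N) k))) ((MM p N + 1) ^ FF p N) := by
  obtain ⟨h1, h2, h3, h4⟩ := hok
  have e5 : tri p.1 + 1 ≤ tri N.unpair.1 := by
    refine le_trans ?_ h2
    exact Nat.le_mul_of_pos_left _ (by positivity)
  refine vote_gd h1 rfl ?_ h3 rfl h4 ?_
  · unfold FF
    omega
  obtain ⟨E, hE⟩ : ∃ E, E = {l | l ∈ Labels N.unpair.1 N.unpair.2 ∧ ¬ Gd l}.encard := ⟨_, rfl⟩
  rw [← hE] at h ⊢
  have hEt : E ≠ ⊤ := by
    intro ht
    rw [ht, ENat.top_pow (by omega)] at h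
    exact absurd h (not_le.2 (ENat.natCast_lt_top _))
  lift E to ℕ using hEt
  norm_cast at h ⊢
  refine num E _ _ _ _ (r + 1) (by omega) (by omega) ?_ h
  unfold FF
  have e6 : (r + 1) * (tri N.unpair.1 - tri p.1 - 1)
      = (r + 1) * tri N.unpair.1 - (r + 1) * (tri p.1 + 1) := by
    rw [Nat.sub_sub, Nat.mul_sub]
  rw [e6]
  have e7 : (r + 1) * tri N.unpair.1 = r * tri N.unpair.1 + tri N.unpair.1 := by ring
  omega

lemma ptri : Primrec (fun n : ℕ => tri n) := by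
  unfold tri
  fun_prop

lemma pR : Primrec (fun x : Inp × ℕ => x.2.unpair.1) := Tz.pu1.comp Primrec.snd

lemma pH : Primrec (fun x : Inp × ℕ => x.2.unpair.2) := Tz.pu2.comp Primrec.snd

lemma pn1 : Primrec (fun x : Inp × ℕ => tri x.1.1) := ptri.comp (by fun_prop)

lemma pF : Primrec (fun x : Inp × ℕ => FF x.1 x.2) := by
  unfold FF
  exact psub (ptri.comp pR) pn1

lemma ps : Primrec (fun x : Inp × ℕ => x.1.2.1.sum) := by fun_prop

lemma pM : Primrec (fun x : Inp × ℕ => MM x.1 x.2) := by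
  unfold MM
  exact pdiv (psub pH ps) (by fun_prop)

lemma pp : Primrec (fun p : ℕ × ℕ => (p.1 + 1) ^ p.2) := by fun_prop

lemma pw : Primrec (fun x : Inp × ℕ => x.1.2.2) := by fun_prop

lemma pl1 : Primrec (fun x : Inp × ℕ => x.1.2.1) := by fun_prop

/-- the bound for the labels -/
def vv (K : ℕ × List (ℕ × Bool) → ℕ) (x : Inp × ℕ) : ℕ :=
  x.1.2.1.sum + 2 * mm x.1.2.1 (tri x.2 - tri x.1.1) (K (x.2, x.1.2.2))

lemma vv_comp {K : ℕ × List (ℕ × Bool) → ℕ} (hK : Computable K) : Computable (vv K) := by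
  have p3 : Primrec (fun x : Inp × ℕ => tri x.2 - tri x.1.1) :=
    psub (ptri.comp Primrec.snd) pn1
  have cmm : Computable (fun x : Inp × ℕ =>
      mm x.1.2.1 (tri x.2 - tri x.1.1) (K (x.2, x.1.2.2))) :=
    Computable.comp (f := fun y : List ℕ × ℕ × ℕ => mm y.1 y.2.1 y.2.2)
      (g := fun x : Inp × ℕ => (x.1.2.1, tri x.2 - tri x.1.1, K (x.2, x.1.2.2)))
      mm_primrec.to_comp
      (pl1.to_comp.pair (p3.to_comp.pair (hK.comp (Computable.snd.pair pw.to_comp))))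
  have c2 : Computable (fun x : Inp × ℕ =>
      2 * mm x.1.2.1 (tri x.2 - tri x.1.1) (K (x.2, x.1.2.2))) :=
    Primrec.nat_mul.to_comp.comp (Computable.const 2) cmm
  exact Primrec.nat_add.to_comp.comp ps.to_comp c2

/-- one sequence of sizes -/
def JJ (K : ℕ × List (ℕ × Bool) → ℕ) (N : ℕ) : ℕ := Nat.pair N (Tz.sm (vv K) N (N + 1))

lemma JJ_comp {K : ℕ × List (ℕ × Bool) → ℕ} (hK : Computable K) : Computable (JJ K) :=
  Primrec₂.natPair.to_comp.comp Computable.id (Tz.sm_comp (vv_comp hK))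

lemma JJ1 (K : ℕ × List (ℕ × Bool) → ℕ) (N : ℕ) : (JJ K N).unpair.1 = N := by simp [JJ]

lemma JJ2 (K : ℕ × List (ℕ × Bool) → ℕ) (N : ℕ) :
    (JJ K N).unpair.2 = Tz.sm (vv K) N (N + 1) := by simp [JJ]

lemma ev_okJ (r : ℕ) (K : ℕ × List (ℕ × Bool) → ℕ) (p : Inp) :
    ∀ᶠ N in atTop, okk r K p (JJ K N) := by
  have t1 : ∀ R, R ≤ tri (R + 1) := by
    intro R
    have := two_tri (R + 1)
    rcases Nat.eq_zero_or_pos R with h | h
    · omega
    · have h2 : (R + 1) * (R + 1) = R * R + 2 * R + 1 := by ring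
      nlinarith
  filter_upwards [eventually_ge_atTop (p.1 + (r + 1) * (tri p.1 + 1) + 1 + encode p)] with R hR
  have e1 : p.2.1.sum + 2 * mm p.2.1 (tri R - tri p.1) (K (R, p.2.2)) ≤ Tz.sm (vv K) R (R + 1) :=
    Tz.le_sm (vv K) R p (R + 1) (by omega)
  unfold okk FF MM
  rw [JJ1, JJ2]
  refine ⟨by omega, ?_, by omega, by omega⟩
  have h1 := t1 (R - 1)
  have h2 : R - 1 + 1 = R := by omega
  rw [h2] at h1
  omega

lemma cok (r : ℕ) {K : ℕ × List (ℕ × Bool) → ℕ} (hK : Computable K) :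
    Computable (fun x : Inp × ℕ => @decide (okk r K x.1 x.2) (Classical.propDecidable _)) := by
  classical
  have cK : Computable (fun x : Inp × ℕ => K (x.2.unpair.1, x.1.2.2)) :=
    hK.comp (pR.to_comp.pair pw.to_comp)
  have cmm : Computable (fun x : Inp × ℕ => mm x.1.2.1 (FF x.1 x.2) (K (x.2.unpair.1, x.1.2.2))) :=
    Computable.comp (f := fun y : List ℕ × ℕ × ℕ => mm y.1 y.2.1 y.2.2)
      (g := fun x : Inp × ℕ => (x.1.2.1, FF x.1 x.2, K (x.2.unpair.1, x.1.2.2)))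
      mm_primrec.to_comp (pl1.to_comp.pair (pF.to_comp.pair cK))
  have q1 : Computable (fun x : Inp × ℕ => decide (x.1.1 ≤ x.2.unpair.1)) :=
    (pble (by fun_prop) pR).to_comp
  have q2 : Computable (fun x : Inp × ℕ =>
      decide ((r + 1) * (tri x.1.1 + 1) ≤ tri x.2.unpair.1)) :=
    (pble (pmul (pconst (r + 1)) (padd pn1 (pconst 1))) (ptri.comp pR)).to_comp
  have q3 : Computable (fun x : Inp × ℕ => decide (x.1.2.1.sum ≤ x.2.unpair.2)) :=
    (pble ps pH).to_comp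
  have q4 : Computable (fun x : Inp × ℕ => decide (
      mm x.1.2.1 (FF x.1 x.2) (K (x.2.unpair.1, x.1.2.2)) ≤ MM x.1 x.2)) := by
    have h0 : Primrec (fun y : ℕ × ℕ => decide (y.1 ≤ y.2)) := by fun_prop
    exact h0.to_comp.comp (cmm.pair pM.to_comp)
  refine (Primrec.and.to_comp.comp q1 (Primrec.and.to_comp.comp q2
    (Primrec.and.to_comp.comp q3 q4))).of_eq fun x => ?_
  rw [Bool.eq_iff_iff]
  simp only [Bool.and_eq_true, decide_eq_true_eq]
  rfl

lemma cV : Computable (fun p : Inp => @decide (Valid p) (Classical.propDecidable _)) := by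
  classical
  have := valid_primrec.decide.to_comp
  exact this.of_eq fun p => by simp

attribute [local irreducible] tri FF MM mm cnt nl vv JJ okk Tz.maj Valid

/-- **Bounded advice and few failures for the word problem of Artin groups.** -/
theorem advicep (k r : ℕ) {A : ℕ × Inp →. Bool} {K : ℕ × List (ℕ × Bool) → ℕ}
    (hA : Partrec A) (hK : Computable K)
    (h : ∀ R H : ℕ, ∃ i < k, ∀ w : List (ℕ × Bool),
      {l | l ∈ Labels R H ∧ ¬ ∃ b ∈ A (i, R, l, w), (b = true ↔ WP (R, l, w))}.encard ^ (r + 1)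
        ≤ ((K (R, w) * (H + 1) ^ (r * tri R) : ℕ) : ℕ∞)) : ComputablePred WP := by
  classical
  obtain ⟨st, cst, mst, vst⟩ := Partial.stages hA
  obtain ⟨F, hF⟩ : ∃ F : (ℕ × ℕ) × Inp × ℕ → Option Bool, F = fun z =>
    Tz.maj (fun j => st (z.1.1, (z.1.2, (JJ K z.2.2).unpair.1, nl z.2.1.2.1 z.2.1.1
      (JJ K z.2.2).unpair.1 (MM z.2.1 (JJ K z.2.2)) j, z.2.1.2.2)))
      ((MM z.2.1 (JJ K z.2.2) + 1) ^ FF z.2.1 (JJ K z.2.2)) := ⟨_, rfl⟩
  have cz : Computable (fun z : (ℕ × ℕ) × Inp × ℕ => (z.2.1, JJ K z.2.2)) :=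
    (Computable.fst.comp Computable.snd).pair
      ((JJ_comp hK).comp (Computable.snd.comp Computable.snd))
  have c5 : Computable (fun x : Inp × ℕ => (MM x.1 x.2 + 1) ^ FF x.1 x.2) :=
    Computable.comp (f := fun p : ℕ × ℕ => (p.1 + 1) ^ p.2)
      (g := fun x : Inp × ℕ => (MM x.1 x.2, FF x.1 x.2)) pp.to_comp (pM.to_comp.pair pF.to_comp)
  have c5z : Computable (fun z : (ℕ × ℕ) × Inp × ℕ =>
      (MM z.2.1 (JJ K z.2.2) + 1) ^ FF z.2.1 (JJ K z.2.2)) :=
    Computable.comp (f := fun x : Inp × ℕ => (MM x.1 x.2 + 1) ^ FF x.1 x.2)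
      (g := fun z : (ℕ × ℕ) × Inp × ℕ => (z.2.1, JJ K z.2.2)) c5 cz
  have d1 : Computable (fun w : ((ℕ × ℕ) × Inp × ℕ) × ℕ => w.1.2.1.2.1) :=
    (by fun_prop : Primrec (fun w : ((ℕ × ℕ) × Inp × ℕ) × ℕ => w.1.2.1.2.1)).to_comp
  have d2 : Computable (fun w : ((ℕ × ℕ) × Inp × ℕ) × ℕ => w.1.2.1.1) :=
    (by fun_prop : Primrec (fun w : ((ℕ × ℕ) × Inp × ℕ) × ℕ => w.1.2.1.1)).to_comp
  have d7 : Computable (fun w : ((ℕ × ℕ) × Inp × ℕ) × ℕ => w.1.2.1.2.2) :=
    (by fun_prop : Primrec (fun w : ((ℕ × ℕ) × Inp × ℕ) × ℕ => w.1.2.1.2.2)).to_comp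
  have d3 : Computable (fun w : ((ℕ × ℕ) × Inp × ℕ) × ℕ => (JJ K w.1.2.2).unpair.1) :=
    Computable.comp (f := fun x : Inp × ℕ => x.2.unpair.1)
      (g := fun w : ((ℕ × ℕ) × Inp × ℕ) × ℕ => (w.1.2.1, JJ K w.1.2.2)) pR.to_comp
      (cz.comp Computable.fst)
  have d4 : Computable (fun w : ((ℕ × ℕ) × Inp × ℕ) × ℕ => MM w.1.2.1 (JJ K w.1.2.2)) :=
    Computable.comp (f := fun x : Inp × ℕ => MM x.1 x.2)
      (g := fun w : ((ℕ × ℕ) × Inp × ℕ) × ℕ => (w.1.2.1, JJ K w.1.2.2)) pM.to_comp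
      (cz.comp Computable.fst)
  have d6 := nl_comp d1 d2 d3 d4 Computable.snd
  have cF : Computable F := by
    rw [hF]
    refine Tz.maj_comp (f := fun (z : (ℕ × ℕ) × Inp × ℕ) j =>
      st (z.1.1, (z.1.2, (JJ K z.2.2).unpair.1, nl z.2.1.2.1 z.2.1.1
      (JJ K z.2.2).unpair.1 (MM z.2.1 (JJ K z.2.2)) j, z.2.1.2.2))) ?_ c5z
    exact cst.comp ((Computable.fst.comp (Computable.fst.comp Computable.fst)).pair
      ((Computable.snd.comp (Computable.fst.comp Computable.fst)).pair (d3.pair (d6.pair d7))))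
  have cadm0 : Computable (fun x : Inp × ℕ =>
      @decide (okk r K x.1 (JJ K x.2)) (Classical.propDecidable _)) :=
    Computable.comp (f := fun x : Inp × ℕ => @decide (okk r K x.1 x.2) (Classical.propDecidable _))
      (g := fun x : Inp × ℕ => (x.1, JJ K x.2)) (cok r hK)
      (Computable.fst.pair ((JJ_comp hK).comp Computable.snd))
  obtain ⟨D, hD, hD2⟩ := Partial.corep (X := Inp) (P := fun p => Valid p) (T := WP) (k := k)
    cF cadm0
    (by
      intro s s' i x N b hs hb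
      rw [hF] at hb ⊢
      exact Tz.maj_mono (fun j _ b hj => mst s s' _ b hs hj) hb)
    (fun p _ => by
      filter_upwards [ev_okJ r K p] with N hN
      exact decide_eq_true hN)
    (by
      intro N
      obtain ⟨i, hi, hi2⟩ := h (JJ K N).unpair.1 (JJ K N).unpair.2
      refine ⟨i, hi, fun p hv hp => ?_⟩
      have hok : okk r K p (JJ K N) := of_decide_eq_true hp
      have key := okk_fail (Gd := fun l => ∃ b ∈ A (i, (JJ K N).unpair.1, l, p.2.2),
        (b = true ↔ WP ((JJ K N).unpair.1, l, p.2.2))) r hok (hi2 p.2.2)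
      obtain ⟨s, hs⟩ := Tri.votep (st := st) mst (b := decide (WP p))
        (e := fun j => (i, (JJ K N).unpair.1, nl p.2.1 p.1 (JJ K N).unpair.1
          (MM p (JJ K N)) j, p.2.2)) key (by
          intro j _ hj
          obtain ⟨b, hb, hb2⟩ := of_decide_eq_true hj
          have g0 : p.1 ≤ (JJ K N).unpair.1 := by
            unfold okk at hok
            exact hok.1
          rw [nl_wp hv g0] at hb2
          have e3 : b = decide (WP p) := by
            rw [Bool.eq_iff_iff, decide_eq_true_eq]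
            exact hb2
          rw [e3] at hb
          exact (vst _ _).2 hb)
      exact ⟨s, decide (WP p), by rw [hF]; exact hs, by simp⟩)
  refine total (D := fun p => cond (@decide (Valid p) (Classical.propDecidable _)) (D p)
    (Part.some false)) (Partrec.cond cV hD (Computable.const false).partrec) fun p => ?_
  by_cases hv : Valid p
  · obtain ⟨b, hb, hb2⟩ := hD2 p hv
    exact ⟨b, by simp [hv, hb], hb2⟩
  · refine ⟨false, by simp [hv], ?_⟩
    have : ¬ WP p := by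
      intro hw
      unfold WP at hw
      exact hv hw.1
    simp [this]

end Pool.Agent.Q287.BA.Art
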