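import Mathlib
import Pool.Agent.Q252.WC.Pad
import Pool.Agent.Q287.BA.Core

/-!
# Bounded advice and few errors: words, padded by blocks that do not change the answer
-/

set_option autoImplicit false

namespace Pool.Agent.Q287.BA.Pad

open Filter Pool.Agent.Q324.SC Pool.Agent.Q252.WC

variable {α : Type} [Primcodable α]

theorem grow {q b l j0 j : ℕ} {C ρ : ℝ} (hρ0 : 0 ≤ ρ) (hρ : ρ ^ b < q)
    (h : 2 * (C * ρ ^ (l + j0 * b)) < (q : ℝ) ^ j0) (hj : j0 ≤ j) :
    2 * (C * ρ ^ (l + j * b)) < (q : ℝ) ^ j := by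
  have hq : (0 : ℝ) < q := lt_of_le_of_lt (pow_nonneg hρ0 b) hρ
  induction j, hj using Nat.le_induction with
  | base => exact h
  | succ j hj ih =>
    have e : 2 * (C * ρ ^ (l + (j + 1) * b)) = 2 * (C * ρ ^ (l + j * b)) * ρ ^ b := by
      have : l + (j + 1) * b = (l + j * b) + b := by ring
      rw [this, pow_add]
      ring
    rw [e, pow_succ]
    have hb0 : 0 ≤ ρ ^ b := pow_nonneg hρ0 b
    have hp : 0 < (q : ℝ) ^ j := pow_pos hq j
    rcases le_or_gt (2 * (C * ρ ^ (l + j * b))) 0 with h0 | h0
    · have h1 : 2 * (C * ρ ^ (l + j * b)) * ρ ^ b ≤ 0 := mul_nonpos_of_nonpos_of_nonneg h0 hb0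
      have h2 : 0 < (q : ℝ) ^ j * q := mul_pos hp hq
      linarith
    · calc 2 * (C * ρ ^ (l + j * b)) * ρ ^ b ≤ 2 * (C * ρ ^ (l + j * b)) * q :=
          mul_le_mul_of_nonneg_left hρ.le h0.le
        _ < (q : ℝ) ^ j * q := mul_lt_mul_of_pos_right ih hq

attribute [local irreducible] pad cnt

set_option maxHeartbeats 1000000 in
/-- **Bounded advice and few errors, words.** -/
theorem advice [Finite α] {S : List α → Prop} {A : ℕ × List α → Bool} {L : List (List α)} {b k : ℕ}
    {C ρ : ℝ} (hA : Computable A) (hL : L.Nodup) (hb : ∀ t ∈ L, t.length = b)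
    (hS : ∀ w, ∀ t ∈ L, (S (w ++ t) ↔ S w)) (hρ0 : 0 ≤ ρ) (hρ : ρ ^ b < L.length)
    (herr : ∀ N, ∃ i < k,
      ({u : List α | u.length = N ∧ ¬ (A (i, u) = true ↔ S u)}.ncard : ℝ) ≤ C * ρ ^ N) :
    ComputablePred S := by
  classical
  have hq : (0 : ℝ) < L.length := lt_of_le_of_lt (pow_nonneg hρ0 b) hρ
  have h0 : 0 < L.length := by exact_mod_cast hq
  have hb1 : 1 ≤ b := by
    by_contra hb0
    have hb0' : b = 0 := by omega
    subst hb0'
    rw [pow_zero] at hρ
    have h1 : 1 < L.length := by exact_mod_cast hρ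
    have e0 : L[0] = [] := List.length_eq_zero_iff.1 (hb _ (List.getElem_mem (by omega)))
    have e1 : L[1] = [] := List.length_eq_zero_iff.1 (hb _ (List.getElem_mem h1))
    have := (hL.getElem_inj_iff (hi := by omega) (hj := h1)).1 (e0.trans e1.symm)
    omega
  obtain ⟨c, hc⟩ := exists_c (C := C) hρ0 hρ
  have key : ∀ (i : ℕ) (w : List α) (j : ℕ), c * (w.length + 1) ≤ j →
      ({u : List α | u.length = w.length + j * b ∧ ¬ (A (i, u) = true ↔ S u)}.ncard : ℝ)
        ≤ C * ρ ^ (w.length + j * b) →
      ((L.length ^ j < 2 * cnt (fun t => A (i, w ++ pad L j t)) (L.length ^ j)) ↔ S w) := by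
    intro i w j hj herr'
    obtain ⟨W, hW⟩ : ∃ W, W = (Finset.range (L.length ^ j)).filter
      (fun t => A (i, w ++ pad L j t) ≠ decide (S w)) := ⟨_, rfl⟩
    have hlen : ∀ t, (w ++ pad L j t).length = w.length + j * b := by
      intro t
      rw [List.length_append]
      congr 1
      unfold pad
      exact flat_length (fun s => hb _ (block_mem h0 t s)) j
    have g1 : (W.card : ℝ) ≤ C * ρ ^ (w.length + j * b) := by
      refine le_trans ?_ herr'
      have h3 : Set.InjOn (fun t => w ++ pad L j t) (W : Set ℕ) := by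
        intro t ht t' ht' htt
        rw [hW, Finset.mem_coe, Finset.mem_filter, Finset.mem_range] at ht ht'
        exact pad_inj h0 hL hb ht.1 ht'.1 (List.append_cancel_left htt)
      rw [← Set.ncard_coe_finset, ← Set.ncard_image_of_injOn h3]
      have h4 : (fun t => w ++ pad L j t) '' (W : Set ℕ) ⊆
          {u : List α | u.length = w.length + j * b ∧ ¬ (A (i, u) = true ↔ S u)} := by
        rintro _ ⟨t, ht, rfl⟩
        rw [hW, Finset.mem_coe, Finset.mem_filter, Finset.mem_range] at ht
        refine ⟨hlen t, ?_⟩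
        intro h4
        rw [pad_iff h0 hS] at h4
        apply ht.2
        rw [Bool.eq_iff_iff, decide_eq_true_eq]
        exact h4
      have h5 : {u : List α | u.length = w.length + j * b ∧ ¬ (A (i, u) = true ↔ S u)}.Finite :=
        (List.finite_length_eq α (w.length + j * b)).subset (fun u hu => hu.1)
      exact_mod_cast Set.ncard_le_ncard h4 h5
    have g2 : 2 * W.card < L.length ^ j := by
      have h6 := grow hρ0 hρ (hc w.length) hj
      have h7 : (2 * W.card : ℝ) < (L.length : ℝ) ^ j := by linarith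
      exact_mod_cast h7
    rw [hW] at g2
    exact (majority le_rfl g2).trans (by simp)
  have p1 : Primrec (fun x : ℕ × List α × ℕ => L.length ^ (x.2.2 - x.2.1.length / b)) := by fun_prop
  have c3 : Computable (fun z : (ℕ × List α × ℕ) × ℕ =>
      A (z.1.1, z.1.2.1 ++ pad L (z.1.2.2 - z.1.2.1.length / b) z.2)) := by
    refine hA.comp (Computable.pair (Computable.fst.comp Computable.fst) ?_)
    have h1 : Primrec (fun z : (ℕ × List α × ℕ) × ℕ =>
        pad L (z.1.2.2 - z.1.2.1.length / b) z.2) :=
      (pad_primrec L).comp (by fun_prop : Primrec (fun z : (ℕ × List α × ℕ) × ℕ =>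
        (z.1.2.2 - z.1.2.1.length / b, z.2)))
    have h2 : Primrec (fun z : (ℕ × List α × ℕ) × ℕ =>
        z.1.2.1 ++ pad L (z.1.2.2 - z.1.2.1.length / b) z.2) := pappend (by fun_prop) h1
    exact h2.to_comp
  have c4 : Computable (fun x : ℕ × List α × ℕ => cnt (fun t =>
      A (x.1, x.2.1 ++ pad L (x.2.2 - x.2.1.length / b) t))
      (L.length ^ (x.2.2 - x.2.1.length / b))) :=
    cnt_comp (f := fun (x : ℕ × List α × ℕ) t =>
      A (x.1, x.2.1 ++ pad L (x.2.2 - x.2.1.length / b) t)) c3 p1.to_comp
  have h2 : Primrec (fun x : ℕ × ℕ => decide (x.1 + 1 ≤ 2 * x.2)) := by fun_prop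
  have hF : Computable (fun x : ℕ × List α × ℕ => decide (
      L.length ^ (x.2.2 - x.2.1.length / b) < 2 * cnt (fun t =>
      A (x.1, x.2.1 ++ pad L (x.2.2 - x.2.1.length / b) t))
      (L.length ^ (x.2.2 - x.2.1.length / b)))) :=
    (h2.to_comp.comp (p1.to_comp.pair c4)).of_eq fun x => rfl
  have hadm : Computable (fun x : List α × ℕ =>
      decide (x.1.length / b + c * (x.1.length + 1) ≤ x.2)) := by
    have : Primrec (fun x : List α × ℕ =>
      decide (x.1.length / b + c * (x.1.length + 1) ≤ x.2)) := by fun_prop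
    exact this.to_comp
  obtain ⟨D, hD, hD2⟩ := core_classes (X := List α) (P := fun _ => True) (T := S) (k := k)
    (q := b) (ρ := fun w => w.length % b)
    (by have : Primrec (fun w : List α => w.length % b) := by fun_prop
        exact this.to_comp)
    (fun w _ => Nat.mod_lt _ (by omega))
    (adm := fun x : List α × ℕ => decide (x.1.length / b + c * (x.1.length + 1) ≤ x.2)) hF hadm atTop
    (fun w _ => by
      filter_upwards [eventually_ge_atTop (w.length / b + c * (w.length + 1))] with N hN
      exact decide_eq_true hN)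
    (by
      intro r hr N
      obtain ⟨i, hi, hi2⟩ := herr (b * N + r)
      refine ⟨i, hi, ?_⟩
      intro w _ hwr hadmw
      have hle : w.length / b + c * (w.length + 1) ≤ N := of_decide_eq_true hadmw
      change w.length % b = r at hwr
      have e1 : w.length + (N - w.length / b) * b = b * N + r := by
        have h5 := Nat.div_add_mod w.length b
        obtain ⟨d, hd⟩ := Nat.exists_eq_add_of_le (show w.length / b ≤ N by omega)
        have h6 : N - w.length / b = d := by omega
        rw [h6, hd, Nat.mul_add, Nat.mul_comm d b]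
        omega
      show decide _ = true ↔ _
      rw [decide_eq_true_eq]
      exact key i w (N - w.length / b) (by omega) (by rw [e1]; exact hi2))
  exact total hD fun w => hD2 w trivial

end Pool.Agent.Q287.BA.Pad
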