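import Mathlib
import Pool.Agent.Q324.SC.SSE
import Pool.Agent.Q287.BA.Artin

/-!
# Bounded advice and few errors: strong shift equivalence
-/

set_option autoImplicit false

namespace Pool.Agent.Q287.BA.Sse

open Filter Pool.Agent.Q324.SC Pool.Agent.Q324.SC.Mat
open Pool.Agent.Q287.BA.Art (fil num)

/-- pairs of matrices -/
abbrev Pr : Type := List (List ℕ) × List (List ℕ)

lemma vote_at {A : Pr → Bool} {p : Pr}
    {d N F K H M : ℕ} (h1 : p.1.length ≤ d) (h2 : p.2.length ≤ d) (hN : d ≤ N)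
    (hF : F = 2 * (tri N - tri d)) (hF1 : 1 ≤ F) (hs : se p.1 + se p.2 ≤ H)
    (hMH : M = H - (se p.1 + se p.2)) (hM : mm p F K ≤ M)
    (h : {p' | p' ∈ Inputs N H ∧ Errs A p'}.encard ≤ ((K * (H + 1) ^ (F - 1) : ℕ) : ℕ∞)) :
    ((M + 1) ^ F < 2 * cnt (fun k => A (inp p d N M k)) ((M + 1) ^ F)) ↔ SSE p := by
  classical
  obtain ⟨W, hW⟩ : ∃ W, W = (Finset.range ((M + 1) ^ F)).filter
    (fun k => A (inp p d N M k) ≠ decide (SSE p)) := ⟨_, rfl⟩
  have hH : H = se p.1 + se p.2 + M := by omega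
  have g1 : (W.card : ℕ∞) ≤ ((K * (H + 1) ^ (F - 1) : ℕ) : ℕ∞) := by
    refine le_trans ?_ h
    rw [← Set.encard_coe_eq_coe_finsetCard]
    have h3 : Set.InjOn (fun k => inp p d N M k) (W : Set ℕ) := by
      intro k hk k' hk' hkk
      rw [hW, Finset.mem_coe, Finset.mem_filter, Finset.mem_range] at hk hk'
      rw [hF] at hk hk'
      exact inp_inj hN hk.1 hk'.1 hkk
    rw [← h3.encard_image]
    refine Set.encard_le_encard ?_
    rintro _ ⟨k, hk, rfl⟩
    rw [hW, Finset.mem_coe, Finset.mem_filter, Finset.mem_range] at hk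
    refine ⟨by rw [hH]; exact inp_mem p d N M k, ?_⟩
    intro h4
    rw [inp_sse h1 h2 hN] at h4
    apply hk.2
    rw [Bool.eq_iff_iff, decide_eq_true_eq]
    exact h4
  have g2 : W.card ≤ K * (H + 1) ^ (F - 1) := by exact_mod_cast g1
  have g3 : H + 1 ≤ 2 * big p * (M + 1) := by
    rw [hH]
    unfold big
    nlinarith
  have g4 : W.card ≤ K * (2 * big p) ^ (F - 1) * (M + 1) ^ (F - 1) := by
    refine g2.trans ?_
    rw [mul_assoc, ← mul_pow]
    exact Nat.mul_le_mul_left _ (Nat.pow_le_pow_left g3 _)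
  have g5 : 2 * (K * (2 * big p) ^ (F - 1) * (M + 1) ^ (F - 1)) < (M + 1) ^ F := by
    have e1 : (M + 1) ^ F = (M + 1) * (M + 1) ^ (F - 1) := by
      rw [← pow_succ']
      congr 1
      omega
    rw [e1, ← mul_assoc]
    refine Nat.mul_lt_mul_of_pos_right ?_ (by positivity)
    have e2 : 2 * (K * (2 * big p) ^ (F - 1)) ≤ M := by
      refine le_trans ?_ hM
      unfold mm
      rw [← mul_assoc]
      exact Nat.mul_le_mul_left _ (Nat.pow_le_pow_right (by unfold big; omega) (by omega))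
    omega
  rw [hW] at g4
  exact (majority g4 g5).trans (by simp)

attribute [local irreducible] lst mm fe cnt inp

/-- the size of the matrices -/
def dd (p : Pr) : ℕ := p.1.length + p.2.length

/-- the number of the new entries -/
def FF (p : Pr) (N : ℕ) : ℕ := 2 * (tri N.unpair.1 - tri (dd p))

/-- the range of the new entries -/
def MM (p : Pr) (N : ℕ) : ℕ := N.unpair.2 - (se p.1 + se p.2)

/-- when the vote is right -/
def okk (r : ℕ) (K : ℕ → ℕ) (p : Pr) (N : ℕ) : Prop :=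
  dd p ≤ N.unpair.1 ∧
    (r + 1) * (N.unpair.1 + dd p * dd p + 1) ≤ N.unpair.1 * N.unpair.1 ∧
    se p.1 + se p.2 ≤ N.unpair.2 ∧ mm p (FF p N) (K N.unpair.1) ≤ MM p N

lemma vote_ok {A : Pr → Bool} (r : ℕ) {K : ℕ → ℕ} {p : Pr} {N : ℕ} (hok : okk r K p N)
    (h : {p' | p' ∈ Inputs N.unpair.1 N.unpair.2 ∧ Errs A p'}.encard ^ (r + 1)
      ≤ ((K N.unpair.1 * (N.unpair.2 + 1) ^ (r * N.unpair.1 ^ 2) : ℕ) : ℕ∞)) :
    ((MM p N + 1) ^ FF p N < 2 * cnt (fun k => A (inp p (dd p) N.unpair.1 (MM p N) k))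
      ((MM p N + 1) ^ FF p N)) ↔ SSE p := by
  obtain ⟨h1, h2, h3, h4⟩ := hok
  obtain ⟨n, hn⟩ : ∃ n, n = N.unpair.1 := ⟨_, rfl⟩
  obtain ⟨d, hd⟩ : ∃ d, d = dd p := ⟨_, rfl⟩
  have t1 := two_tri n
  have t2 := two_tri d
  have f1 : 2 * tri n = n * n - n := by omega
  have f2 : 2 * tri d = d * d - d := by omega
  rw [← hn, ← hd] at h1 h2
  have hnn : n + d * d + 1 ≤ n * n := by
    refine le_trans ?_ h2
    exact Nat.le_mul_of_pos_left _ (by positivity)
  have hFe : FF p N = n * n - n - (d * d - d) := by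
    unfold FF
    rw [← hn, ← hd, Nat.mul_sub, f1, f2]
  refine vote_at (d := dd p) (by unfold dd; omega) (by unfold dd; omega) (by rw [← hn, ← hd]; exact h1)
    rfl ?_ h3 rfl h4 ?_
  · change 1 ≤ FF p N
    rw [hFe]
    omega
  change _ ≤ ((K N.unpair.1 * (N.unpair.2 + 1) ^ (FF p N - 1) : ℕ) : ℕ∞)
  obtain ⟨E, hE⟩ : ∃ E, E = {p' | p' ∈ Inputs N.unpair.1 N.unpair.2 ∧ Errs A p'}.encard := ⟨_, rfl⟩
  rw [← hE] at h ⊢
  have hEt : E ≠ ⊤ := by
    intro ht
    rw [ht, ENat.top_pow (by omega)] at h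
    exact absurd h (not_le.2 (ENat.natCast_lt_top _))
  lift E to ℕ using hEt
  norm_cast at h ⊢
  refine num E _ _ _ _ (r + 1) (by omega) (by omega) ?_ h
  rw [hFe, ← hn]
  have e6 : (r + 1) * (n * n - n - (d * d - d) - 1) + (r + 1) * (n + d * d + 1)
      ≥ (r + 1) * (n * n) := by
    rw [← Nat.mul_add]
    refine Nat.mul_le_mul_left _ ?_
    omega
  have e7 : (r + 1) * (n * n) = r * n ^ 2 + n * n := by ring
  omega

lemma ev_ok (r : ℕ) (K : ℕ → ℕ) (p : Pr) : ∀ᶠ N in fil, okk r K p N := by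
  unfold fil
  rw [eventually_bind]
  filter_upwards [eventually_ge_atTop ((r + 1) * (dd p * dd p + 2) + dd p)] with R hR
  rw [eventually_map]
  filter_upwards [eventually_ge_atTop (se p.1 + se p.2 +
    mm p (2 * (tri R - tri (dd p))) (K R))] with H hH
  unfold okk FF MM
  simp only [Nat.unpair_pair]
  refine ⟨by omega, ?_, by omega, by omega⟩
  have h1 : (r + 1) * (dd p * dd p + 2) ≤ R := by omega
  have hR1 : 1 ≤ R := le_trans (Nat.one_le_iff_ne_zero.2 (by positivity)) h1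
  calc (r + 1) * (R + dd p * dd p + 1) ≤ (r + 1) * ((dd p * dd p + 2) * R) := by
        refine Nat.mul_le_mul_left _ ?_
        nlinarith [Nat.mul_le_mul_left (dd p * dd p) hR1]
    _ = (r + 1) * (dd p * dd p + 2) * R := by ring
    _ ≤ R * R := Nat.mul_le_mul_right _ h1

lemma pu1 : Primrec (fun N : ℕ => N.unpair.1) := Primrec.fst.comp Primrec.unpair

lemma pu2 : Primrec (fun N : ℕ => N.unpair.2) := Primrec.snd.comp Primrec.unpair

lemma ptri : Primrec (fun n : ℕ => tri n) := by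
  unfold tri
  fun_prop

lemma pR : Primrec (fun x : Pr × ℕ => x.2.unpair.1) := pu1.comp Primrec.snd

lemma pH : Primrec (fun x : Pr × ℕ => x.2.unpair.2) := pu2.comp Primrec.snd

lemma pd : Primrec (fun x : Pr × ℕ => dd x.1) := by
  unfold dd
  fun_prop

lemma pF : Primrec (fun x : Pr × ℕ => FF x.1 x.2) := by
  unfold FF
  exact pmul (pconst 2) (psub (ptri.comp pR) (ptri.comp pd))

lemma s1 : Primrec (fun x : Pr × ℕ => se x.1.1) := se_primrec.comp (by fun_prop)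

lemma s2 : Primrec (fun x : Pr × ℕ => se x.1.2) := se_primrec.comp (by fun_prop)

lemma pM : Primrec (fun x : Pr × ℕ => MM x.1 x.2) := by
  unfold MM
  exact psub pH (padd s1 s2)

lemma ppow : Primrec (fun p : ℕ × ℕ => (p.1 + 1) ^ p.2) := by fun_prop

attribute [local irreducible] tri dd FF MM se

lemma c5 : Computable (fun x : Pr × ℕ => (MM x.1 x.2 + 1) ^ FF x.1 x.2) :=
  Computable.comp (f := fun p : ℕ × ℕ => (p.1 + 1) ^ p.2)
    (g := fun x : Pr × ℕ => (MM x.1 x.2, FF x.1 x.2)) ppow.to_comp (pM.to_comp.pair pF.to_comp)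

lemma cok (r : ℕ) {K : ℕ → ℕ} (hK : Computable K) :
    Computable (fun x : Pr × ℕ => @decide (okk r K x.1 x.2) (Classical.propDecidable _)) := by
  classical
  have cK : Computable (fun x : Pr × ℕ => K x.2.unpair.1) := hK.comp pR.to_comp
  have cmm : Computable (fun x : Pr × ℕ => mm x.1 (FF x.1 x.2) (K x.2.unpair.1)) :=
    mm_comp Computable.fst pF.to_comp cK
  have q1 : Computable (fun x : Pr × ℕ => decide (dd x.1 ≤ x.2.unpair.1)) := (pble pd pR).to_comp
  have q2 : Computable (fun x : Pr × ℕ => decide (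
      (r + 1) * (x.2.unpair.1 + dd x.1 * dd x.1 + 1) ≤ x.2.unpair.1 * x.2.unpair.1)) :=
    (pble (pmul (pconst (r + 1)) (padd (padd pR (pmul pd pd)) (pconst 1))) (pmul pR pR)).to_comp
  have q3 : Computable (fun x : Pr × ℕ => decide (se x.1.1 + se x.1.2 ≤ x.2.unpair.2)) :=
    (pble (padd s1 s2) pH).to_comp
  have q4 : Computable (fun x : Pr × ℕ => decide (
      mm x.1 (FF x.1 x.2) (K x.2.unpair.1) ≤ MM x.1 x.2)) := by
    have h0 : Primrec (fun y : ℕ × ℕ => decide (y.1 ≤ y.2)) := by fun_prop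
    exact Computable.comp (f := fun y : ℕ × ℕ => decide (y.1 ≤ y.2))
      (g := fun x : Pr × ℕ => (mm x.1 (FF x.1 x.2) (K x.2.unpair.1), MM x.1 x.2))
      h0.to_comp (cmm.pair pM.to_comp)
  refine (Primrec.and.to_comp.comp q1 (Primrec.and.to_comp.comp q2
    (Primrec.and.to_comp.comp q3 q4))).of_eq fun x => ?_
  rw [Bool.eq_iff_iff]
  simp only [Bool.and_eq_true, decide_eq_true_eq]
  rfl

lemma c5' : Computable (fun x : ℕ × Pr × ℕ => (MM x.2.1 x.2.2 + 1) ^ FF x.2.1 x.2.2) :=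
  Computable.comp (f := fun x : Pr × ℕ => (MM x.1 x.2 + 1) ^ FF x.1 x.2)
    (g := fun x : ℕ × Pr × ℕ => x.2) c5 Computable.snd

lemma c6 {A : ℕ × Pr → Bool} (hA : Computable A) :
    Computable (fun z : (ℕ × Pr × ℕ) × ℕ => A (z.1.1,
      inp z.1.2.1 (dd z.1.2.1) z.1.2.2.unpair.1 (MM z.1.2.1 z.1.2.2) z.2)) := by
  have d1 : Computable (fun z : (ℕ × Pr × ℕ) × ℕ => z.1.1) := Computable.fst.comp Computable.fst
  have d2 : Computable (fun z : (ℕ × Pr × ℕ) × ℕ => z.1.2) := Computable.snd.comp Computable.fst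
  have d3 : Computable (fun z : (ℕ × Pr × ℕ) × ℕ => z.1.2.2.unpair.1) :=
    Computable.comp (f := fun x : Pr × ℕ => x.2.unpair.1) (g := fun z : (ℕ × Pr × ℕ) × ℕ => z.1.2)
      pR.to_comp d2
  have d4 : Computable (fun z : (ℕ × Pr × ℕ) × ℕ => MM z.1.2.1 z.1.2.2) :=
    Computable.comp (f := fun x : Pr × ℕ => MM x.1 x.2) (g := fun z : (ℕ × Pr × ℕ) × ℕ => z.1.2)
      pM.to_comp d2
  have d5 : Computable (fun z : (ℕ × Pr × ℕ) × ℕ => dd z.1.2.1) :=
    Computable.comp (f := fun x : Pr × ℕ => dd x.1) (g := fun z : (ℕ × Pr × ℕ) × ℕ => z.1.2)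
      pd.to_comp d2
  have d6 := inp_comp (Computable.fst.comp d2) d5 d3 d4 Computable.snd
  exact Computable.comp (f := A) (g := fun z : (ℕ × Pr × ℕ) × ℕ => (z.1.1,
      inp z.1.2.1 (dd z.1.2.1) z.1.2.2.unpair.1 (MM z.1.2.1 z.1.2.2) z.2)) hA (d1.pair d6)

lemma c7 {A : ℕ × Pr → Bool} (hA : Computable A) :
    Computable (fun x : ℕ × Pr × ℕ => cnt (fun t => A (x.1,
      inp x.2.1 (dd x.2.1) x.2.2.unpair.1 (MM x.2.1 x.2.2) t))
      ((MM x.2.1 x.2.2 + 1) ^ FF x.2.1 x.2.2)) :=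
  cnt_comp (f := fun (x : ℕ × Pr × ℕ) t => A (x.1,
    inp x.2.1 (dd x.2.1) x.2.2.unpair.1 (MM x.2.1 x.2.2) t)) (c6 hA) c5'

lemma hF {A : ℕ × Pr → Bool} (hA : Computable A) : Computable (fun x : ℕ × Pr × ℕ => decide (
      (MM x.2.1 x.2.2 + 1) ^ FF x.2.1 x.2.2 + 1 ≤ 2 * cnt (fun t => A (x.1,
      inp x.2.1 (dd x.2.1) x.2.2.unpair.1 (MM x.2.1 x.2.2) t))
      ((MM x.2.1 x.2.2 + 1) ^ FF x.2.1 x.2.2))) := by
  have h2 : Primrec (fun x : ℕ × ℕ => decide (x.1 + 1 ≤ 2 * x.2)) := by fun_prop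
  exact Computable.comp (f := fun x : ℕ × ℕ => decide (x.1 + 1 ≤ 2 * x.2))
    (g := fun x : ℕ × Pr × ℕ => ((MM x.2.1 x.2.2 + 1) ^ FF x.2.1 x.2.2,
      cnt (fun t => A (x.1, inp x.2.1 (dd x.2.1) x.2.2.unpair.1 (MM x.2.1 x.2.2) t))
      ((MM x.2.1 x.2.2 + 1) ^ FF x.2.1 x.2.2))) h2.to_comp (c5'.pair (c7 hA))

/-- **Bounded advice and few errors for strong shift equivalence.** -/
theorem advice (k r : ℕ) {A : ℕ × Pr → Bool} {K : ℕ → ℕ} (hA : Computable A) (hK : Computable K)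
    (h : ∀ R H : ℕ, ∃ i < k, {p' | p' ∈ Inputs R H ∧ Errs (fun p => A (i, p)) p'}.encard ^ (r + 1)
        ≤ ((K R * (H + 1) ^ (r * R ^ 2) : ℕ) : ℕ∞)) : ComputablePred SSE := by
  classical
  obtain ⟨D, hD, hD2⟩ := core (X := Pr) (P := fun _ => True) (T := SSE) (k := k)
    (adm := fun x : Pr × ℕ => @decide (okk r K x.1 x.2) (Classical.propDecidable _)) (hF hA)
    (cok r hK) fil
    (fun p _ => by
      filter_upwards [ev_ok r K p] with N hN
      exact decide_eq_true hN)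
    (by
      intro N
      obtain ⟨i, hi, hi2⟩ := h N.unpair.1 N.unpair.2
      refine ⟨i, hi, fun p _ hp => ?_⟩
      have hok : okk r K p N := of_decide_eq_true hp
      have h1 := vote_ok (A := fun p => A (i, p)) r hok hi2
      refine Iff.trans ?_ h1
      exact decide_eq_true_iff)
  exact total hD fun p => hD2 p trivial

end Pool.Agent.Q287.BA.Sse
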