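import Mathlib
import Pool.Agent.Q287.BA.SSE
import Pool.Agent.Q287.BA.TriP

/-!
# Bounded advice and few failures, algorithms which need not halt: strong shift equivalence
-/

set_option autoImplicit false

namespace Pool.Agent.Q287.BA.Sse

open Filter Encodable Pool.Agent.Q324.SC Pool.Agent.Q324.SC.Mat
open Pool.Agent.Q287.BA.Art (num)

lemma vote_gd {Gd : Pr → Prop} [DecidablePred Gd] {p : Pr}
    {d N F K H M : ℕ} (hN : d ≤ N)
    (hF : F = 2 * (tri N - tri d)) (hF1 : 1 ≤ F)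
    (hMH : M = H - (se p.1 + se p.2)) (hs : se p.1 + se p.2 ≤ H) (hM : mm p F K ≤ M)
    (h : {p' | p' ∈ Inputs N H ∧ ¬ Gd p'}.encard ≤ ((K * (H + 1) ^ (F - 1) : ℕ) : ℕ∞)) :
    (M + 1) ^ F < 2 * cnt (fun k => decide (Gd (inp p d N M k))) ((M + 1) ^ F) := by
  obtain ⟨W, hW⟩ : ∃ W, W = (Finset.range ((M + 1) ^ F)).filter
    (fun k => ¬ Gd (inp p d N M k)) := ⟨_, rfl⟩
  have hH : H = se p.1 + se p.2 + M := by omega
  have g1 : (W.card : ℕ∞) ≤ ((K * (H + 1) ^ (F - 1) : ℕ) : ℕ∞) := by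
    refine le_trans ?_ h
    rw [← Set.encard_coe_eq_coe_finsetCard]
    have h3 : Set.InjOn (fun k => inp p d N M k) (W : Set ℕ) := by
      intro k hk k' hk' hkk
      rw [hW, Finset.mem_coe, Finset.mem_filter, Finset.mem_range] at hk hk'
      rw [hF] at hk hk'
      exact inp_inj hN hk.1 hk'.1 hkk
    rw [← h3.encard_image]
    refine Set.encard_le_encard ?_
    rintro _ ⟨k, hk, rfl⟩
    rw [hW, Finset.mem_coe, Finset.mem_filter, Finset.mem_range] at hk
    exact ⟨by rw [hH]; exact inp_mem p d N M k, hk.2⟩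
  have g2 : W.card ≤ K * (H + 1) ^ (F - 1) := by exact_mod_cast g1
  have g3 : H + 1 ≤ 2 * big p * (M + 1) := by
    rw [hH]
    unfold big
    nlinarith
  have g4 : W.card ≤ K * (2 * big p) ^ (F - 1) * (M + 1) ^ (F - 1) := by
    refine g2.trans ?_
    rw [mul_assoc, ← mul_pow]
    exact Nat.mul_le_mul_left _ (Nat.pow_le_pow_left g3 _)
  have g5 : 2 * (K * (2 * big p) ^ (F - 1) * (M + 1) ^ (F - 1)) < (M + 1) ^ F := by
    have e1 : (M + 1) ^ F = (M + 1) * (M + 1) ^ (F - 1) := by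
      rw [← pow_succ']
      congr 1
      omega
    rw [e1, ← mul_assoc]
    refine Nat.mul_lt_mul_of_pos_right ?_ (by positivity)
    have e2 : 2 * (K * (2 * big p) ^ (F - 1)) ≤ M := by
      refine le_trans ?_ hM
      unfold mm
      rw [← mul_assoc]
      exact Nat.mul_le_mul_left _ (Nat.pow_le_pow_right (by unfold big; omega) (by omega))
    omega
  have g6 : cnt (fun k => decide (Gd (inp p d N M k))) ((M + 1) ^ F) + W.card = (M + 1) ^ F := by
    rw [cnt_eq, hW]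
    simp only [decide_eq_true_eq]
    rw [Finset.card_filter_add_card_filter_not, Finset.card_range]
  omega

lemma okk_fail (r : ℕ) {K : ℕ → ℕ} {Gd : Pr → Prop} [DecidablePred Gd] {p : Pr} {N : ℕ}
    (hok : okk r K p N)
    (h : {p' | p' ∈ Inputs N.unpair.1 N.unpair.2 ∧ ¬ Gd p'}.encard ^ (r + 1)
      ≤ ((K N.unpair.1 * (N.unpair.2 + 1) ^ (r * N.unpair.1 ^ 2) : ℕ) : ℕ∞)) :
    (MM p N + 1) ^ FF p N < 2 * cnt (fun k => decide (Gd (inp p (dd p) N.unpair.1 (MM p N) k)))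
      ((MM p N + 1) ^ FF p N) := by
  obtain ⟨h1, h2, h3, h4⟩ := hok
  obtain ⟨n, hn⟩ : ∃ n, n = N.unpair.1 := ⟨_, rfl⟩
  obtain ⟨d, hd⟩ : ∃ d, d = dd p := ⟨_, rfl⟩
  have t1 := two_tri n
  have t2 := two_tri d
  have f1 : 2 * tri n = n * n - n := by omega
  have f2 : 2 * tri d = d * d - d := by omega
  rw [← hn, ← hd] at h1 h2
  have hnn : n + d * d + 1 ≤ n * n := by
    refine le_trans ?_ h2
    exact Nat.le_mul_of_pos_left _ (by positivity)
  have hFe : FF p N = n * n - n - (d * d - d) := by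
    unfold FF
    rw [← hn, ← hd, Nat.mul_sub, f1, f2]
  refine vote_gd (d := dd p) (by rw [← hn, ← hd]; exact h1) rfl ?_ rfl h3 h4 ?_
  · change 1 ≤ FF p N
    rw [hFe]
    omega
  change _ ≤ ((K N.unpair.1 * (N.unpair.2 + 1) ^ (FF p N - 1) : ℕ) : ℕ∞)
  obtain ⟨E, hE⟩ : ∃ E, E = {p' | p' ∈ Inputs N.unpair.1 N.unpair.2 ∧ ¬ Gd p'}.encard := ⟨_, rfl⟩
  rw [← hE] at h ⊢
  have hEt : E ≠ ⊤ := by
    intro ht
    rw [ht, ENat.top_pow (by omega)] at h
    exact absurd h (not_le.2 (ENat.natCast_lt_top _))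
  lift E to ℕ using hEt
  norm_cast at h ⊢
  refine num E _ _ _ _ (r + 1) (by omega) (by omega) ?_ h
  rw [hFe, ← hn]
  have e6 : (r + 1) * (n * n - n - (d * d - d) - 1) + (r + 1) * (n + d * d + 1)
      ≥ (r + 1) * (n * n) := by
    rw [← Nat.mul_add]
    refine Nat.mul_le_mul_left _ ?_
    omega
  have e7 : (r + 1) * (n * n) = r * n ^ 2 + n * n := by ring
  omega

/-- the bound for the entries -/
def vv (K : ℕ → ℕ) (x : Pr × ℕ) : ℕ :=
  se x.1.1 + se x.1.2 + mm x.1 (2 * (tri x.2 - tri (dd x.1))) (K x.2)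

lemma vv_comp {K : ℕ → ℕ} (hK : Computable K) : Computable (vv K) := by
  unfold vv
  have p1 : Primrec (fun x : Pr × ℕ => se x.1.1) := se_primrec.comp (by fun_prop)
  have p2 : Primrec (fun x : Pr × ℕ => se x.1.2) := se_primrec.comp (by fun_prop)
  have p3 : Primrec (fun x : Pr × ℕ => 2 * (tri x.2 - tri (dd x.1))) := by
    have q1 : Primrec (fun x : Pr × ℕ => tri x.2) := ptri.comp Primrec.snd
    have q2 : Primrec (fun x : Pr × ℕ => tri (dd x.1)) := ptri.comp pd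
    exact pmul (pconst 2) (psub q1 q2)
  have c4 : Computable (fun x : Pr × ℕ => mm x.1 (2 * (tri x.2 - tri (dd x.1))) (K x.2)) :=
    mm_comp Computable.fst p3.to_comp (hK.comp Computable.snd)
  exact Primrec.nat_add.to_comp.comp (Primrec.nat_add.to_comp.comp p1.to_comp p2.to_comp) c4

/-- one sequence of sizes -/
def JJ (K : ℕ → ℕ) (N : ℕ) : ℕ := Nat.pair N (Tz.sm (vv K) N (N + 1))

lemma JJ_comp {K : ℕ → ℕ} (hK : Computable K) : Computable (JJ K) :=
  Primrec₂.natPair.to_comp.comp Computable.id (Tz.sm_comp (vv_comp hK))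

lemma JJ1 (K : ℕ → ℕ) (N : ℕ) : (JJ K N).unpair.1 = N := by simp [JJ]

lemma JJ2 (K : ℕ → ℕ) (N : ℕ) : (JJ K N).unpair.2 = Tz.sm (vv K) N (N + 1) := by simp [JJ]

lemma ev_okJ (r : ℕ) (K : ℕ → ℕ) (p : Pr) : ∀ᶠ N in atTop, okk r K p (JJ K N) := by
  filter_upwards [eventually_ge_atTop ((r + 1) * (dd p * dd p + 2) + dd p + encode p)] with R hR
  have e1 : se p.1 + se p.2 + mm p (2 * (tri R - tri (dd p))) (K R) ≤ Tz.sm (vv K) R (R + 1) :=
    Tz.le_sm (vv K) R p (R + 1) (by omega)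
  unfold okk FF MM
  rw [JJ1, JJ2]
  refine ⟨by omega, ?_, by omega, by omega⟩
  have h1 : (r + 1) * (dd p * dd p + 2) ≤ R := by omega
  have hR1 : 1 ≤ R := le_trans (Nat.one_le_iff_ne_zero.2 (by positivity)) h1
  calc (r + 1) * (R + dd p * dd p + 1) ≤ (r + 1) * ((dd p * dd p + 2) * R) := by
        refine Nat.mul_le_mul_left _ ?_
        nlinarith [Nat.mul_le_mul_left (dd p * dd p) hR1]
    _ = (r + 1) * (dd p * dd p + 2) * R := by ring
    _ ≤ R * R := Nat.mul_le_mul_right _ h1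

attribute [local irreducible] tri dd FF MM se lst mm fe cnt inp vv JJ okk Tz.maj

/-- **Bounded advice and few failures for strong shift equivalence.** -/
theorem advicep (k r : ℕ) {A : ℕ × Pr →. Bool} {K : ℕ → ℕ} (hA : Partrec A) (hK : Computable K)
    (h : ∀ R H : ℕ, ∃ i < k, {p' | p' ∈ Inputs R H ∧ ¬ ∃ b ∈ A (i, p'), (b = true ↔ SSE p')}.encard
      ^ (r + 1) ≤ ((K R * (H + 1) ^ (r * R ^ 2) : ℕ) : ℕ∞)) : ComputablePred SSE := by
  classical
  obtain ⟨st, cst, mst, vst⟩ := Partial.stages hA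
  obtain ⟨F, hF⟩ : ∃ F : (ℕ × ℕ) × Pr × ℕ → Option Bool, F = fun z =>
    Tz.maj (fun j => st (z.1.1, (z.1.2, inp z.2.1 (dd z.2.1) (JJ K z.2.2).unpair.1
      (MM z.2.1 (JJ K z.2.2)) j))) ((MM z.2.1 (JJ K z.2.2) + 1) ^ FF z.2.1 (JJ K z.2.2)) :=
    ⟨_, rfl⟩
  have cz : Computable (fun z : (ℕ × ℕ) × Pr × ℕ => (z.2.1, JJ K z.2.2)) :=
    (Computable.fst.comp Computable.snd).pair
      ((JJ_comp hK).comp (Computable.snd.comp Computable.snd))
  have c5z : Computable (fun z : (ℕ × ℕ) × Pr × ℕ =>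
      (MM z.2.1 (JJ K z.2.2) + 1) ^ FF z.2.1 (JJ K z.2.2)) :=
    Computable.comp (f := fun x : Pr × ℕ => (MM x.1 x.2 + 1) ^ FF x.1 x.2)
      (g := fun z : (ℕ × ℕ) × Pr × ℕ => (z.2.1, JJ K z.2.2)) c5 cz
  have d1 : Computable (fun w : ((ℕ × ℕ) × Pr × ℕ) × ℕ => w.1.2.1) :=
    Computable.fst.comp (Computable.snd.comp Computable.fst)
  have d2 : Computable (fun w : ((ℕ × ℕ) × Pr × ℕ) × ℕ => dd w.1.2.1) :=
    Computable.comp (f := fun x : Pr × ℕ => dd x.1)
      (g := fun w : ((ℕ × ℕ) × Pr × ℕ) × ℕ => (w.1.2.1, w.2)) pd.to_comp (d1.pair Computable.snd)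
  have d3 : Computable (fun w : ((ℕ × ℕ) × Pr × ℕ) × ℕ => (JJ K w.1.2.2).unpair.1) :=
    Computable.comp (f := fun x : Pr × ℕ => x.2.unpair.1)
      (g := fun w : ((ℕ × ℕ) × Pr × ℕ) × ℕ => (w.1.2.1, JJ K w.1.2.2)) pR.to_comp
      (cz.comp Computable.fst)
  have d4 : Computable (fun w : ((ℕ × ℕ) × Pr × ℕ) × ℕ => MM w.1.2.1 (JJ K w.1.2.2)) :=
    Computable.comp (f := fun x : Pr × ℕ => MM x.1 x.2)
      (g := fun w : ((ℕ × ℕ) × Pr × ℕ) × ℕ => (w.1.2.1, JJ K w.1.2.2)) pM.to_comp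
      (cz.comp Computable.fst)
  have d6 := inp_comp d1 d2 d3 d4 Computable.snd
  have cF : Computable F := by
    rw [hF]
    refine Tz.maj_comp (f := fun (z : (ℕ × ℕ) × Pr × ℕ) j =>
      st (z.1.1, (z.1.2, inp z.2.1 (dd z.2.1) (JJ K z.2.2).unpair.1
        (MM z.2.1 (JJ K z.2.2)) j))) ?_ c5z
    exact cst.comp ((Computable.fst.comp (Computable.fst.comp Computable.fst)).pair
      ((Computable.snd.comp (Computable.fst.comp Computable.fst)).pair d6))
  have cadm : Computable (fun x : Pr × ℕ =>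
      @decide (okk r K x.1 (JJ K x.2)) (Classical.propDecidable _)) :=
    Computable.comp (f := fun x : Pr × ℕ => @decide (okk r K x.1 x.2) (Classical.propDecidable _))
      (g := fun x : Pr × ℕ => (x.1, JJ K x.2)) (cok r hK)
      (Computable.fst.pair ((JJ_comp hK).comp Computable.snd))
  obtain ⟨D, hD, hD2⟩ := Partial.corep (X := Pr) (P := fun _ => True) (T := SSE) (k := k) cF cadm
    (by
      intro s s' i x N b hs hb
      rw [hF] at hb ⊢
      exact Tz.maj_mono (fun j _ b hj => mst s s' _ b hs hj) hb)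
    (fun p _ => by
      filter_upwards [ev_okJ r K p] with N hN
      exact decide_eq_true hN)
    (by
      intro N
      obtain ⟨i, hi, hi2⟩ := h (JJ K N).unpair.1 (JJ K N).unpair.2
      refine ⟨i, hi, fun p _ hp => ?_⟩
      have hok : okk r K p (JJ K N) := of_decide_eq_true hp
      have key := okk_fail (Gd := fun p' => ∃ b ∈ A (i, p'), (b = true ↔ SSE p')) r hok hi2
      obtain ⟨s, hs⟩ := Tri.votep (st := st) mst (b := decide (SSE p))
        (e := fun j => (i, inp p (dd p) (JJ K N).unpair.1 (MM p (JJ K N)) j)) key (by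
          intro j _ hj
          obtain ⟨b, hb, hb2⟩ := of_decide_eq_true hj
          have g0 : p.1.length ≤ dd p ∧ p.2.length ≤ dd p ∧ dd p ≤ (JJ K N).unpair.1 := by
            unfold okk at hok
            refine ⟨?_, ?_, hok.1⟩ <;> · unfold dd; omega
          rw [inp_sse g0.1 g0.2.1 g0.2.2] at hb2
          have e3 : b = decide (SSE p) := by
            rw [Bool.eq_iff_iff, decide_eq_true_eq]
            exact hb2
          rw [e3] at hb
          exact (vst _ _).2 hb)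
      exact ⟨s, decide (SSE p), by rw [hF]; exact hs, by simp⟩)
  exact total hD fun p => hD2 p trivial

end Pool.Agent.Q287.BA.Sse
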